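import Mathlib

/-! Algebra of the 4 x 4 matrix attached to a triple of symmetries a, b, c with ab = ba. -/

set_option linter.unusedSimpArgs false
set_option linter.unusedVariables false
set_option linter.unusedSectionVars false

namespace Pool.Agent.Helper93.QG

section

variable {R : Type*} [Ring R] [Algebra ℂ R]

/-- Three symmetries, the first two commuting. -/
structure Trip (a b c : R) : Prop where
  aa : a * a = 1
  bb : b * b = 1
  cc : c * c = 1
  ab : a * b = b * a

/-- spectral idempotents of `a` -/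
noncomputable def pr (a : R) (s : Bool) : R := (1 / 2 : ℂ) • (1 + cond s (-a) a)

/-- left matrix -/
noncomputable def Lm (a b : R) (i k : Bool) : R := cond i b 1 * pr a (xor i k)

/-- right matrix -/
noncomputable def Mm (a b : R) (l j : Bool) : R := pr a (xor j l) * cond j b 1

/-- the matrix `u` -/
noncomputable def um (a b c : R) (x y : Bool × Bool) : R :=
  Lm a b x.1 y.1 * c * Mm a b y.2 x.2

/-- the inverse matrix of `u` -/
noncomputable def um' (a b c : R) (y x : Bool × Bool) : R :=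
  Lm a b x.2 y.2 * c * Mm a b y.1 x.1

variable {a b c : R}

lemma pr_add (a : R) : pr a false + pr a true = 1 := by
  simp only [pr, cond_false, cond_true]
  module

lemma pr_sub (a : R) : pr a false - pr a true = a := by
  simp only [pr, cond_false, cond_true]
  module

lemma pr_add' (a : R) : pr a true + pr a false = 1 := by
  rw [add_comm, pr_add]

lemma pr_idem (h : a * a = 1) (s : Bool) : pr a s * pr a s = pr a s := by
  cases s <;>
  · simp only [pr, cond_false, cond_true, smul_mul_assoc, mul_smul_comm, mul_add, add_mul,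
      one_mul, mul_one, h, mul_neg, neg_mul, neg_neg]
    module

lemma pr_orth (h : a * a = 1) (s : Bool) : pr a s * pr a (!s) = 0 := by
  cases s <;>
  · simp only [pr, Bool.not_true, Bool.not_false, cond_false, cond_true, smul_mul_assoc,
      mul_smul_comm, mul_add, add_mul, one_mul, mul_one, h, mul_neg, neg_mul, neg_neg]
    module

lemma pr_orth1 (h : a * a = 1) : pr a false * pr a true = 0 := pr_orth h false

lemma pr_orth2 (h : a * a = 1) : pr a true * pr a false = 0 := pr_orth h true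

lemma pr_comm {b : R} (h : a * b = b * a) (s : Bool) : b * pr a s = pr a s * b := by
  cases s <;>
  · simp only [pr, cond_false, cond_true, smul_mul_assoc,
      mul_smul_comm, mul_add, add_mul, one_mul, mul_one, h, mul_neg, neg_mul]

lemma mul_pr (h : a * a = 1) (s : Bool) : a * pr a s = cond s (-1 : ℂ) 1 • pr a s := by
  cases s <;>
  · simp only [pr, cond_false, cond_true, smul_mul_assoc,
      mul_smul_comm, mul_add, add_mul, one_mul, mul_one, h, mul_neg, neg_mul]
    module

lemma pr_mul (h : a * a = 1) (s : Bool) : pr a s * a = cond s (-1 : ℂ) 1 • pr a s := by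
  cases s <;>
  · simp only [pr, cond_false, cond_true, smul_mul_assoc,
      mul_smul_comm, mul_add, add_mul, one_mul, mul_one, h, mul_neg, neg_mul]
    module

/-- rewriting under a trailing factor -/
lemma tr {x y z : R} (h : x * y = z) (w : R) : x * (y * w) = z * w := by
  rw [← mul_assoc, h]

/-- `L M = 1` -/
lemma LM (h : Trip a b c) (i j : Bool) :
    ∑ k, Lm a b i k * Mm a b k j = if i = j then 1 else 0 := by
  have h1 := pr_idem h.aa false
  have h2 := pr_idem h.aa true
  have h3 := pr_orth1 h.aa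
  have h4 := pr_orth2 h.aa
  have h5 := pr_comm h.ab false
  have h6 := pr_comm h.ab true
  have h7 := h.bb
  have h8 := pr_add a
  have h9 := pr_add' a
  cases i <;> cases j <;>
    simp [Lm, Mm, mul_assoc, h1, h2, h3, h4, h5, h6, h7, tr h1, tr h2, tr h3, tr h4, tr h5, tr h6,
      tr h7, h8, h9]

/-- `M L = 1` -/
lemma ML (h : Trip a b c) (i j : Bool) :
    ∑ k, Mm a b i k * Lm a b k j = if i = j then 1 else 0 := by
  have h1 := pr_idem h.aa false
  have h2 := pr_idem h.aa true
  have h3 := pr_orth1 h.aa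
  have h4 := pr_orth2 h.aa
  have h5 := pr_comm h.ab false
  have h6 := pr_comm h.ab true
  have h7 := h.bb
  have h8 := pr_add a
  have h9 := pr_add' a
  cases i <;> cases j <;>
    simp [Lm, Mm, mul_assoc, h1, h2, h3, h4, h5, h6, h7, tr h1, tr h2, tr h3, tr h4, tr h5, tr h6,
      tr h7, h8, h9]

lemma LM' (h : Trip a b c) (i j : Bool) :
    ∑ k, Lm a b i k * Mm a b k j = ∑ k, Mm a b k j * Lm a b i k := by
  have h5 := pr_comm h.ab false
  have h6 := pr_comm h.ab true
  have h1 := pr_idem h.aa false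
  have h2 := pr_idem h.aa true
  have h3 := pr_orth1 h.aa
  have h4 := pr_orth2 h.aa
  have h7 := h.bb
  cases i <;> cases j <;>
    simp [Lm, Mm, mul_assoc, h1, h2, h3, h4, h5, h6, h7, tr h1, tr h2, tr h3, tr h4, tr h5, tr h6,
      tr h7]

lemma ML' (h : Trip a b c) (i j : Bool) :
    ∑ k, Mm a b i k * Lm a b k j = ∑ k, Lm a b k j * Mm a b i k := by
  have h5 := pr_comm h.ab false
  have h6 := pr_comm h.ab true
  have h1 := pr_idem h.aa false
  have h2 := pr_idem h.aa true
  have h3 := pr_orth1 h.aa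
  have h4 := pr_orth2 h.aa
  have h7 := h.bb
  cases i <;> cases j <;>
    simp [Lm, Mm, mul_assoc, h1, h2, h3, h4, h5, h6, h7, tr h1, tr h2, tr h3, tr h4, tr h5, tr h6,
      tr h7]

lemma um_mul_um' (h : Trip a b c) (x y : Bool × Bool) :
    ∑ z, um a b c x z * um' a b c z y = if x = y then 1 else 0 := by
  have e1 : ∑ z, um a b c x z * um' a b c z y =
      ∑ k, Lm a b x.1 k * (c * ((∑ l, Mm a b l x.2 * Lm a b y.2 l) * (c * Mm a b k y.1))) := by
    rw [Fintype.sum_prod_type]
    refine Finset.sum_congr rfl fun k _ => ?_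
    rw [Finset.sum_mul, Finset.mul_sum, Finset.mul_sum]
    refine Finset.sum_congr rfl fun l _ => ?_
    simp only [um, um', mul_assoc]
  rw [e1, ← LM' h, LM h]
  by_cases h2 : x.2 = y.2
  · have : ∀ k, Lm a b x.1 k * (c * ((if y.2 = x.2 then 1 else 0) * (c * Mm a b k y.1))) =
        Lm a b x.1 k * Mm a b k y.1 := by
      intro k
      rw [if_pos h2.symm, one_mul, ← mul_assoc c c, h.cc, one_mul]
    simp only [this]
    rw [LM h]
    simp [Prod.ext_iff, h2]
  · have h2' : ¬ (y.2 = x.2) := fun h => h2 h.symm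
    simp [Prod.ext_iff, h2, h2']

lemma um'_mul_um (h : Trip a b c) (x y : Bool × Bool) :
    ∑ z, um' a b c x z * um a b c z y = if x = y then 1 else 0 := by
  have e1 : ∑ z, um' a b c x z * um a b c z y =
      ∑ l, Lm a b l x.2 * (c * ((∑ k, Mm a b x.1 k * Lm a b k y.1) * (c * Mm a b y.2 l))) := by
    rw [Fintype.sum_prod_type_right]
    refine Finset.sum_congr rfl fun k _ => ?_
    rw [Finset.sum_mul, Finset.mul_sum, Finset.mul_sum]
    refine Finset.sum_congr rfl fun l _ => ?_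
    simp only [um, um', mul_assoc]
  rw [e1, ML h]
  by_cases h2 : x.1 = y.1
  · have : ∀ k, Lm a b k x.2 * (c * ((if x.1 = y.1 then 1 else 0) * (c * Mm a b y.2 k))) =
        Lm a b k x.2 * Mm a b y.2 k := by
      intro k
      rw [if_pos h2, one_mul, ← mul_assoc c c, h.cc, one_mul]
    simp only [this]
    rw [← ML' h, ML h]
    simp [Prod.ext_iff, h2, eq_comm]
  · simp [Prod.ext_iff, h2]

/-- the cocycle unitary -/
noncomputable def Om (a1 b2 : R) : R := pr a1 false + pr a1 true * b2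

lemma Om_sq {a b : R} (ha : a * a = 1) (hb : b * b = 1) (hab : a * b = b * a) :
    Om a b * Om a b = 1 := by
  have h1 := pr_idem ha false
  have h2 := pr_idem ha true
  have h3 := pr_orth1 ha
  have h4 := pr_orth2 ha
  have h5 := pr_comm hab false
  have h6 := pr_comm hab true
  have h8 := pr_add a
  simp [Om, mul_add, add_mul, mul_assoc, h1, h2, h3, h4, h5, h6, hb, tr h1, tr h2, tr h3, tr h4,
    tr h5, tr h6, tr hb, h8]

lemma pr_prod {a1 a2 : R} (h1 : a1 * a1 = 1) (h2 : a2 * a2 = 1) (h : a1 * a2 = a2 * a1)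
    (s : Bool) :
    pr (a1 * a2) s = pr a1 false * pr a2 s + pr a1 true * pr a2 (!s) := by
  cases s <;>
  · simp only [pr, Bool.not_true, Bool.not_false, cond_false, cond_true, smul_mul_assoc,
      mul_smul_comm, mul_add, add_mul, one_mul, mul_one, mul_neg, neg_mul, neg_neg]
    module

/-- two commuting triples -/
structure Two (a1 b1 c1 a2 b2 c2 : R) : Prop where
  t1 : Trip a1 b1 c1
  t2 : Trip a2 b2 c2
  aa : a2 * a1 = a1 * a2
  ab : a2 * b1 = b1 * a2
  ac : a2 * c1 = c1 * a2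
  ba : b2 * a1 = a1 * b2
  bb : b2 * b1 = b1 * b2
  bc : b2 * c1 = c1 * b2
  ca : c2 * a1 = a1 * c2
  cb : c2 * b1 = b1 * c2
  cc : c2 * c1 = c1 * c2

variable {a1 b1 c1 a2 b2 c2 : R}

lemma pr_comm2 {x y : R} (h : y * x = x * y) (s t : Bool) : pr y s * pr x t = pr x t * pr y s := by
  have h1 : y * pr x t = pr x t * y := pr_comm h.symm t
  exact (pr_comm h1.symm.symm s).symm

lemma LOm (h : Two a1 b1 c1 a2 b2 c2) (i k : Bool) :
    Lm (a1 * a2) (b1 * b2) i k * Om a1 b2 = ∑ m, Lm a1 b1 i m * Lm a2 b2 m k := by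
  have p1 := pr_idem h.t1.aa false
  have p2 := pr_idem h.t1.aa true
  have p3 := pr_orth1 h.t1.aa
  have p4 := pr_orth2 h.t1.aa
  have q1 := pr_idem h.t2.aa false
  have q2 := pr_idem h.t2.aa true
  have q3 := pr_orth1 h.t2.aa
  have q4 := pr_orth2 h.t2.aa
  have r1 := pr_comm h.t1.ab false
  have r2 := pr_comm h.t1.ab true
  have r3 := pr_comm h.t2.ab false
  have r4 := pr_comm h.t2.ab true
  have s1 := pr_comm h.ba.symm false
  have s2 := pr_comm h.ba.symm true
  have s3 := (pr_comm h.ab false).symm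
  have s4 := (pr_comm h.ab true).symm
  have u1 := pr_comm2 h.aa false false
  have u2 := pr_comm2 h.aa false true
  have u3 := pr_comm2 h.aa true false
  have u4 := pr_comm2 h.aa true true
  have w := h.bb
  have w1 := h.t1.bb
  have w2 := h.t2.bb
  cases i <;> cases k <;>
    simp [Lm, Om, pr_prod h.t1.aa h.t2.aa h.aa.symm, mul_add, add_mul, mul_assoc,
      p1, p2, p3, p4, q1, q2, q3, q4, r1, r2, r3, r4, s1, s2, s3, s4, u1, u2, u3, u4, w, w1, w2,
      tr p1, tr p2, tr p3, tr p4, tr q1, tr q2, tr q3, tr q4, tr r1, tr r2, tr r3, tr r4,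
      tr s1, tr s2, tr s3, tr s4, tr u1, tr u2, tr u3, tr u4, tr w, tr w1, tr w2, add_comm]

lemma OmM (h : Two a1 b1 c1 a2 b2 c2) (l j : Bool) :
    Om a1 b2 * Mm (a1 * a2) (b1 * b2) l j = ∑ m, Mm a2 b2 l m * Mm a1 b1 m j := by
  have p1 := pr_idem h.t1.aa false
  have p2 := pr_idem h.t1.aa true
  have p3 := pr_orth1 h.t1.aa
  have p4 := pr_orth2 h.t1.aa
  have q1 := pr_idem h.t2.aa false
  have q2 := pr_idem h.t2.aa true
  have q3 := pr_orth1 h.t2.aa
  have q4 := pr_orth2 h.t2.aa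
  have r1 := pr_comm h.t1.ab false
  have r2 := pr_comm h.t1.ab true
  have r3 := pr_comm h.t2.ab false
  have r4 := pr_comm h.t2.ab true
  have s1 := pr_comm h.ba.symm false
  have s2 := pr_comm h.ba.symm true
  have s3 := (pr_comm h.ab false).symm
  have s4 := (pr_comm h.ab true).symm
  have u1 := pr_comm2 h.aa false false
  have u2 := pr_comm2 h.aa false true
  have u3 := pr_comm2 h.aa true false
  have u4 := pr_comm2 h.aa true true
  have w := h.bb
  have w1 := h.t1.bb
  have w2 := h.t2.bb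
  cases l <;> cases j <;>
    simp [Mm, Om, pr_prod h.t1.aa h.t2.aa h.aa.symm, mul_add, add_mul, mul_assoc,
      p1, p2, p3, p4, q1, q2, q3, q4, r1, r2, r3, r4, s1, s2, s3, s4, u1, u2, u3, u4, w, w1, w2,
      tr p1, tr p2, tr p3, tr p4, tr q1, tr q2, tr q3, tr q4, tr r1, tr r2, tr r3, tr r4,
      tr s1, tr s2, tr s3, tr s4, tr u1, tr u2, tr u3, tr u4, tr w, tr w1, tr w2, add_comm]

lemma comm_pr {x y : R} (h : x * y = y * x) (s : Bool) : x * pr y s = pr y s * x :=
  pr_comm h.symm s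

lemma comm_Lm {x a b : R} (ha : x * a = a * x) (hb : x * b = b * x) (i k : Bool) :
    x * Lm a b i k = Lm a b i k * x := by
  have h1 := comm_pr ha (xor i k)
  cases i
  · simpa [Lm] using h1
  · simp only [Lm, cond_true]
    rw [← mul_assoc, hb, mul_assoc, h1, mul_assoc]

lemma comm_Mm {x a b : R} (ha : x * a = a * x) (hb : x * b = b * x) (i k : Bool) :
    x * Mm a b i k = Mm a b i k * x := by
  have h1 := comm_pr ha (xor k i)
  cases k
  · simpa [Mm] using h1
  · simp only [Mm, cond_true]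
    rw [← mul_assoc, h1, mul_assoc, hb, mul_assoc]

/-- the coproduct formula -/
lemma um_comul (h : Two a1 b1 c1 a2 b2 c2) (x y : Bool × Bool) :
    um (a1 * a2) (b1 * b2) (Om a1 b2 * (c1 * c2) * Om a1 b2) x y =
      ∑ z, um a1 b1 c1 x z * um a2 b2 c2 z y := by
  have e1 : um (a1 * a2) (b1 * b2) (Om a1 b2 * (c1 * c2) * Om a1 b2) x y =
      (Lm (a1 * a2) (b1 * b2) x.1 y.1 * Om a1 b2) * (c1 * c2) *
        (Om a1 b2 * Mm (a1 * a2) (b1 * b2) y.2 x.2) := by
    simp only [um, mul_assoc]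
  rw [e1, LOm h, OmM h, Fintype.sum_prod_type, Finset.sum_mul, Finset.sum_mul]
  refine Finset.sum_congr rfl fun m _ => ?_
  rw [Finset.mul_sum]
  refine Finset.sum_congr rfl fun n _ => ?_
  simp only [um]
  have k1 : Lm a2 b2 m y.1 * c1 = c1 * Lm a2 b2 m y.1 :=
    (comm_Lm h.ac.symm h.bc.symm m y.1).symm
  have k2 : ∀ i k, Mm a1 b1 i k * Lm a2 b2 m y.1 = Lm a2 b2 m y.1 * Mm a1 b1 i k := by
    intro i k
    refine comm_Lm ?_ ?_ _ _
    · exact (comm_Mm h.aa h.ab i k).symm
    · exact (comm_Mm h.ba h.bb i k).symm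
  have k3 : ∀ i k, Mm a1 b1 i k * c2 = c2 * Mm a1 b1 i k := fun i k =>
    (comm_Mm h.ca h.cb i k).symm
  have k4 : ∀ i k, Mm a1 b1 i k * Mm a2 b2 y.2 n = Mm a2 b2 y.2 n * Mm a1 b1 i k := by
    intro i k
    refine comm_Mm ?_ ?_ _ _
    · exact (comm_Mm h.aa h.ab i k).symm
    · exact (comm_Mm h.ba h.bb i k).symm
  calc Lm a1 b1 x.1 m * Lm a2 b2 m y.1 * (c1 * c2) * (Mm a2 b2 y.2 n * Mm a1 b1 n x.2)
      = Lm a1 b1 x.1 m * ((Lm a2 b2 m y.1 * c1) * (c2 * (Mm a2 b2 y.2 n * Mm a1 b1 n x.2))) := by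
        simp only [mul_assoc]
    _ = Lm a1 b1 x.1 m * (c1 * (Lm a2 b2 m y.1 * (c2 * (Mm a1 b1 n x.2 * Mm a2 b2 y.2 n)))) := by
        rw [k1, ← k4]; simp only [mul_assoc]
    _ = Lm a1 b1 x.1 m * (c1 * (Lm a2 b2 m y.1 * ((c2 * Mm a1 b1 n x.2) * Mm a2 b2 y.2 n))) := by
        simp only [mul_assoc]
    _ = Lm a1 b1 x.1 m * (c1 * ((Lm a2 b2 m y.1 * Mm a1 b1 n x.2) * (c2 * Mm a2 b2 y.2 n))) := by
        rw [← k3]; simp only [mul_assoc]
    _ = _ := by
        rw [← k2]; simp only [mul_assoc]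

/-- `S`-relations -/
lemma Om_Lm (h : Trip a b c) (i k : Bool) : Om a b * Lm a b i k = Mm a b i k := by
  have p1 := pr_idem h.aa false
  have p2 := pr_idem h.aa true
  have p3 := pr_orth1 h.aa
  have p4 := pr_orth2 h.aa
  have r1 := pr_comm h.ab false
  have r2 := pr_comm h.ab true
  have w := h.bb
  cases i <;> cases k <;>
    simp [Lm, Mm, Om, mul_add, add_mul, mul_assoc, p1, p2, p3, p4, r1, r2, w, tr p1, tr p2,
      tr p3, tr p4, tr r1, tr r2, tr w]

lemma Mm_Om (h : Trip a b c) (i k : Bool) : Mm a b i k * Om a b = Lm a b i k := by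
  have p1 := pr_idem h.aa false
  have p2 := pr_idem h.aa true
  have p3 := pr_orth1 h.aa
  have p4 := pr_orth2 h.aa
  have r1 := pr_comm h.ab false
  have r2 := pr_comm h.ab true
  have w := h.bb
  cases i <;> cases k <;>
    simp [Lm, Mm, Om, mul_add, add_mul, mul_assoc, p1, p2, p3, p4, r1, r2, w, tr p1, tr p2,
      tr p3, tr p4, tr r1, tr r2, tr w]

lemma Two.trip (h : Two a1 b1 c1 a2 b2 c2) :
    Trip (a1 * a2) (b1 * b2) (Om a1 b2 * (c1 * c2) * Om a1 b2) where
  aa := by
    rw [mul_assoc, ← mul_assoc a2, h.aa, mul_assoc, h.t2.aa, mul_one, h.t1.aa]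
  bb := by
    rw [mul_assoc, ← mul_assoc b2, h.bb, mul_assoc, h.t2.bb, mul_one, h.t1.bb]
  cc := by
    have h1 := Om_sq h.t1.aa h.t2.bb h.ba.symm
    have h2 : c1 * c2 * (c1 * c2) = 1 := by
      rw [mul_assoc, ← mul_assoc c2, h.cc, mul_assoc, h.t2.cc, mul_one, h.t1.cc]
    calc Om a1 b2 * (c1 * c2) * Om a1 b2 * (Om a1 b2 * (c1 * c2) * Om a1 b2)
        = Om a1 b2 * ((c1 * c2) * ((Om a1 b2 * Om a1 b2) * ((c1 * c2) * Om a1 b2))) := by
          simp only [mul_assoc]
      _ = Om a1 b2 * ((c1 * c2 * (c1 * c2)) * Om a1 b2) := by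
          rw [h1, one_mul]; simp only [mul_assoc]
      _ = 1 := by rw [h2, one_mul, h1]
  ab := by
    calc a1 * a2 * (b1 * b2) = a1 * ((a2 * b1) * b2) := by simp only [mul_assoc]
      _ = (a1 * b1) * (a2 * b2) := by rw [h.ab]; simp only [mul_assoc]
      _ = b1 * ((a1 * b2) * a2) := by rw [h.t1.ab, h.t2.ab]; simp only [mul_assoc]
      _ = b1 * b2 * (a1 * a2) := by rw [← h.ba]; simp only [mul_assoc]

/-- naturality -/
lemma map_pr {R' : Type*} [Ring R'] [Algebra ℂ R'] (φ : R →ₐ[ℂ] R') (a : R) (s : Bool) :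
    φ (pr a s) = pr (φ a) s := by
  cases s <;> simp [pr]

lemma map_Lm {R' : Type*} [Ring R'] [Algebra ℂ R'] (φ : R →ₐ[ℂ] R') (a b : R) (i k : Bool) :
    φ (Lm a b i k) = Lm (φ a) (φ b) i k := by
  cases i <;> simp [Lm, map_pr]

lemma map_Mm {R' : Type*} [Ring R'] [Algebra ℂ R'] (φ : R →ₐ[ℂ] R') (a b : R) (i k : Bool) :
    φ (Mm a b i k) = Mm (φ a) (φ b) i k := by
  cases k <;> simp [Mm, map_pr]

lemma map_Om {R' : Type*} [Ring R'] [Algebra ℂ R'] (φ : R →ₐ[ℂ] R') (a b : R) :
    φ (Om a b) = Om (φ a) (φ b) := by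
  simp [Om, map_pr]

lemma map_um {R' : Type*} [Ring R'] [Algebra ℂ R'] (φ : R →ₐ[ℂ] R') (a b c : R)
    (x y : Bool × Bool) :
    φ (um a b c x y) = um (φ a) (φ b) (φ c) x y := by
  simp [um, map_Lm, map_Mm]

lemma Trip.map {R' : Type*} [Ring R'] [Algebra ℂ R'] (φ : R →ₐ[ℂ] R') {a b c : R}
    (h : Trip a b c) : Trip (φ a) (φ b) (φ c) where
  aa := by rw [← map_mul, h.aa, map_one]
  bb := by rw [← map_mul, h.bb, map_one]
  cc := by rw [← map_mul, h.cc, map_one]
  ab := by rw [← map_mul, h.ab, map_mul]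

end

section star

variable {R : Type*} [Ring R] [StarRing R] [Algebra ℂ R] [StarModule ℂ R]

lemma star_pr {a : R} (h : star a = a) (s : Bool) : star (pr a s) = pr a s := by
  cases s <;> simp [pr, h]

lemma star_Lm {a b : R} (ha : star a = a) (hb : star b = b) (i k : Bool) :
    star (Lm a b i k) = Mm a b k i := by
  cases i <;> simp [Lm, Mm, star_pr ha, hb]

lemma star_Mm {a b : R} (ha : star a = a) (hb : star b = b) (i k : Bool) :
    star (Mm a b i k) = Lm a b k i := by
  cases k <;> simp [Lm, Mm, star_pr ha, hb]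

lemma star_Om {a b : R} (ha : star a = a) (hb : star b = b) (hab : a * b = b * a) :
    star (Om a b) = Om a b := by
  simp [Om, star_pr ha, hb, pr_comm hab]

lemma star_um {a b c : R} (ha : star a = a) (hb : star b = b) (hc : star c = c)
    (x y : Bool × Bool) :
    star (um a b c x y) = um' a b c y x := by
  simp [um, um', star_Lm ha hb, star_Mm ha hb, hc, mul_assoc]

end star

end Pool.Agent.Helper93.QG
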