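import Mathlib
import Pool.Agent.Helper93.QG.Alg

/-! More algebra of the 4 x 4 matrix. -/

set_option linter.unusedSimpArgs false
set_option linter.unusedVariables false
set_option linter.unusedSectionVars false

namespace Pool.Agent.Helper93.QG

section

variable {R : Type*} [Ring R] [Algebra ℂ R] {a b c : R}

lemma sum_um (a b c : R) : ∑ y, um a b c (false, false) y = c := by
  have h8 := pr_add' a
  rw [Fintype.sum_prod_type]
  simp only [Fintype.sum_bool, um, Lm, Mm, cond_false, one_mul, mul_one, Bool.false_xor,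
    Bool.xor_false]
  rw [← mul_add, ← mul_add, ← add_mul, ← add_mul, h8, one_mul, mul_one]

lemma a_mul_Lm (h : Trip a b c) (i k : Bool) :
    a * Lm a b i k = cond (xor i k) (-1 : ℂ) 1 • Lm a b i k := by
  have h1 := mul_pr h.aa (xor i k)
  cases i
  · simpa [Lm] using h1
  · simp only [Lm, cond_true]
    rw [← mul_assoc, h.ab, mul_assoc, h1, mul_smul_comm]

lemma Mm_mul_a (h : Trip a b c) (l j : Bool) :
    Mm a b l j * a = cond (xor j l) (-1 : ℂ) 1 • Mm a b l j := by
  have h1 := pr_mul h.aa (xor j l)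
  cases j
  · simpa [Mm] using h1
  · simp only [Mm, cond_true]
    rw [mul_assoc, ← h.ab, ← mul_assoc, h1, smul_mul_assoc]

lemma b_mul_Lm (h : Trip a b c) (i k : Bool) :
    b * Lm a b i k = Lm a b (!i) (!k) := by
  cases i
  · simp [Lm]
  · simp only [Lm, cond_true]
    rw [← mul_assoc, h.bb]
    simp

lemma Mm_mul_b (h : Trip a b c) (l j : Bool) :
    Mm a b l j * b = Mm a b (!l) (!j) := by
  cases j
  · simp [Mm]
  · simp only [Mm, cond_true]
    rw [mul_assoc, h.bb]
    simp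

lemma a_mul_um (h : Trip a b c) (x y : Bool × Bool) :
    a * um a b c x y = cond (xor x.1 y.1) (-1 : ℂ) 1 • um a b c x y := by
  rw [um, ← mul_assoc, ← mul_assoc, a_mul_Lm h, smul_mul_assoc, smul_mul_assoc]

lemma um_mul_a (h : Trip a b c) (x y : Bool × Bool) :
    um a b c x y * a = cond (xor x.2 y.2) (-1 : ℂ) 1 • um a b c x y := by
  rw [um, mul_assoc, Mm_mul_a h, mul_smul_comm]

lemma b_mul_um (h : Trip a b c) (x y : Bool × Bool) :
    b * um a b c x y = um a b c (!x.1, x.2) (!y.1, y.2) := by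
  rw [um, ← mul_assoc, ← mul_assoc, b_mul_Lm h, um]

lemma um_mul_b (h : Trip a b c) (x y : Bool × Bool) :
    um a b c x y * b = um a b c (x.1, !x.2) (y.1, !y.2) := by
  rw [um, mul_assoc, Mm_mul_b h, um]

/-- the span of the entries of `u` -/
def Wsp (a b c : R) : Submodule ℂ R := Submodule.span ℂ (Set.range fun p : (Bool × Bool) × (Bool × Bool) => um a b c p.1 p.2)

lemma um_mem_Wsp (a b c : R) (x y : Bool × Bool) : um a b c x y ∈ Wsp a b c :=
  Submodule.subset_span ⟨(x, y), rfl⟩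

lemma c_mem_Wsp (a b c : R) : c ∈ Wsp a b c := by
  have h2 : ∑ y, um a b c (false, false) y ∈ Wsp a b c :=
    Submodule.sum_mem _ fun y _ => um_mem_Wsp a b c _ y
  rwa [sum_um] at h2

lemma Wsp_mul_left {x : R} (hx : ∀ p q, x * um a b c p q ∈ Wsp a b c) {w : R}
    (hw : w ∈ Wsp a b c) : x * w ∈ Wsp a b c := by
  have : Wsp a b c ≤ (Wsp a b c).comap (LinearMap.mulLeft ℂ x) := by
    unfold Wsp
    rw [Submodule.span_le]
    rintro _ ⟨p, rfl⟩
    exact hx _ _
  exact this hw

lemma Wsp_mul_right {x : R} (hx : ∀ p q, um a b c p q * x ∈ Wsp a b c) {w : R}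
    (hw : w ∈ Wsp a b c) : w * x ∈ Wsp a b c := by
  have : Wsp a b c ≤ (Wsp a b c).comap (LinearMap.mulRight ℂ x) := by
    unfold Wsp
    rw [Submodule.span_le]
    rintro _ ⟨p, rfl⟩
    exact hx _ _
  exact this hw

lemma a_mul_Wsp (h : Trip a b c) {w : R} (hw : w ∈ Wsp a b c) : a * w ∈ Wsp a b c := by
  refine Wsp_mul_left (fun p q => ?_) hw
  rw [a_mul_um h]
  exact Submodule.smul_mem _ _ (um_mem_Wsp _ _ _ _ _)

lemma b_mul_Wsp (h : Trip a b c) {w : R} (hw : w ∈ Wsp a b c) : b * w ∈ Wsp a b c := by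
  refine Wsp_mul_left (fun p q => ?_) hw
  rw [b_mul_um h]
  exact um_mem_Wsp _ _ _ _ _

lemma Wsp_mul_a (h : Trip a b c) {w : R} (hw : w ∈ Wsp a b c) : w * a ∈ Wsp a b c := by
  refine Wsp_mul_right (fun p q => ?_) hw
  rw [um_mul_a h]
  exact Submodule.smul_mem _ _ (um_mem_Wsp _ _ _ _ _)

lemma Wsp_mul_b (h : Trip a b c) {w : R} (hw : w ∈ Wsp a b c) : w * b ∈ Wsp a b c := by
  refine Wsp_mul_right (fun p q => ?_) hw
  rw [um_mul_b h]
  exact um_mem_Wsp _ _ _ _ _

/-- an indexing of the four-element set -/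
noncomputable def e4 : Fin 4 ≃ Bool × Bool := (Fintype.equivFinOfCardEq (by simp)).symm

lemma sum_e4 {M : Type*} [AddCommMonoid M] (f : Bool × Bool → M) :
    ∑ i, f (e4 i) = ∑ z, f z := Equiv.sum_comp e4 f

/-- the matrix `u` over `Fin 4` -/
noncomputable def Um (a b c : R) : Matrix (Fin 4) (Fin 4) R := fun i j => um a b c (e4 i) (e4 j)

end

end Pool.Agent.Helper93.QG
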