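import Mathlib

/-! Closed subgroups of the free unitary quantum group, growth of the dual, diagonal tori. -/

open scoped TensorProduct ENNReal
open Matrix

namespace Pool.Agent.Helper93.QG

noncomputable section

/-- `w` is a unitary matrix over the C*-algebra `A`. -/
def IsUnitaryMat {A : Type} [CStarAlgebra A] {X : Type} [Fintype X] [DecidableEq X]
    (w : Matrix X X A) : Prop :=
  wᴴ * w = 1 ∧ w * wᴴ = 1

/-- The C*-algebra `A` is generated by the entries of `u`. -/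
def GeneratesCStar {A : Type} [CStarAlgebra A] {N : ℕ} (u : Matrix (Fin N) (Fin N) A) : Prop :=
  Dense (StarAlgebra.adjoin ℂ {x : A | ∃ i j, x = u i j} : Set A)

/-- The bilinear map `(x, y) ↦ i₁(x) i₂(y)`. -/
def tensorBilin {A T : Type} [CStarAlgebra A] [CStarAlgebra T] (i₁ i₂ : A →⋆ₐ[ℂ] T) :
    A →ₗ[ℂ] A →ₗ[ℂ] T :=
  (LinearMap.mul ℂ T).compl₁₂ (i₁ : A →ₗ[ℂ] T) (i₂ : A →ₗ[ℂ] T)

/-- The linear map `x ⊗ y ↦ i₁(x) i₂(y)` on the algebraic tensor product. -/
def tensorMap {A T : Type} [CStarAlgebra A] [CStarAlgebra T] (i₁ i₂ : A →⋆ₐ[ℂ] T) :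
    A ⊗[ℂ] A → T :=
  TensorProduct.lift (tensorBilin i₁ i₂)

/-- `T` is a C*-tensor product `A ⊗ A` (a C*-completion of the algebraic tensor product), with
`i₁(x) = x ⊗ 1` and `i₂(y) = 1 ⊗ y`: the images of `i₁` and `i₂` commute, and the map
`x ⊗ y ↦ i₁(x) i₂(y)` is injective on the algebraic tensor product and has dense range.
(Every C*-norm on the algebraic tensor product dominates the minimal one, so a comultiplication
into any C*-tensor product gives one into the minimal tensor product.) -/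
def IsCStarTensor {A T : Type} [CStarAlgebra A] [CStarAlgebra T] (i₁ i₂ : A →⋆ₐ[ℂ] T) : Prop :=
  (∀ x y, Commute (i₁ x) (i₂ y)) ∧ Function.Injective (tensorMap i₁ i₂) ∧
    DenseRange (tensorMap i₁ i₂)

/-- A C*-tensor product `T = A ⊗ A`. -/
structure CStarSquare (A : Type) [CStarAlgebra A] where
  /-- the C*-algebra `A ⊗ A` -/
  T : Type
  [cstarT : CStarAlgebra T]
  /-- `x ↦ x ⊗ 1` -/
  i₁ : A →⋆ₐ[ℂ] T
  /-- `y ↦ 1 ⊗ y` -/
  i₂ : A →⋆ₐ[ℂ] T
  isTensor : IsCStarTensor i₁ i₂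

attribute [instance] CStarSquare.cstarT

/-- The element `x ⊗ y` of `A ⊗ A`. -/
def CStarSquare.tmul {A : Type} [CStarAlgebra A] (s : CStarSquare A) (x y : A) : s.T :=
  s.i₁ x * s.i₂ y

/-- `Δ(w_xy) = ∑ w_xz ⊗ w_zy`. -/
def IsComul {A : Type} [CStarAlgebra A] (s : CStarSquare A) (Δ : A →⋆ₐ[ℂ] s.T)
    {X : Type} [Fintype X] (w : Matrix X X A) : Prop :=
  ∀ x y, Δ (w x y) = ∑ z, s.tmul (w x z) (w z y)

/-- A closed subgroup `G ⊂ U_N^+` in Woronowicz's C*-algebraic formalism with `S² = id`: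
a unital C*-algebra `A = C(G)` generated by the entries of a unitary `u ∈ M_N(A)`, such that
`Δ(u_ij) = ∑ u_ik ⊗ u_kj`, `ε(u_ij) = δ_ij`, `S(u_ij) = u_ji*` define morphisms of C*-algebras
`Δ : A → A ⊗ A`, `ε : A → ℂ`, `S : A → A^opp`. -/
structure ClosedSubgroup (N : ℕ) where
  /-- the C*-algebra `C(G)` -/
  A : Type
  [cstarA : CStarAlgebra A]
  /-- the C*-algebra `C(G) ⊗ C(G)` -/
  sq : CStarSquare A
  /-- the fundamental corepresentation -/
  u : Matrix (Fin N) (Fin N) A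
  u_unitary : IsUnitaryMat u
  u_generates : GeneratesCStar u
  /-- comultiplication -/
  Δ : A →⋆ₐ[ℂ] sq.T
  Δ_u : IsComul sq Δ u
  /-- counit -/
  ε : A →⋆ₐ[ℂ] ℂ
  ε_u : ∀ i j, ε (u i j) = if i = j then 1 else 0
  /-- antipode -/
  S : A →⋆ₐ[ℂ] Aᵐᵒᵖ
  S_u : ∀ i j, S (u i j) = MulOpposite.op (star (u j i))

attribute [instance] ClosedSubgroup.cstarA

namespace ClosedSubgroup

variable {N : ℕ} (G : ClosedSubgroup N)

/-- A scalar matrix, seen as a matrix over `C(G)`. -/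
def scal {m n : Type} (X : Matrix m n ℂ) : Matrix m n G.A := X.map (algebraMap ℂ G.A)

/-- `w ∈ M_X(C(G))` is a (finite-dimensional) unitary corepresentation:
it is unitary and `Δ(w_xy) = ∑ w_xz ⊗ w_zy`. -/
def IsUnitaryCorep {X : Type} [Fintype X] [DecidableEq X] (w : Matrix X X G.A) : Prop :=
  IsUnitaryMat w ∧ IsComul G.sq G.Δ w

/-- `V` intertwines `r` and `w`, that is, `w V = V r`. -/
def Intertwines {X Y : Type} [Fintype X] [Fintype Y] (r : Matrix X X G.A) (w : Matrix Y Y G.A)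
    (V : Matrix Y X ℂ) : Prop :=
  w * G.scal V = G.scal V * r

/-- `r` is irreducible: it has positive dimension and its self-intertwiners are scalars. -/
def IsIrred {X : Type} [Fintype X] [DecidableEq X] (r : Matrix X X G.A) : Prop :=
  Nonempty X ∧ ∀ V : Matrix X X ℂ, G.Intertwines r r V → ∃ c : ℂ, V = c • (1 : Matrix X X ℂ)

/-- `r ⊂ w`: there is an isometric intertwiner from `r` to `w`. -/
def Contained {X Y : Type} [Fintype X] [Fintype Y] [DecidableEq X]
    (r : Matrix X X G.A) (w : Matrix Y Y G.A) : Prop :=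
  ∃ V : Matrix Y X ℂ, Vᴴ * V = 1 ∧ G.Intertwines r w V

/-- `r` and `w` are (unitarily) equivalent: there is a unitary intertwiner. -/
def Equivalent {X Y : Type} [Fintype X] [Fintype Y] [DecidableEq X] [DecidableEq Y]
    (r : Matrix X X G.A) (w : Matrix Y Y G.A) : Prop :=
  ∃ V : Matrix Y X ℂ, Vᴴ * V = 1 ∧ V * Vᴴ = 1 ∧ G.Intertwines r w V

/-- An irreducible unitary corepresentation of `G` on `ℂ^dim`. -/
structure IrrCorep where
  /-- the dimension -/
  dim : ℕ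
  /-- the matrix -/
  mat : Matrix (Fin dim) (Fin dim) G.A
  isCorep : G.IsUnitaryCorep mat
  isIrred : G.IsIrred mat

lemma scal_mul {l m n : Type} [Fintype m] (X : Matrix l m ℂ) (Y : Matrix m n ℂ) :
    G.scal (X * Y) = G.scal X * G.scal Y := by
  simp [scal, Matrix.map_mul]

lemma scal_one {m : Type} [DecidableEq m] : G.scal (1 : Matrix m m ℂ) = 1 := by
  simp [scal]

lemma equivalent_refl {X : Type} [Fintype X] [DecidableEq X] (r : Matrix X X G.A) :
    G.Equivalent r r :=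
  ⟨1, by simp, by simp, by simp [Intertwines, scal_one]⟩

lemma equivalent_symm {X Y : Type} [Fintype X] [Fintype Y] [DecidableEq X] [DecidableEq Y]
    {r : Matrix X X G.A} {w : Matrix Y Y G.A} (h : G.Equivalent r w) : G.Equivalent w r := by
  obtain ⟨V, h1, h2, h3⟩ := h
  refine ⟨Vᴴ, by simpa using h2, by simpa using h1, ?_⟩
  have h1' : G.scal Vᴴ * G.scal V = 1 := by rw [← scal_mul, h1, scal_one]
  have h2' : G.scal V * G.scal Vᴴ = 1 := by rw [← scal_mul, h2, scal_one]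
  unfold Intertwines at h3 ⊢
  calc r * G.scal Vᴴ = G.scal Vᴴ * (G.scal V * r) * G.scal Vᴴ := by
        rw [← Matrix.mul_assoc, h1', Matrix.one_mul]
    _ = G.scal Vᴴ * w * (G.scal V * G.scal Vᴴ) := by
        rw [← h3]; simp only [Matrix.mul_assoc]
    _ = _ := by rw [h2', Matrix.mul_one]

lemma equivalent_trans {X Y Z : Type} [Fintype X] [Fintype Y] [Fintype Z] [DecidableEq X]
    [DecidableEq Y] [DecidableEq Z]
    {r : Matrix X X G.A} {w : Matrix Y Y G.A} {s : Matrix Z Z G.A} (h : G.Equivalent r w)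
    (h' : G.Equivalent w s) : G.Equivalent r s := by
  obtain ⟨V, h1, h2, h3⟩ := h
  obtain ⟨W, h1', h2', h3'⟩ := h'
  refine ⟨W * V, ?_, ?_, ?_⟩
  · rw [conjTranspose_mul, Matrix.mul_assoc, ← Matrix.mul_assoc Wᴴ, h1', Matrix.one_mul, h1]
  · rw [conjTranspose_mul, Matrix.mul_assoc, ← Matrix.mul_assoc V, h2, Matrix.one_mul, h2']
  · unfold Intertwines at h3 h3' ⊢
    rw [scal_mul, ← Matrix.mul_assoc, h3', Matrix.mul_assoc, h3, Matrix.mul_assoc]

/-- Equivalence of irreducible corepresentations. -/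
instance irrSetoid : Setoid G.IrrCorep where
  r a b := G.Equivalent a.mat b.mat
  iseqv := ⟨fun a => G.equivalent_refl a.mat, fun h => G.equivalent_symm h,
    fun h h' => G.equivalent_trans h h'⟩

/-- `Irr(G)`: the set of classes of irreducible unitary corepresentations. -/
def Irr : Type := Quotient G.irrSetoid

lemma dim_eq_of_equivalent {a b : G.IrrCorep} (h : G.Equivalent a.mat b.mat) :
    a.dim = b.dim := by
  obtain ⟨V, h1, h2, -⟩ := h
  have h3 := Matrix.trace_mul_comm V Vᴴ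
  rw [h1, h2, Matrix.trace_one, Matrix.trace_one, Fintype.card_fin, Fintype.card_fin] at h3
  exact_mod_cast h3.symm

variable {G} in
/-- The dimension of a class of irreducible corepresentations. -/
def Irr.dim (x : G.Irr) : ℕ :=
  Quotient.lift (fun r : G.IrrCorep => r.dim) (fun _ _ h => G.dim_eq_of_equivalent h) x

/-- The corepresentation `1 ⊕ u ⊕ ū`. -/
def oneUU : Matrix (Unit ⊕ (Fin N ⊕ Fin N)) (Unit ⊕ (Fin N ⊕ Fin N)) G.A :=
  fromBlocks 1 0 0 (fromBlocks G.u 0 0 (G.u.map star))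

/-- The tensor power `w^{⊗k}`, on the index set `X^k`, with entries
`w_{x_1 y_1} w_{x_2 y_2} ⋯ w_{x_k y_k}`. -/
def tensorPow {X : Type} (w : Matrix X X G.A) (k : ℕ) : Matrix (Fin k → X) (Fin k → X) G.A :=
  fun x y => (List.ofFn fun t => w (x t) (y t)).prod

variable {G} in
/-- `r ⊂ (1 ⊕ u ⊕ ū)^{⊗k}`, for a class `r`. -/
def Irr.ContainedPow (x : G.Irr) (k : ℕ) : Prop :=
  ∃ r : G.IrrCorep, Quotient.mk _ r = x ∧ G.Contained r.mat (G.tensorPow G.oneUU k)

variable {G} in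
/-- `ℓ(r)`: the least `k ≥ 0` with `r ⊂ (1 ⊕ u ⊕ ū)^{⊗k}` (and `⊤` if there were no such `k`). -/
def Irr.length (x : G.Irr) : ℕ∞ := ⨅ (k : ℕ) (_ : x.ContainedPow k), (k : ℕ∞)

/-- `b_k = ∑_{ℓ(r) ≤ k} dim(r)²`. -/
def b (k : ℕ) : ℝ≥0∞ := ∑' x : {x : G.Irr // x.length ≤ k}, (x.1.dim : ℝ≥0∞) ^ 2

/-- The dual of `G` has polynomial growth. -/
def DualPolynomialGrowth : Prop := ∃ C d : ℕ, ∀ k : ℕ, 1 ≤ k → G.b k ≤ C * (k : ℝ≥0∞) ^ d

/-- The matrix `v = Q u Q*`. -/
def conj (Q : unitaryGroup (Fin N) ℂ) : Matrix (Fin N) (Fin N) G.A :=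
  G.scal Q.1 * G.u * G.scal (Q.1)ᴴ

/-- The closed two-sided ideal of `C(G)` generated by the `v_ij`, `i ≠ j`. -/
def torusIdeal (Q : unitaryGroup (Fin N) ℂ) : TwoSidedIdeal G.A :=
  sInf {J | IsClosed (J : Set G.A) ∧ ∀ i j, i ≠ j → G.conj Q i j ∈ J}

/-- The quotient algebra `C*(Γ_Q) = C(G) / ⟨v_ij = 0, i ≠ j⟩`. -/
def TorusAlg (Q : unitaryGroup (Fin N) ℂ) : Type := (G.torusIdeal Q).ringCon.Quotient

instance torusAlgRing (Q : unitaryGroup (Fin N) ℂ) : Ring (G.TorusAlg Q) :=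
  RingCon.instRingQuotient (G.torusIdeal Q).ringCon

/-- The quotient map. -/
def toTorusAlg (Q : unitaryGroup (Fin N) ℂ) : G.A →+* G.TorusAlg Q :=
  (G.torusIdeal Q).ringCon.mk'

lemma conj_mem {Q : unitaryGroup (Fin N) ℂ} {i j : Fin N} (h : i ≠ j) :
    G.conj Q i j ∈ G.torusIdeal Q := by
  rw [torusIdeal, TwoSidedIdeal.mem_sInf]
  exact fun J hJ => hJ.2 i j h

lemma toTorusAlg_eq_zero {Q : unitaryGroup (Fin N) ℂ} {x : G.A} (h : x ∈ G.torusIdeal Q) :
    G.toTorusAlg Q x = 0 := by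
  rw [← map_zero (G.toTorusAlg Q)]
  exact (RingCon.eq _).2 h

lemma scal_star {m n : Type} (X : Matrix m n ℂ) : (G.scal X)ᴴ = G.scal Xᴴ := by
  ext i j
  simp only [scal, conjTranspose_apply, map_apply]
  exact (algebraMap_star_comm _).symm

lemma conj_unitary (Q : unitaryGroup (Fin N) ℂ) : IsUnitaryMat (G.conj Q) := by
  have h1 : G.scal (Q.1)ᴴ * G.scal Q.1 = 1 := by
    rw [← scal_mul, ← star_eq_conjTranspose, Q.2.1, scal_one]
  have h2 : G.scal Q.1 * G.scal (Q.1)ᴴ = 1 := by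
    rw [← scal_mul, ← star_eq_conjTranspose, Q.2.2, scal_one]
  have h3 : G.uᴴ * G.u = 1 := G.u_unitary.1
  have h4 : G.u * G.uᴴ = 1 := G.u_unitary.2
  have h5 : (G.conj Q)ᴴ = G.scal Q.1 * G.uᴴ * G.scal (Q.1)ᴴ := by
    simp only [conj, conjTranspose_mul, scal_star, conjTranspose_conjTranspose, Matrix.mul_assoc]
  unfold IsUnitaryMat
  rw [h5]
  constructor
  · unfold conj
    calc _ = G.scal Q.1 * (G.uᴴ * ((G.scal (Q.1)ᴴ * G.scal Q.1) * G.u)) * G.scal (Q.1)ᴴ := by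
          simp only [Matrix.mul_assoc]
      _ = 1 := by rw [h1, Matrix.one_mul, h3, Matrix.mul_one, h2]
  · unfold conj
    calc _ = G.scal Q.1 * (G.u * ((G.scal (Q.1)ᴴ * G.scal Q.1) * G.uᴴ)) * G.scal (Q.1)ᴴ := by
          simp only [Matrix.mul_assoc]
      _ = 1 := by rw [h1, Matrix.one_mul, h4, Matrix.mul_one, h2]

lemma torusGen_mul_inv (Q : unitaryGroup (Fin N) ℂ) (i : Fin N) :
    G.toTorusAlg Q (G.conj Q i i) * G.toTorusAlg Q (star (G.conj Q i i)) = 1 := by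
  have h := congrArg (G.toTorusAlg Q) (congrFun (congrFun (G.conj_unitary Q).2 i) i)
  rw [Matrix.mul_apply, one_apply_eq, map_one, map_sum, Finset.sum_eq_single i, map_mul] at h
  · exact h
  · intro j _ hj
    rw [map_mul, G.toTorusAlg_eq_zero (G.conj_mem hj.symm), zero_mul]
  · simp

lemma torusGen_inv_mul (Q : unitaryGroup (Fin N) ℂ) (i : Fin N) :
    G.toTorusAlg Q (star (G.conj Q i i)) * G.toTorusAlg Q (G.conj Q i i) = 1 := by
  have h := congrArg (G.toTorusAlg Q) (congrFun (congrFun (G.conj_unitary Q).1 i) i)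
  rw [Matrix.mul_apply, one_apply_eq, map_one, map_sum, Finset.sum_eq_single i, map_mul] at h
  · exact h
  · intro j _ hj
    rw [map_mul, G.toTorusAlg_eq_zero (G.conj_mem hj), mul_zero]
  · simp

/-- The group-like element `g_i`, the image of `v_ii` (with inverse the image of `v_ii*`). -/
def torusGen (Q : unitaryGroup (Fin N) ℂ) (i : Fin N) : (G.TorusAlg Q)ˣ where
  val := G.toTorusAlg Q (G.conj Q i i)
  inv := G.toTorusAlg Q (star (G.conj Q i i))
  val_inv := G.torusGen_mul_inv Q i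
  inv_val := G.torusGen_inv_mul Q i

/-- The diagonal torus `Γ_Q = ⟨g_1, …, g_N⟩`. -/
def torus (Q : unitaryGroup (Fin N) ℂ) : Subgroup (G.TorusAlg Q)ˣ :=
  Subgroup.closure (Set.range (G.torusGen Q))

/-- The generator `g_i` as an element of `Γ_Q`. -/
def torusElt (Q : unitaryGroup (Fin N) ℂ) (i : Fin N) : G.torus Q :=
  ⟨G.torusGen Q i, Subgroup.subset_closure ⟨i, rfl⟩⟩

end ClosedSubgroup

/-- The ball of radius `k` for the word length in `g_1^{±1}, …, g_N^{±1}`. -/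
def ball {Γ : Type} [Group Γ] {N : ℕ} (g : Fin N → Γ) (k : ℕ) : Set Γ :=
  {x | ∃ l : List Γ, l.length ≤ k ∧ (∀ y ∈ l, ∃ i, y = g i ∨ y = (g i)⁻¹) ∧ l.prod = x}

/-- Polynomial growth of a group with respect to generators `g_1, …, g_N`. -/
def GroupPolynomialGrowth {Γ : Type} [Group Γ] {N : ℕ} (g : Fin N → Γ) : Prop :=
  ∃ C d : ℕ, ∀ k : ℕ, 1 ≤ k → (ball g k).encard ≤ C * (k : ℕ∞) ^ d

/-- `Γ_Q` has polynomial growth. -/
def ClosedSubgroup.TorusPolynomialGrowth {N : ℕ} (G : ClosedSubgroup N)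
    (Q : unitaryGroup (Fin N) ℂ) : Prop :=
  GroupPolynomialGrowth (G.torusElt Q)

end

end Pool.Agent.Helper93.QG
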