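import Mathlib
import Pool.Agent.Helper93.QG.Defs

/-! Constructions with corepresentations. -/

set_option linter.unusedSimpArgs false
set_option linter.unusedVariables false
set_option linter.unusedSectionVars false

open scoped TensorProduct ENNReal
open Matrix

namespace Pool.Agent.Helper93.QG

noncomputable section

section tmul

variable {A : Type} [CStarAlgebra A] (s : CStarSquare A)

lemma CStarSquare.leg_comm (x y : A) : s.i₁ x * s.i₂ y = s.i₂ y * s.i₁ x := s.isTensor.1 x y

@[simp] lemma CStarSquare.tmul_zero (x : A) : s.tmul x 0 = 0 := by simp [CStarSquare.tmul]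

@[simp] lemma CStarSquare.zero_tmul (x : A) : s.tmul 0 x = 0 := by simp [CStarSquare.tmul]

lemma CStarSquare.one_tmul_one : s.tmul 1 1 = 1 := by simp [CStarSquare.tmul]

lemma CStarSquare.tmul_mul_tmul (x y z t : A) :
    s.tmul x y * s.tmul z t = s.tmul (x * z) (y * t) := by
  unfold CStarSquare.tmul
  rw [map_mul, map_mul, mul_assoc, ← mul_assoc (s.i₂ y), ← s.leg_comm z y]
  simp only [mul_assoc]

lemma CStarSquare.star_tmul (x y : A) : star (s.tmul x y) = s.tmul (star x) (star y) := by
  unfold CStarSquare.tmul
  rw [star_mul, ← map_star, ← map_star, s.leg_comm]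

end tmul

namespace ClosedSubgroup

variable {N : ℕ} (G : ClosedSubgroup N)

section

variable {X Y : Type} [Fintype X] [Fintype Y] [DecidableEq X] [DecidableEq Y]

lemma unitary_iff {R : Type} [CStarAlgebra R] {X : Type} [Fintype X] [DecidableEq X]
    (w : Matrix X X R) :
    IsUnitaryMat w ↔ (∀ x y, ∑ z, star (w z x) * w z y = if x = y then 1 else 0) ∧
      (∀ x y, ∑ z, w x z * star (w y z) = if x = y then 1 else 0) := by
  constructor
  · rintro ⟨h1, h2⟩
    constructor
    · intro x y
      have := congrFun (congrFun h1 x) y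
      rw [Matrix.mul_apply, Matrix.one_apply] at this
      exact this
    · intro x y
      have := congrFun (congrFun h2 x) y
      rw [Matrix.mul_apply, Matrix.one_apply] at this
      exact this
  · rintro ⟨h1, h2⟩
    constructor
    · ext x y
      rw [Matrix.mul_apply, Matrix.one_apply]
      exact h1 x y
    · ext x y
      rw [Matrix.mul_apply, Matrix.one_apply]
      exact h2 x y

variable {G}

lemma IsUnitaryCorep.submatrix {w : Matrix X X G.A} (h : G.IsUnitaryCorep w) (e : Y ≃ X) :
    G.IsUnitaryCorep (w.submatrix e e) := by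
  obtain ⟨h1, h2⟩ := h
  rw [unitary_iff] at h1
  refine ⟨?_, ?_⟩
  · rw [unitary_iff]
    constructor
    · intro x y
      have := h1.1 (e x) (e y)
      rw [← Equiv.sum_comp e] at this
      simpa using this
    · intro x y
      have := h1.2 (e x) (e y)
      rw [← Equiv.sum_comp e] at this
      simpa using this
  · intro x y
    have := h2 (e x) (e y)
    rw [← Equiv.sum_comp e] at this
    exact this

lemma corep_unique {X : Type} [Fintype X] [DecidableEq X] [Unique X] {w : Matrix X X G.A}
    (h : w default default = 1) : G.IsUnitaryCorep w := by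
  refine ⟨?_, ?_⟩
  · rw [unitary_iff]
    constructor <;>
    · intro x y
      rw [Unique.eq_default x, Unique.eq_default y, Fintype.sum_unique, h]
      simp
  · intro x y
    rw [Unique.eq_default x, Unique.eq_default y, Fintype.sum_unique, h, map_one,
      CStarSquare.one_tmul_one]

lemma IsUnitaryCorep.fromBlocks {w : Matrix X X G.A} {w' : Matrix Y Y G.A}
    (h : G.IsUnitaryCorep w) (h' : G.IsUnitaryCorep w') :
    G.IsUnitaryCorep (Matrix.fromBlocks w 0 0 w') := by
  obtain ⟨h1, h2⟩ := h
  obtain ⟨h1', h2'⟩ := h'
  rw [unitary_iff] at h1 h1'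
  refine ⟨?_, ?_⟩
  · rw [unitary_iff]
    constructor
    · rintro (x | x) (y | y)
      · simpa [Fintype.sum_sum_type] using h1.1 x y
      · simp [Fintype.sum_sum_type]
      · simp [Fintype.sum_sum_type]
      · simpa [Fintype.sum_sum_type] using h1'.1 x y
    · rintro (x | x) (y | y)
      · simpa [Fintype.sum_sum_type] using h1.2 x y
      · simp [Fintype.sum_sum_type]
      · simp [Fintype.sum_sum_type]
      · simpa [Fintype.sum_sum_type] using h1'.2 x y
  · rintro (x | x) (y | y)
    · simpa [Fintype.sum_sum_type] using h2 x y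
    · simp [Fintype.sum_sum_type]
    · simp [Fintype.sum_sum_type]
    · simpa [Fintype.sum_sum_type] using h2' x y

/-- tensor product of corepresentations -/
def tens (w : Matrix X X G.A) (w' : Matrix Y Y G.A) : Matrix (X × Y) (X × Y) G.A :=
  fun p q => w p.1 q.1 * w' p.2 q.2

lemma IsUnitaryCorep.tens {w : Matrix X X G.A} {w' : Matrix Y Y G.A}
    (h : G.IsUnitaryCorep w) (h' : G.IsUnitaryCorep w') :
    G.IsUnitaryCorep (tens w w') := by
  obtain ⟨h1, h2⟩ := h
  obtain ⟨h1', h2'⟩ := h'
  rw [unitary_iff] at h1 h1'
  refine ⟨?_, ?_⟩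
  · rw [unitary_iff]
    constructor
    · rintro ⟨x, y⟩ ⟨x', y'⟩
      rw [Fintype.sum_prod_type_right]
      have e : ∀ z t, star (ClosedSubgroup.tens w w' (z, t) (x, y)) *
          ClosedSubgroup.tens w w' (z, t) (x', y') =
          star (w' t y) * (star (w z x) * w z x') * w' t y' := by
        intro z t
        simp only [ClosedSubgroup.tens, star_mul, mul_assoc]
      simp only [e]
      have e2 : ∀ t, ∑ z, star (w' t y) * (star (w z x) * w z x') * w' t y' =
          (if x = x' then 1 else 0) * (star (w' t y) * w' t y') := by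
        intro t
        rw [← Finset.sum_mul, ← Finset.mul_sum, h1.1 x x']
        split_ifs <;> simp
      simp only [e2]
      rw [← Finset.mul_sum, h1'.1 y y']
      by_cases hx : x = x' <;> by_cases hy : y = y' <;> simp [hx, hy]
    · rintro ⟨x, y⟩ ⟨x', y'⟩
      rw [Fintype.sum_prod_type]
      have e : ∀ z t, ClosedSubgroup.tens w w' (x, y) (z, t) *
          star (ClosedSubgroup.tens w w' (x', y') (z, t)) =
          w x z * (w' y t * star (w' y' t)) * star (w x' z) := by
        intro z t
        simp only [ClosedSubgroup.tens, star_mul, mul_assoc]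
      simp only [e]
      have e2 : ∀ z, ∑ t, w x z * (w' y t * star (w' y' t)) * star (w x' z) =
          (if y = y' then 1 else 0) * (w x z * star (w x' z)) := by
        intro t
        rw [← Finset.sum_mul, ← Finset.mul_sum, h1'.2 y y']
        split_ifs <;> simp
      simp only [e2]
      rw [← Finset.mul_sum, h1.2 x x']
      by_cases hx : x = x' <;> by_cases hy : y = y' <;> simp [hx, hy]
  · rintro ⟨x, y⟩ ⟨x', y'⟩
    rw [Fintype.sum_prod_type]
    show G.Δ (w x x' * w' y y') = _
    rw [map_mul, h2, h2', Finset.sum_mul_sum]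
    refine Finset.sum_congr rfl fun z _ => Finset.sum_congr rfl fun t _ => ?_
    rw [CStarSquare.tmul_mul_tmul]
    rfl

lemma tensorPow_zero_corep (w : Matrix X X G.A) : G.IsUnitaryCorep (G.tensorPow w 0) := by
  refine corep_unique ?_
  simp [tensorPow]

lemma tensorPow_succ (w : Matrix X X G.A) (k : ℕ) :
    G.tensorPow w (k + 1) =
      (tens w (G.tensorPow w k)).submatrix (Fin.consEquiv (fun _ => X)).symm
        (Fin.consEquiv (fun _ => X)).symm := by
  ext x y
  simp [tensorPow, tens, List.ofFn_succ, Fin.consEquiv]
  rfl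

lemma IsUnitaryCorep.tensorPow {w : Matrix X X G.A} (h : G.IsUnitaryCorep w) (k : ℕ) :
    G.IsUnitaryCorep (G.tensorPow w k) := by
  induction k with
  | zero => exact tensorPow_zero_corep w
  | succ k ih =>
    rw [tensorPow_succ]
    exact (h.tens ih).submatrix _

end

variable {G}

lemma u_corep : G.IsUnitaryCorep G.u := ⟨G.u_unitary, G.Δ_u⟩

lemma unop_sum' {R ι : Type*} [AddCommMonoid R] (s : Finset ι) (f : ι → Rᵐᵒᵖ) :
    MulOpposite.unop (∑ i ∈ s, f i) = ∑ i ∈ s, MulOpposite.unop (f i) :=
  map_sum (MulOpposite.opAddEquiv (α := R)).symm f s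

lemma ubar_corep : G.IsUnitaryCorep (G.u.map star) := by
  have h := G.u_unitary
  rw [unitary_iff] at h
  refine ⟨?_, ?_⟩
  · rw [unitary_iff]
    constructor
    · intro x y
      have h1 := congrArg MulOpposite.unop (congrArg G.S (h.2 y x))
      rw [map_sum, unop_sum'] at h1
      simp only [map_mul, map_star, G.S_u, Matrix.map_apply, star_star, MulOpposite.unop_mul,
        MulOpposite.unop_op, MulOpposite.unop_star] at h1 ⊢
      rw [h1]
      by_cases hxy : x = y
      · simp [hxy]
      · have hyx : ¬ y = x := fun h => hxy h.symm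
        simp [hxy, hyx]
    · intro x y
      have h1 := congrArg MulOpposite.unop (congrArg G.S (h.1 y x))
      rw [map_sum, unop_sum'] at h1
      simp only [map_mul, map_star, G.S_u, Matrix.map_apply, star_star, MulOpposite.unop_mul,
        MulOpposite.unop_op, MulOpposite.unop_star] at h1 ⊢
      rw [h1]
      by_cases hxy : x = y
      · simp [hxy]
      · have hyx : ¬ y = x := fun h => hxy h.symm
        simp [hxy, hyx]
  · intro x y
    rw [Matrix.map_apply, map_star, G.Δ_u, star_sum]
    refine Finset.sum_congr rfl fun z _ => ?_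
    rw [CStarSquare.star_tmul]
    rfl

lemma oneUU_corep : G.IsUnitaryCorep G.oneUU :=
  (corep_unique (by simp)).fromBlocks (u_corep.fromBlocks ubar_corep)

end ClosedSubgroup

end

end Pool.Agent.Helper93.QG
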