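import Mathlib
import Pool.Agent.Helper93.QG.Alg

/-! The C*-algebra of the example. -/

set_option linter.unusedSectionVars false
set_option linter.unusedVariables false
set_option linter.unusedSimpArgs false

open scoped Matrix.Norms.L2Operator ENNReal TensorProduct
open Matrix

noncomputable section

namespace Pool.Agent.Helper93.QG

section lp

variable {J : Type*} {B : J → Type*} [∀ j, Nontrivial (B j)] [∀ j, CStarAlgebra (B j)]

instance lpCStar : CStarAlgebra (lp B ∞) where

/-- lift of a family of star homomorphisms to the bounded product -/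
def liftLp {D : Type*} [CStarAlgebra D] (φ : ∀ j, D →⋆ₐ[ℂ] B j) : D →⋆ₐ[ℂ] lp B ∞ where
  toFun x := ⟨fun j => φ j x, memℓp_infty ⟨‖x‖, by
    rintro _ ⟨j, rfl⟩; exact NonUnitalStarAlgHom.norm_apply_le (φ j) x⟩⟩
  map_one' := by ext j; simp
  map_mul' x y := by ext j; simp
  map_zero' := by ext j; simp
  map_add' x y := by ext j; exact map_add (φ j) x y
  commutes' r := by ext j; simp [Algebra.algebraMap_eq_smul_one]
  map_star' x := by ext j; simp [map_star]

@[simp] lemma liftLp_apply {D : Type*} [CStarAlgebra D] (φ : ∀ j, D →⋆ₐ[ℂ] B j) (x : D) (j : J) :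
    liftLp φ x j = φ j x := rfl

/-- evaluation -/
def evLp (j : J) : lp B ∞ →⋆ₐ[ℂ] B j where
  toFun x := x j
  map_one' := rfl
  map_mul' x y := rfl
  map_zero' := rfl
  map_add' x y := rfl
  commutes' r := by simp [Algebra.algebraMap_eq_smul_one]
  map_star' x := rfl

@[simp] lemma evLp_apply (j : J) (x : lp B ∞) : evLp j x = x j := rfl

end lp

/-- A triple of self-adjoint unitary matrices with `ab = ba`. -/
structure Idx where
  n : ℕ
  a : Matrix (Fin (n + 1)) (Fin (n + 1)) ℂ
  b : Matrix (Fin (n + 1)) (Fin (n + 1)) ℂ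
  c : Matrix (Fin (n + 1)) (Fin (n + 1)) ℂ
  t : Trip a b c
  sa : star a = a
  sb : star b = b
  sc : star c = c

/-- the blocks -/
abbrev Blk (i : Idx) : Type := Matrix (Fin (i.n + 1)) (Fin (i.n + 1)) ℂ

/-- the big product -/
abbrev PP : Type := lp Blk ∞

lemma norm_le_one_of_symm {D : Type*} [CStarAlgebra D] [Nontrivial D] {x : D} (h : x * x = 1)
    (hs : star x = x) : ‖x‖ ≤ 1 := by
  have h1 : ‖star x * x‖ = ‖x‖ * ‖x‖ := CStarRing.norm_star_mul_self
  rw [hs, h, norm_one] at h1
  nlinarith [norm_nonneg x]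

/-- an element of the product from a family of symmetries -/
def mkP (f : ∀ i : Idx, Blk i) (h : ∀ i, f i * f i = 1) (hs : ∀ i, star (f i) = f i) : PP :=
  ⟨f, memℓp_infty ⟨1, by rintro _ ⟨j, rfl⟩; exact norm_le_one_of_symm (h j) (hs j)⟩⟩

/-- generator -/
def gA : PP := mkP (fun i => i.a) (fun i => i.t.aa) (fun i => i.sa)
/-- generator -/
def gB : PP := mkP (fun i => i.b) (fun i => i.t.bb) (fun i => i.sb)
/-- generator -/
def gC : PP := mkP (fun i => i.c) (fun i => i.t.cc) (fun i => i.sc)

lemma gTrip : Trip gA gB gC where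
  aa := by ext1; funext i; exact i.t.aa
  bb := by ext1; funext i; exact i.t.bb
  cc := by ext1; funext i; exact i.t.cc
  ab := by ext1; funext i; exact i.t.ab

lemma star_gA : star gA = gA := by ext1; funext i; exact i.sa
lemma star_gB : star gB = gB := by ext1; funext i; exact i.sb
lemma star_gC : star gC = gC := by ext1; funext i; exact i.sc

/-- the star subalgebra of the example -/
def SA : StarSubalgebra ℂ PP := (StarAlgebra.adjoin ℂ {gA, gB, gC}).topologicalClosure

instance : IsClosed (SA : Set PP) := StarSubalgebra.isClosed_topologicalClosure _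

/-- the C*-algebra of the example -/
abbrev AA : Type := SA

instance : CStarAlgebra AA := inferInstance

/-- reindexing -/
def reindexStar {X Y : Type} [Fintype X] [Fintype Y] [DecidableEq X] [DecidableEq Y]
    (e : X ≃ Y) : Matrix X X ℂ →⋆ₐ[ℂ] Matrix Y Y ℂ where
  toFun M := Matrix.reindex e e M
  map_one' := by simp
  map_mul' M N := by simp
  map_zero' := by simp
  map_add' M N := rfl
  commutes' r := by
    ext i j
    simp [Algebra.algebraMap_eq_smul_one, Matrix.one_apply]
  map_star' M := by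
    ext i j
    simp

/-- evaluation at a triple of matrices indexed by an arbitrary finite type -/
lemma exists_ev {X : Type} [Fintype X] [DecidableEq X] [Nonempty X] {a b c : Matrix X X ℂ}
    (t : Trip a b c) (sa : star a = a) (sb : star b = b) (sc : star c = c) :
    ∃ φ : PP →⋆ₐ[ℂ] Matrix X X ℂ, φ gA = a ∧ φ gB = b ∧ φ gC = c := by
  obtain ⟨n, hn⟩ : ∃ n, Fintype.card X = n + 1 := ⟨Fintype.card X - 1, by
    have := Fintype.card_pos (α := X); omega⟩
  let e : X ≃ Fin (n + 1) := Fintype.equivFinOfCardEq hn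
  have key : ∀ M : Matrix X X ℂ, reindexStar e.symm (reindexStar e M) = M := by
    intro M; ext i j; simp [reindexStar]
  let i : Idx :=
    { n := n
      a := reindexStar e a
      b := reindexStar e b
      c := reindexStar e c
      t := ⟨by rw [← map_mul, t.aa, map_one], by rw [← map_mul, t.bb, map_one],
        by rw [← map_mul, t.cc, map_one], by rw [← map_mul, t.ab, map_mul]⟩
      sa := by rw [← map_star, sa]
      sb := by rw [← map_star, sb]
      sc := by rw [← map_star, sc] }
  refine ⟨(reindexStar e.symm).comp (evLp (B := Blk) i), ?_, ?_, ?_⟩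
  · exact key a
  · exact key b
  · exact key c

/-- blocks of the tensor product -/
abbrev Blk2 (p : Idx × Idx) : Type :=
  Matrix (Fin (p.1.n + 1) × Fin (p.2.n + 1)) (Fin (p.1.n + 1) × Fin (p.2.n + 1)) ℂ

/-- the big product for the tensor square -/
abbrev PP2 : Type := lp Blk2 ∞

section kron

variable {X Y : Type} [Fintype X] [Fintype Y] [DecidableEq X] [DecidableEq Y]

/-- `M ↦ M ⊗ 1` -/
def kl : Matrix X X ℂ →⋆ₐ[ℂ] Matrix (X × Y) (X × Y) ℂ where
  toFun M := Matrix.kronecker M (1 : Matrix Y Y ℂ)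
  map_one' := by simp
  map_mul' M N := by
    have := (Matrix.mul_kronecker_mul M N (1 : Matrix Y Y ℂ) (1 : Matrix Y Y ℂ))
    simpa using this
  map_zero' := by simp
  map_add' M N := by simp [Matrix.add_kronecker]
  commutes' r := by
    simp [Algebra.algebraMap_eq_smul_one, Matrix.smul_kronecker]
  map_star' M := by
    simp [star_eq_conjTranspose, Matrix.conjTranspose_kronecker]

/-- `M ↦ 1 ⊗ M` -/
def kr : Matrix Y Y ℂ →⋆ₐ[ℂ] Matrix (X × Y) (X × Y) ℂ where
  toFun M := Matrix.kronecker (1 : Matrix X X ℂ) M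
  map_one' := by simp
  map_mul' M N := by
    have := (Matrix.mul_kronecker_mul (1 : Matrix X X ℂ) (1 : Matrix X X ℂ) M N)
    simpa using this
  map_zero' := by simp
  map_add' M N := by simp [Matrix.kronecker_add]
  commutes' r := by
    simp [Algebra.algebraMap_eq_smul_one, Matrix.kronecker_smul]
  map_star' M := by
    simp [star_eq_conjTranspose, Matrix.conjTranspose_kronecker]

lemma kl_mul_kr (M : Matrix X X ℂ) (N : Matrix Y Y ℂ) :
    kl (Y := Y) M * kr (X := X) N = Matrix.kronecker M N := by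
  have := (Matrix.mul_kronecker_mul M (1 : Matrix X X ℂ) (1 : Matrix Y Y ℂ) N).symm
  rw [Matrix.mul_one, Matrix.one_mul] at this
  exact this

lemma kr_mul_kl (M : Matrix X X ℂ) (N : Matrix Y Y ℂ) :
    kr (X := X) N * kl (Y := Y) M = Matrix.kronecker M N := by
  have := (Matrix.mul_kronecker_mul (1 : Matrix X X ℂ) M N (1 : Matrix Y Y ℂ)).symm
  rw [Matrix.mul_one, Matrix.one_mul] at this
  exact this

end kron

/-- first leg -/
def leg1 : AA →⋆ₐ[ℂ] PP2 :=
  liftLp (B := Blk2) fun p => (kl (Y := Fin (p.2.n + 1))).comp ((evLp (B := Blk) p.1).comp SA.subtype)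

/-- second leg -/
def leg2 : AA →⋆ₐ[ℂ] PP2 :=
  liftLp (B := Blk2) fun p => (kr (X := Fin (p.1.n + 1))).comp ((evLp (B := Blk) p.2).comp SA.subtype)

lemma leg_comm (x y : AA) : Commute (leg1 x) (leg2 y) := by
  ext1; funext p
  have h1 := kl_mul_kr ((x : PP) p.1) ((y : PP) p.2)
  have h2 := kr_mul_kl ((x : PP) p.1) ((y : PP) p.2)
  exact h1.trans h2.symm

/-- the map from the algebraic tensor product -/
def iota0 : AA ⊗[ℂ] AA →⋆ₐ[ℂ] PP2 where
  __ := Algebra.TensorProduct.lift leg1.toAlgHom leg2.toAlgHom leg_comm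
  map_star' z := by
    induction z with
    | zero => simp
    | tmul x y =>
      have h : leg1 (star x) * leg2 (star y) = star (leg2 y) * star (leg1 x) := by
        rw [(leg_comm (star x) (star y)).eq, map_star leg2 y, map_star leg1 x]
      simp only [AlgHom.toFun_eq_coe, TensorProduct.star_tmul, Algebra.TensorProduct.lift_tmul,
        star_mul]
      exact h
    | add x y hx hy =>
      simp only [AlgHom.toFun_eq_coe, star_add, map_add] at hx hy ⊢
      rw [hx, hy]

lemma iota0_tmul (x y : AA) : iota0 (x ⊗ₜ y) = leg1 x * leg2 y := by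
  change Algebra.TensorProduct.lift leg1.toAlgHom leg2.toAlgHom leg_comm (x ⊗ₜ y) = _
  simp only [Algebra.TensorProduct.lift_tmul]
  rfl

lemma iota0_tmul_apply (x y : AA) (p : Idx × Idx) (r s : Fin (p.1.n + 1) × Fin (p.2.n + 1)) :
    (iota0 (x ⊗ₜ y) : PP2) p r s = (x : PP) p.1 r.1 s.1 * (y : PP) p.2 r.2 s.2 := by
  have h1 := kl_mul_kr ((x : PP) p.1) ((y : PP) p.2)
  have h2 : (iota0 (x ⊗ₜ y) : PP2) p = Matrix.kronecker ((x : PP) p.1) ((y : PP) p.2) := by
    rw [iota0_tmul]; exact h1
  rw [h2]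
  rfl

/-- coordinate functional -/
def coordF (i : Idx) (r s : Fin (i.n + 1)) : AA →ₗ[ℂ] ℂ where
  toFun x := (x : PP) i r s
  map_add' x y := rfl
  map_smul' c x := rfl

/-- slicing -/
def slice {V W : Type*} [AddCommGroup V] [Module ℂ V] [AddCommGroup W] [Module ℂ W]
    (f : W →ₗ[ℂ] ℂ) : V ⊗[ℂ] W →ₗ[ℂ] V :=
  TensorProduct.lift (LinearMap.smulRightₗ f)

lemma slice_tmul {V W : Type*} [AddCommGroup V] [Module ℂ V] [AddCommGroup W] [Module ℂ W]
    (f : W →ₗ[ℂ] ℂ) (x : V) (y : W) : slice f (x ⊗ₜ y) = f y • x := rfl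

lemma eq_zero_of_slice {V W κ : Type*} [AddCommGroup V] [Module ℂ V] [AddCommGroup W] [Module ℂ W]
    (f : κ → W →ₗ[ℂ] ℂ) (hf : ∀ x, (∀ k, f k x = 0) → x = 0) {z : V ⊗[ℂ] W}
    (hz : ∀ k, slice (f k) z = 0) : z = 0 := by
  classical
  let ℬ := Module.Basis.ofVectorSpace ℂ V
  let F := TensorProduct.equivFinsuppOfBasisLeft (N := W) ℬ z
  have hzF : z = F.sum fun k y => ℬ k ⊗ₜ y := by
    rw [← TensorProduct.equivFinsuppOfBasisLeft_symm_apply, LinearEquiv.symm_apply_apply]
  have hF : F = 0 := by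
    ext1 k
    refine hf _ fun l => ?_
    have h1 : slice (f l) z = F.sum fun k y => f l y • ℬ k := by
      conv_lhs => rw [hzF]
      rw [Finsupp.sum, map_sum]
      rfl
    rw [hz l] at h1
    by_contra hne
    have hk : k ∈ F.support := by
      rw [Finsupp.mem_support_iff]
      intro h0
      exact hne (by rw [h0]; simp)
    have h2 := linearIndependent_iff'.1 ℬ.linearIndependent F.support
      (fun k => f l (F k)) h1.symm k hk
    exact hne h2
  rw [hzF, hF]
  simp

lemma slice_apply (p : Idx × Idx) (r s : Fin (p.1.n + 1) × Fin (p.2.n + 1)) (z : AA ⊗[ℂ] AA) :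
    ((slice (V := AA) (coordF p.2 r.2 s.2) z : AA) : PP) p.1 r.1 s.1 = (iota0 z : PP2) p r s := by
  induction z with
  | zero =>
    rw [LinearMap.map_zero, map_zero]
    rfl
  | tmul x y =>
    rw [iota0_tmul_apply, slice_tmul, mul_comm]
    rfl
  | add x y hx hy =>
    rw [LinearMap.map_add, map_add]
    exact congrArg₂ (· + ·) hx hy

lemma slice_eq_zero {z : AA ⊗[ℂ] AA} (hz : iota0 z = 0) (j : Idx) (r s : Fin (j.n + 1)) :
    slice (coordF j r s) z = 0 := by
  apply Subtype.ext
  ext1
  funext i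
  ext r' s'
  have := slice_apply (i, j) (r', r) (s', s) z
  rw [hz] at this
  exact this

lemma AA_ext {x : AA} (h : ∀ j r s, coordF j r s x = 0) : x = 0 := by
  apply Subtype.ext
  ext1
  funext i
  ext r s
  exact h i r s

lemma iota0_injective : Function.Injective iota0 := by
  have key : ∀ z : AA ⊗[ℂ] AA, iota0 z = 0 → z = 0 := by
    intro z hz
    refine eq_zero_of_slice (V := AA) (W := AA)
      (fun k : (Σ j : Idx, Fin (j.n + 1) × Fin (j.n + 1)) => coordF k.1 k.2.1 k.2.2) ?_ ?_
    · intro x hx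
      exact AA_ext fun j r s => hx ⟨j, r, s⟩
    · intro k
      exact slice_eq_zero hz _ _ _
  intro x y h
  have h2 := key (x - y) (by rw [map_sub, h, sub_self])
  exact sub_eq_zero.1 h2

/-- the C*-tensor square -/
def ST : StarSubalgebra ℂ PP2 := (iota0.range).topologicalClosure

instance : IsClosed (ST : Set PP2) := StarSubalgebra.isClosed_topologicalClosure _

/-- the C*-tensor square -/
abbrev TT : Type := ST

instance : CStarAlgebra TT := inferInstance

/-- the inclusion -/
def iota : AA ⊗[ℂ] AA →⋆ₐ[ℂ] TT :=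
  iota0.codRestrict ST (fun x => StarSubalgebra.le_topologicalClosure _ ⟨x, rfl⟩)

lemma iota_coe (z : AA ⊗[ℂ] AA) : ((iota z : TT) : PP2) = iota0 z := rfl

lemma iota_injective : Function.Injective iota := fun x y h =>
  iota0_injective (congrArg Subtype.val h)

lemma iota_denseRange : DenseRange iota := by
  intro t
  rw [closure_subtype]
  have h1 : (t : PP2) ∈ closure (Set.range iota0) := t.2
  convert h1 using 2
  ext y
  constructor
  · rintro ⟨_, ⟨z, rfl⟩, rfl⟩; exact ⟨z, rfl⟩
  · rintro ⟨z, rfl⟩; exact ⟨_, ⟨z, rfl⟩, rfl⟩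

end Pool.Agent.Helper93.QG
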