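import Mathlib
import Pool.Agent.Helper93.QG.Corep

/-! Complete reducibility of finite-dimensional unitary corepresentations. -/

set_option linter.unusedSimpArgs false
set_option linter.unusedVariables false
set_option linter.unusedSectionVars false

open scoped TensorProduct ENNReal
open Matrix

namespace Pool.Agent.Helper93.QG

noncomputable section

namespace ClosedSubgroup

variable {N : ℕ} {G : ClosedSubgroup N}

lemma exists_diag {X : Type} [Fintype X] [DecidableEq X] {H : Matrix X X ℂ} (hH : H.IsHermitian) :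
    ∃ U : Matrix X X ℂ, ∃ d : X → ℝ, Uᴴ * U = 1 ∧ U * Uᴴ = 1 ∧
      H = U * diagonal (fun x => (d x : ℂ)) * Uᴴ := by
  refine ⟨hH.eigenvectorUnitary, hH.eigenvalues, hH.eigenvectorUnitary.2.1,
    hH.eigenvectorUnitary.2.2, ?_⟩
  have h := hH.spectral_theorem
  rw [Unitary.conjStarAlgAut_apply] at h
  exact h

lemma contained_trans {X Y Z : Type} [Fintype X] [Fintype Y] [Fintype Z] [DecidableEq X]
    [DecidableEq Y] {r : Matrix X X G.A} {w : Matrix Y Y G.A} {s : Matrix Z Z G.A}
    (h : G.Contained r w) (h' : G.Contained w s) : G.Contained r s := by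
  obtain ⟨V, h1, h2⟩ := h
  obtain ⟨W, h1', h2'⟩ := h'
  refine ⟨W * V, ?_, ?_⟩
  · rw [conjTranspose_mul, Matrix.mul_assoc, ← Matrix.mul_assoc Wᴴ, h1', Matrix.one_mul, h1]
  · unfold Intertwines at h2 h2' ⊢
    rw [scal_mul, ← Matrix.mul_assoc, h2', Matrix.mul_assoc, h2, Matrix.mul_assoc]

section

variable {X : Type} [Fintype X] [DecidableEq X]

/-- first leg -/
def legL (G : ClosedSubgroup N) : G.A →ₐ[ℂ] G.sq.T :=
  G.sq.i₁.toAlgHom

/-- second leg -/
def legR (G : ClosedSubgroup N) : G.A →ₐ[ℂ] G.sq.T :=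
  G.sq.i₂.toAlgHom

lemma leg_mul (x y : G.A) : G.legL x * G.legR y = G.sq.tmul x y := rfl

lemma comul_iff (w : Matrix X X G.A) :
    IsComul G.sq G.Δ w ↔
      w.map G.Δ.toAlgHom = w.map G.legL * w.map G.legR := by
  constructor
  · intro h
    ext x y
    rw [Matrix.map_apply, Matrix.mul_apply]
    refine (h x y).trans (Finset.sum_congr rfl fun z _ => ?_)
    rw [Matrix.map_apply, Matrix.map_apply, leg_mul]
  · intro h x y
    have := congrFun (congrFun h x) y
    rw [Matrix.map_apply, Matrix.mul_apply] at this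
    refine Eq.trans this (Finset.sum_congr rfl fun z _ => ?_)
    rw [Matrix.map_apply, Matrix.map_apply, leg_mul]

lemma scal_map {Y Z : Type} {R : Type} [Ring R] [Algebra ℂ R] (φ : G.A →ₐ[ℂ] R)
    (U : Matrix Y Z ℂ) : (G.scal U).map φ = U.map (algebraMap ℂ R) := by
  ext x y
  simp [scal]

/-- conjugation by a unitary -/
lemma conj_corep {w : Matrix X X G.A} (hw : G.IsUnitaryCorep w) {U : Matrix X X ℂ}
    (h1 : Uᴴ * U = 1) (h2 : U * Uᴴ = 1) : G.IsUnitaryCorep (G.scal Uᴴ * w * G.scal U) := by
  have e1 : G.scal Uᴴ * G.scal U = 1 := by rw [← scal_mul, h1, scal_one]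
  have e2 : G.scal U * G.scal Uᴴ = 1 := by rw [← scal_mul, h2, scal_one]
  obtain ⟨⟨hw1, hw2⟩, hw3⟩ := hw
  refine ⟨⟨?_, ?_⟩, ?_⟩
  · simp only [conjTranspose_mul, scal_star, conjTranspose_conjTranspose]
    calc G.scal Uᴴ * (wᴴ * G.scal U) * (G.scal Uᴴ * w * G.scal U)
        = G.scal Uᴴ * (wᴴ * ((G.scal U * G.scal Uᴴ) * w)) * G.scal U := by
          simp only [Matrix.mul_assoc]
      _ = 1 := by rw [e2, Matrix.one_mul, hw1, Matrix.mul_one, e1]
  · simp only [conjTranspose_mul, scal_star, conjTranspose_conjTranspose]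
    calc G.scal Uᴴ * w * G.scal U * (G.scal Uᴴ * (wᴴ * G.scal U))
        = G.scal Uᴴ * (w * ((G.scal U * G.scal Uᴴ) * wᴴ)) * G.scal U := by
          simp only [Matrix.mul_assoc]
      _ = 1 := by rw [e2, Matrix.one_mul, hw2, Matrix.mul_one, e1]
  · rw [comul_iff] at hw3 ⊢
    have h3 : U.map (algebraMap ℂ G.sq.T) * Uᴴ.map (algebraMap ℂ G.sq.T) = 1 := by
      rw [← Matrix.map_mul, h2, Matrix.map_one _ (map_zero _) (map_one _)]
    rw [Matrix.map_mul, Matrix.map_mul, Matrix.map_mul, Matrix.map_mul, Matrix.map_mul,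
      Matrix.map_mul, scal_map, scal_map, scal_map, scal_map, scal_map, scal_map, hw3]
    calc _ = Uᴴ.map (algebraMap ℂ G.sq.T) * (w.map G.legL * (1 * w.map G.legR)) *
          U.map (algebraMap ℂ G.sq.T) := by
          rw [Matrix.one_mul]
      _ = _ := by
          rw [← h3]
          simp only [Matrix.mul_assoc]

lemma sum_subtype_eq {M : Type*} [AddCommMonoid M] (p : X → Prop) [DecidablePred p] (f : X → M)
    (h : ∀ x, ¬ p x → f x = 0) : ∑ z : {x // p x}, f z = ∑ z, f z := by
  rw [← Finset.sum_filter_of_ne (p := p) (s := Finset.univ) (f := f)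
    (fun x _ hx => by by_contra hp; exact hx (h x hp))]
  exact (Finset.sum_subtype (Finset.univ.filter p) (by simp) f).symm

/-- a block of a block diagonal corepresentation -/
lemma block_corep {w : Matrix X X G.A} (hw : G.IsUnitaryCorep w) (p : X → Prop) [DecidablePred p]
    (hb : ∀ x y, p x → ¬ p y → w x y = 0 ∧ w y x = 0) :
    G.IsUnitaryCorep (w.submatrix (Subtype.val : {x // p x} → X) Subtype.val) ∧
    G.Contained (w.submatrix (Subtype.val : {x // p x} → X) Subtype.val) w := by
  obtain ⟨h1, h2⟩ := hw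
  rw [unitary_iff] at h1
  constructor
  · refine ⟨?_, ?_⟩
    · rw [unitary_iff]
      constructor
      · intro x y
        have := h1.1 x y
        rw [← sum_subtype_eq p] at this
        · simpa [Subtype.ext_iff] using this
        · intro z hz
          rw [(hb y z y.2 hz).2, mul_zero]
      · intro x y
        have := h1.2 x y
        rw [← sum_subtype_eq p] at this
        · simpa [Subtype.ext_iff] using this
        · intro z hz
          rw [(hb x z x.2 hz).1, zero_mul]
    · intro x y
      have := h2 x y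
      rw [← sum_subtype_eq p] at this
      · exact this
      · intro z hz
        rw [(hb x z x.2 hz).1, CStarSquare.zero_tmul]
  · refine ⟨fun x s => if x = s then 1 else 0, ?_, ?_⟩
    · ext s t
      rw [Matrix.mul_apply, Matrix.one_apply]
      simp [Matrix.conjTranspose_apply, Subtype.ext_iff, eq_comm]
    · ext x s
      rw [Matrix.mul_apply, Matrix.mul_apply]
      by_cases hx : p x
      · rw [Finset.sum_eq_single (s : X), Finset.sum_eq_single (⟨x, hx⟩ : {x // p x})]
        · simp [scal]
        · intro t _ ht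
          have : x ≠ t := fun h => ht (Subtype.ext h.symm)
          simp [scal, this]
        · simp
        · intro y _ hy
          simp [scal, hy]
        · simp
      · rw [Finset.sum_eq_single (s : X), Finset.sum_eq_zero]
        · rw [(hb s x s.2 hx).2, zero_mul]
        · intro t _
          have : x ≠ t := fun h => hx (h ▸ t.2)
          simp [scal, this]
        · intro y _ hy
          simp [scal, hy]
        · simp

lemma intertwines_star {w : Matrix X X G.A} (hw : G.IsUnitaryCorep w) {V : Matrix X X ℂ}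
    (h : G.Intertwines w w V) : G.Intertwines w w Vᴴ := by
  obtain ⟨⟨hw1, hw2⟩, -⟩ := hw
  unfold Intertwines at h ⊢
  have h1 := congrArg conjTranspose h
  simp only [conjTranspose_mul, scal_star] at h1
  -- Vᴴ wᴴ = wᴴ Vᴴ
  calc w * G.scal Vᴴ = w * (G.scal Vᴴ * wᴴ) * w := by
        rw [Matrix.mul_assoc, Matrix.mul_assoc, hw1, Matrix.mul_one]
    _ = G.scal Vᴴ * w := by
        rw [h1, ← Matrix.mul_assoc, hw2, Matrix.one_mul]

lemma scal_add (V W : Matrix X X ℂ) : G.scal (V + W) = G.scal V + G.scal W := by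
  ext x y; simp [scal]

lemma scal_sub (V W : Matrix X X ℂ) : G.scal (V - W) = G.scal V - G.scal W := by
  ext x y; simp [scal]

lemma scal_smul (c : ℂ) (V : Matrix X X ℂ) : G.scal (c • V) = c • G.scal V := by
  ext x y
  show algebraMap ℂ G.A (c * V x y) = c • algebraMap ℂ G.A (V x y)
  rw [map_mul, Algebra.smul_def]

/-- a reducible corepresentation has a non-scalar Hermitian intertwiner -/
lemma exists_hermitian {w : Matrix X X G.A} (hw : G.IsUnitaryCorep w) (hX : Nonempty X)
    (hirr : ¬ G.IsIrred w) :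
    ∃ H : Matrix X X ℂ, H.IsHermitian ∧ G.Intertwines w w H ∧ ¬ ∃ c : ℂ, H = c • 1 := by
  unfold IsIrred at hirr
  push Not at hirr
  obtain ⟨V, hV, hn⟩ := hirr hX
  have hV' := intertwines_star hw hV
  by_contra hcon
  push Not at hcon
  obtain ⟨c1, h1⟩ := hcon (V + Vᴴ) (by
    rw [Matrix.IsHermitian, conjTranspose_add, conjTranspose_conjTranspose, add_comm]) (by
    unfold Intertwines at hV hV' ⊢
    rw [scal_add, Matrix.mul_add, Matrix.add_mul, hV, hV'])
  obtain ⟨c2, h2⟩ := hcon (Complex.I • (V - Vᴴ)) (by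
    rw [Matrix.IsHermitian, conjTranspose_smul, conjTranspose_sub, conjTranspose_conjTranspose]
    have : star Complex.I = - Complex.I := Complex.conj_I
    rw [this, neg_smul, ← smul_neg, neg_sub]) (by
    unfold Intertwines at hV hV' ⊢
    rw [scal_smul, scal_sub, Matrix.mul_smul, Matrix.smul_mul, Matrix.mul_sub, Matrix.sub_mul,
      hV, hV'])
  apply hn ((1 / 2 : ℂ) * (c1 - Complex.I * c2))
  have h3 : V - Vᴴ = (- Complex.I * c2) • (1 : Matrix X X ℂ) := by
    rw [mul_smul, ← h2, smul_smul]
    simp
  have h4 : V = (1 / 2 : ℂ) • ((V + Vᴴ) + (V - Vᴴ)) := by module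
  rw [h4, h1, h3]
  module

/-- the coefficients of the irreducible corepresentations contained in `w` -/
def coefSet (w : Matrix X X G.A) : Set G.A :=
  {z | ∃ r : G.IrrCorep, G.Contained r.mat w ∧ ∃ i j, z = r.mat i j}

lemma irred_case {w : Matrix X X G.A} (hw : G.IsUnitaryCorep w) (hirr : G.IsIrred w) (x y : X) :
    w x y ∈ coefSet w := by
  let e : X ≃ Fin (Fintype.card X) := Fintype.equivFin X
  have hin : ∀ V : Matrix (Fin (Fintype.card X)) (Fin (Fintype.card X)) ℂ,
      G.Intertwines (w.submatrix e.symm e.symm) (w.submatrix e.symm e.symm) V →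
      G.Intertwines w w (V.submatrix e e) := by
    intro V hV
    unfold Intertwines at hV ⊢
    ext x y
    have := congrFun (congrFun hV (e x)) (e y)
    rw [Matrix.mul_apply, Matrix.mul_apply, ← Equiv.sum_comp e, ← Equiv.sum_comp e] at this
    rw [Matrix.mul_apply, Matrix.mul_apply]
    simpa [scal] using this
  let r : G.IrrCorep :=
    { dim := Fintype.card X
      mat := w.submatrix e.symm e.symm
      isCorep := hw.submatrix e.symm
      isIrred := by
        have := hirr.1
        refine ⟨⟨e (Classical.arbitrary X)⟩, fun V hV => ?_⟩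
        obtain ⟨c, hc⟩ := hirr.2 _ (hin V hV)
        refine ⟨c, ?_⟩
        ext i j
        have := congrFun (congrFun hc (e.symm i)) (e.symm j)
        simpa [Matrix.one_apply] using this }
  refine ⟨r, ⟨(1 : Matrix X X ℂ).submatrix id e.symm, ?_, ?_⟩, e x, e y, ?_⟩
  · ext i j
    rw [Matrix.mul_apply, ← Equiv.sum_comp e.symm]
    simp [Matrix.one_apply, eq_comm]
  · unfold Intertwines
    ext x j
    rw [Matrix.mul_apply, Matrix.mul_apply, Finset.sum_eq_single (e.symm j),
      Finset.sum_eq_single (e x)]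
    · simp [scal, r, Matrix.one_apply]
    · intro i _ hi
      have : x ≠ e.symm i := fun h => hi (by rw [h]; simp)
      simp [scal, Matrix.one_apply, this]
    · simp
    · intro y _ hy
      simp [scal, Matrix.one_apply, hy]
    · simp
  · simp [r]

end

/-- complete reducibility, in the form needed -/
theorem mem_span_coefSet (n : ℕ) : ∀ {X : Type} [Fintype X] [DecidableEq X], Fintype.card X = n →
    ∀ {w : Matrix X X G.A}, G.IsUnitaryCorep w → ∀ x y,
      w x y ∈ Submodule.span ℂ (coefSet w) := by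
  induction n using Nat.strong_induction_on with
  | _ n ih =>
  intro X _ _ hn w hw x y
  by_cases hirr : G.IsIrred w
  · exact Submodule.subset_span (irred_case hw hirr x y)
  obtain ⟨H, hH, hint, hns⟩ := exists_hermitian hw ⟨x⟩ hirr
  obtain ⟨U, d, hU, hU', hHU⟩ := exists_diag hH
  have e1 : G.scal Uᴴ * G.scal U = 1 := by rw [← scal_mul, hU, scal_one]
  have e2 : G.scal U * G.scal Uᴴ = 1 := by rw [← scal_mul, hU', scal_one]
  set w' := G.scal Uᴴ * w * G.scal U with hw'def
  have hw' : G.IsUnitaryCorep w' := conj_corep hw hU hU'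
  have hcont : G.Contained w' w := by
    refine ⟨U, hU, ?_⟩
    unfold Intertwines
    rw [hw'def, ← Matrix.mul_assoc, ← Matrix.mul_assoc, e2, Matrix.one_mul]
  have hww' : w = G.scal U * w' * G.scal Uᴴ := by
    rw [hw'def]
    calc w = (G.scal U * G.scal Uᴴ) * w * (G.scal U * G.scal Uᴴ) := by
          rw [e2, Matrix.one_mul, Matrix.mul_one]
      _ = _ := by simp only [Matrix.mul_assoc]
  -- w' commutes with the diagonal matrix
  have hD : w' * G.scal (diagonal fun x => (d x : ℂ)) =
      G.scal (diagonal fun x => (d x : ℂ)) * w' := by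
    have h1 : diagonal (fun x => (d x : ℂ)) = Uᴴ * H * U := by
      rw [hHU]
      calc diagonal (fun x => (d x : ℂ)) = (Uᴴ * U) * diagonal (fun x => (d x : ℂ)) * (Uᴴ * U) := by
            rw [hU, Matrix.one_mul, Matrix.mul_one]
        _ = _ := by simp only [Matrix.mul_assoc]
    rw [h1, scal_mul, scal_mul, hw'def]
    unfold Intertwines at hint
    calc G.scal Uᴴ * w * G.scal U * (G.scal Uᴴ * G.scal H * G.scal U)
        = G.scal Uᴴ * (w * ((G.scal U * G.scal Uᴴ) * G.scal H)) * G.scal U := by
          simp only [Matrix.mul_assoc]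
      _ = G.scal Uᴴ * (G.scal H * ((G.scal U * G.scal Uᴴ) * w)) * G.scal U := by
          rw [e2, Matrix.one_mul, Matrix.one_mul, hint]
      _ = _ := by simp only [Matrix.mul_assoc]
  have hblock : ∀ p q, d p ≠ d q → w' p q = 0 := by
    intro p q hpq
    have h1 := congrFun (congrFun hD p) q
    rw [Matrix.mul_apply, Matrix.mul_apply, Finset.sum_eq_single q, Finset.sum_eq_single p] at h1
    · simp only [scal, Matrix.map_apply, diagonal_apply_eq] at h1
      rw [← Algebra.commutes, ← Algebra.smul_def, ← Algebra.smul_def] at h1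
      have h2 : ((d q : ℂ) - d p) • w' p q = 0 := by rw [sub_smul, h1, sub_self]
      rcases smul_eq_zero.1 h2 with h3 | h3
      · exfalso
        apply hpq
        have : (d q : ℂ) = d p := sub_eq_zero.1 h3
        exact_mod_cast this.symm
      · exact h3
    · intro z _ hz
      simp [scal, diagonal_apply_ne _ (Ne.symm hz)]
    · simp
    · intro z _ hz
      simp [scal, diagonal_apply_ne _ hz]
    · simp
  have hd : ∃ p q, d p ≠ d q := by
    by_contra hcon
    push Not at hcon
    apply hns
    refine ⟨d x, ?_⟩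
    have : (diagonal fun z => (d z : ℂ)) = (d x : ℂ) • (1 : Matrix X X ℂ) := by
      ext p q
      by_cases hpq : p = q
      · subst hpq
        simp [hcon p x]
      · simp [hpq]
    rw [hHU, this, Matrix.mul_smul, Matrix.smul_mul, Matrix.mul_one, hU']
  obtain ⟨p0, q0, hpq0⟩ := hd
  -- the two blocks
  have hb1 := block_corep hw' (fun z => d z = d p0) (fun a b ha hb =>
    ⟨hblock a b (by rw [ha]; exact fun h => hb h.symm),
      hblock b a (by rw [ha]; exact hb)⟩)
  have hb2 := block_corep hw' (fun z => d z ≠ d p0) (fun a b ha hb =>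
    ⟨hblock a b (by rw [not_not.1 hb]; exact ha),
      hblock b a (by rw [not_not.1 hb]; exact fun h => ha h.symm)⟩)
  have hc1 : Fintype.card {z // d z = d p0} < n := by
    rw [← hn]
    exact Fintype.card_subtype_lt (x := q0) (fun h => hpq0 h.symm)
  have hc2 : Fintype.card {z // d z ≠ d p0} < n := by
    rw [← hn]
    exact Fintype.card_subtype_lt (x := p0) (fun h => h rfl)
  have hmono : ∀ {Y : Type} [Fintype Y] [DecidableEq Y] {s : Matrix Y Y G.A}, G.Contained s w →
      coefSet s ⊆ coefSet w := by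
    rintro Y _ _ s hs z ⟨r, hr, i, j, rfl⟩
    exact ⟨r, contained_trans hr hs, i, j, rfl⟩
  have hmem : ∀ a b, w' a b ∈ Submodule.span ℂ (coefSet w) := by
    intro a b
    by_cases ha : d a = d p0
    · by_cases hb : d b = d p0
      · have := ih _ hc1 rfl hb1.1 ⟨a, ha⟩ ⟨b, hb⟩
        exact Submodule.span_mono (hmono (contained_trans hb1.2 hcont)) this
      · rw [hblock a b (by rw [ha]; exact fun h => hb h.symm)]
        exact Submodule.zero_mem _
    · by_cases hb : d b = d p0
      · rw [hblock a b (by rw [hb]; exact ha)]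
        exact Submodule.zero_mem _
      · have := ih _ hc2 rfl hb2.1 ⟨a, ha⟩ ⟨b, hb⟩
        exact Submodule.span_mono (hmono (contained_trans hb2.2 hcont)) this
  have h6 : w x y = (G.scal U * w' * G.scal Uᴴ) x y := congrFun (congrFun hww' x) y
  rw [h6, Matrix.mul_apply]
  refine Submodule.sum_mem _ fun j _ => ?_
  rw [Matrix.mul_apply, Finset.sum_mul]
  refine Submodule.sum_mem _ fun i _ => ?_
  have h5 : G.scal U x i * w' i j * G.scal Uᴴ j y = (U x i * Uᴴ j y) • w' i j := by
    simp only [scal, Matrix.map_apply]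
    rw [mul_assoc, ← Algebra.commutes, ← mul_assoc, ← map_mul, ← Algebra.smul_def]
  rw [h5]
  exact Submodule.smul_mem _ _ (hmem i j)

end ClosedSubgroup

end

end Pool.Agent.Helper93.QG
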