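import Mathlib
import Pool.Agent.Helper93.QG.Decomp

/-! A lower bound for `b_k`. -/

set_option linter.unusedSimpArgs false
set_option linter.unusedVariables false
set_option linter.unusedSectionVars false

open scoped TensorProduct ENNReal
open Matrix

namespace Pool.Agent.Helper93.QG

noncomputable section

lemma card_le_of_span {V ι J : Type*} [AddCommGroup V] [Module ℂ V] [Fintype ι] [Fintype J]
    {v : ι → V} (hv : LinearIndependent ℂ v) (f : J → V)
    (h : ∀ i, v i ∈ Submodule.span ℂ (Set.range f)) : Fintype.card ι ≤ Fintype.card J := by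
  have h1 : Module.finrank ℂ (Submodule.span ℂ (Set.range v)) = Fintype.card ι :=
    finrank_span_eq_card hv
  have h2 : Module.finrank ℂ (Submodule.span ℂ (Set.range f)) ≤ Fintype.card J :=
    finrank_range_le_card f
  have h3 : Submodule.span ℂ (Set.range v) ≤ Submodule.span ℂ (Set.range f) := by
    rw [Submodule.span_le]
    rintro _ ⟨i, rfl⟩
    exact h i
  have : FiniteDimensional ℂ (Submodule.span ℂ (Set.range f)) :=
    FiniteDimensional.span_of_finite ℂ (Set.finite_range f)
  have h4 := Submodule.finrank_mono h3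
  omega

namespace ClosedSubgroup

variable {N : ℕ} {G : ClosedSubgroup N}

lemma Irr.dim_mk (r : G.IrrCorep) : Irr.dim (Quotient.mk G.irrSetoid r : G.Irr) = r.dim := rfl

lemma coef_equiv {r s : G.IrrCorep} (h : G.Equivalent r.mat s.mat) (i j : Fin r.dim) :
    r.mat i j ∈ Submodule.span ℂ (Set.range fun p : Fin s.dim × Fin s.dim => s.mat p.1 p.2) := by
  obtain ⟨V, h1, h2, h3⟩ := h
  have e1 : G.scal Vᴴ * G.scal V = 1 := by rw [← scal_mul, h1, scal_one]
  have e : r.mat = G.scal Vᴴ * s.mat * G.scal V := by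
    unfold Intertwines at h3
    rw [Matrix.mul_assoc, h3, ← Matrix.mul_assoc, e1, Matrix.one_mul]
  have h6 : r.mat i j = (G.scal Vᴴ * s.mat * G.scal V) i j := congrFun (congrFun e i) j
  rw [h6, Matrix.mul_apply]
  refine Submodule.sum_mem _ fun l _ => ?_
  rw [Matrix.mul_apply, Finset.sum_mul]
  refine Submodule.sum_mem _ fun k _ => ?_
  have h5 : G.scal Vᴴ i k * s.mat k l * G.scal V l j = (Vᴴ i k * V l j) • s.mat k l := by
    simp only [scal, Matrix.map_apply]
    rw [mul_assoc, ← Algebra.commutes, ← mul_assoc, ← map_mul, ← Algebra.smul_def]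
  rw [h5]
  exact Submodule.smul_mem _ _ (Submodule.subset_span ⟨(k, l), rfl⟩)

theorem card_le_b (k : ℕ) {ι : Type*} [Fintype ι] {v : ι → G.A} (hv : LinearIndependent ℂ v)
    (hmem : ∀ i, v i ∈ Submodule.span ℂ (Set.range fun p : (Fin k → Unit ⊕ (Fin N ⊕ Fin N)) ×
      (Fin k → Unit ⊕ (Fin N ⊕ Fin N)) => G.tensorPow G.oneUU k p.1 p.2)) :
    (Fintype.card ι : ℝ≥0∞) ≤ G.b k := by
  classical
  by_cases htop : G.b k = ⊤
  · rw [htop]; exact le_top
  -- finitely many classes
  have hpos : ∀ x : G.Irr, 1 ≤ x.dim := by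
    intro x
    obtain ⟨r, rfl⟩ := Quotient.exists_rep x
    have := r.isIrred.1
    exact Fin.pos_iff_nonempty.2 this
  have hfin : Finite {x : G.Irr // x.length ≤ k} := by
    have h1 := ENNReal.finite_const_le_of_tsum_ne_top htop (ε := 1) one_ne_zero
    have h2 : {i : {x : G.Irr // x.length ≤ k} | (1 : ℝ≥0∞) ≤ ((i.1.dim : ℝ≥0∞)) ^ 2} =
        Set.univ := by
      ext x
      simp only [Set.mem_ofPred_eq, Set.mem_univ, iff_true]
      have : (1 : ℝ≥0∞) ≤ (x.1.dim : ℝ≥0∞) := by exact_mod_cast hpos x.1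
      exact one_le_pow₀ this
    rw [h2] at h1
    exact Set.finite_univ_iff.1 h1
  have : Fintype {x : G.Irr // x.length ≤ k} := Fintype.ofFinite _
  let S := {x : G.Irr // x.length ≤ k}
  let rep : S → G.IrrCorep := fun x => Quotient.out x.1
  let f : (Σ x : S, Fin (rep x).dim × Fin (rep x).dim) → G.A := fun p =>
    (rep p.1).mat p.2.1 p.2.2
  have hcoef : ∀ x y, G.tensorPow G.oneUU k x y ∈ Submodule.span ℂ (Set.range f) := by
    intro x y
    have h1 := mem_span_coefSet _ rfl (oneUU_corep (G := G) |>.tensorPow k) x y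
    refine (Submodule.span_le.2 ?_) h1
    rintro z ⟨r, hr, i, j, rfl⟩
    let c : G.Irr := Quotient.mk G.irrSetoid r
    have hc : c.length ≤ k := iInf₂_le k ⟨r, rfl, hr⟩
    have heq : G.Equivalent r.mat (rep ⟨c, hc⟩).mat := by
      have h2 : (Quotient.mk G.irrSetoid r : G.Irr) = Quotient.mk G.irrSetoid (rep ⟨c, hc⟩) :=
        (Quotient.out_eq c).symm
      exact Quotient.exact h2
    have h3 := coef_equiv heq i j
    refine (Submodule.span_mono ?_) h3
    rintro _ ⟨p, rfl⟩
    exact ⟨⟨⟨c, hc⟩, p⟩, rfl⟩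
  have hcard := card_le_of_span hv f (fun i => (Submodule.span_le.2 (by
    rintro _ ⟨p, rfl⟩; exact hcoef _ _)) (hmem i))
  have hb : G.b k = (Fintype.card (Σ x : S, Fin (rep x).dim × Fin (rep x).dim) : ℝ≥0∞) := by
    rw [b, tsum_fintype, Fintype.card_sigma, Nat.cast_sum]
    refine Finset.sum_congr rfl fun x _ => ?_
    rw [Fintype.card_prod, Fintype.card_fin, Nat.cast_mul, _root_.sq]
    have : x.1.dim = (rep x).dim := by
      conv_lhs => rw [← Quotient.out_eq x.1]
      rfl
    rw [this]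
  rw [hb]
  exact_mod_cast hcard

end ClosedSubgroup

end

end Pool.Agent.Helper93.QG
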