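import Mathlib
import Pool.Agent.Helper93.QG.Cstar

/-! Comultiplication, counit and antipode of the example. -/

set_option linter.unusedSectionVars false
set_option linter.unusedVariables false
set_option linter.unusedSimpArgs false

open scoped Matrix.Norms.L2Operator ENNReal TensorProduct
open Matrix

noncomputable section

namespace Pool.Agent.Helper93.QG

lemma gA_mem : gA ∈ SA := StarSubalgebra.le_topologicalClosure _
  (StarAlgebra.subset_adjoin ℂ _ (by simp))
lemma gB_mem : gB ∈ SA := StarSubalgebra.le_topologicalClosure _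
  (StarAlgebra.subset_adjoin ℂ _ (by simp))
lemma gC_mem : gC ∈ SA := StarSubalgebra.le_topologicalClosure _
  (StarAlgebra.subset_adjoin ℂ _ (by simp))

/-- generator -/
def xa : AA := ⟨gA, gA_mem⟩
/-- generator -/
def xb : AA := ⟨gB, gB_mem⟩
/-- generator -/
def xc : AA := ⟨gC, gC_mem⟩

lemma xTrip : Trip xa xb xc where
  aa := Subtype.ext gTrip.aa
  bb := Subtype.ext gTrip.bb
  cc := Subtype.ext gTrip.cc
  ab := Subtype.ext gTrip.ab

lemma star_xa : star xa = xa := Subtype.ext star_gA
lemma star_xb : star xb = xb := Subtype.ext star_gB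
lemma star_xc : star xc = xc := Subtype.ext star_gC

/-- `SA` is the smallest closed star subalgebra containing the generators -/
lemma SA_le {S : StarSubalgebra ℂ PP} (hS : IsClosed (S : Set PP)) (ha : gA ∈ S) (hb : gB ∈ S)
    (hc : gC ∈ S) : SA ≤ S := by
  refine StarSubalgebra.topologicalClosure_minimal ?_ hS
  rw [StarAlgebra.adjoin_le_iff]
  rintro x (rfl | rfl | rfl)
  · exact ha
  · exact hb
  · exact hc

lemma two_leg : Two (leg1 xa) (leg1 xb) (leg1 xc) (leg2 xa) (leg2 xb) (leg2 xc) where
  t1 := xTrip.map leg1.toAlgHom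
  t2 := xTrip.map leg2.toAlgHom
  aa := ((leg_comm xa xa).eq).symm
  ab := ((leg_comm xb xa).eq).symm
  ac := ((leg_comm xc xa).eq).symm
  ba := ((leg_comm xa xb).eq).symm
  bb := ((leg_comm xb xb).eq).symm
  bc := ((leg_comm xc xb).eq).symm
  ca := ((leg_comm xa xc).eq).symm
  cb := ((leg_comm xb xc).eq).symm
  cc := ((leg_comm xc xc).eq).symm

/-- image of `c` -/
def dC : PP2 := Om (leg1 xa) (leg2 xb) * (leg1 xc * leg2 xc) * Om (leg1 xa) (leg2 xb)

lemma exists_comul : ∃ φ : PP →⋆ₐ[ℂ] PP2, φ gA = leg1 xa * leg2 xa ∧ φ gB = leg1 xb * leg2 xb ∧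
    φ gC = dC := by
  have tr := two_leg.trip
  have sOm : star (Om (leg1 xa) (leg2 xb)) = Om (leg1 xa) (leg2 xb) := by
    apply star_Om
    · rw [← map_star, star_xa]
    · rw [← map_star, star_xb]
    · exact (leg_comm xa xb).eq
  have h : ∀ p : Idx × Idx, ∃ φ : PP →⋆ₐ[ℂ] Blk2 p, φ gA = evLp p (leg1 xa * leg2 xa) ∧
      φ gB = evLp p (leg1 xb * leg2 xb) ∧ φ gC = evLp p dC := by
    intro p
    apply exists_ev
    · exact tr.map (evLp (B := Blk2) p).toAlgHom
    · rw [← map_star, star_mul, ← map_star, ← map_star, star_xa, (leg_comm xa xa).eq]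
    · rw [← map_star, star_mul, ← map_star, ← map_star, star_xb, (leg_comm xb xb).eq]
    · rw [← map_star, dC, star_mul, star_mul, star_mul, sOm, ← map_star, ← map_star, star_xc,
        (leg_comm xc xc).eq]
      simp only [mul_assoc]
  choose φ h1 h2 h3 using h
  refine ⟨liftLp φ, ?_, ?_, ?_⟩
  · ext1; funext p; exact h1 p
  · ext1; funext p; exact h2 p
  · ext1; funext p; exact h3 p

/-- comultiplication on the big product -/
def Del0 : PP →⋆ₐ[ℂ] PP2 := exists_comul.choose

lemma Del0_gA : Del0 gA = leg1 xa * leg2 xa := exists_comul.choose_spec.1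
lemma Del0_gB : Del0 gB = leg1 xb * leg2 xb := exists_comul.choose_spec.2.1
lemma Del0_gC : Del0 gC = dC := exists_comul.choose_spec.2.2

lemma leg_mem (x y : AA) : leg1 x * leg2 y ∈ ST :=
  StarSubalgebra.le_topologicalClosure _ ⟨x ⊗ₜ y, iota0_tmul x y⟩

lemma leg1_mem (x : AA) : leg1 x ∈ ST := by
  have := leg_mem x 1
  rwa [map_one, mul_one] at this

lemma leg2_mem (x : AA) : leg2 x ∈ ST := by
  have := leg_mem 1 x
  rwa [map_one, one_mul] at this

lemma pr_mem {D : Type*} [Ring D] [StarRing D] [Algebra ℂ D] [StarModule ℂ D]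
    {S : StarSubalgebra ℂ D} {a : D} (h : a ∈ S) (s : Bool) : pr a s ∈ S := by
  unfold pr
  apply SMulMemClass.smul_mem
  cases s
  · exact add_mem (one_mem _) h
  · exact add_mem (one_mem _) (neg_mem h)

lemma Om_mem {D : Type*} [Ring D] [StarRing D] [Algebra ℂ D] [StarModule ℂ D]
    {S : StarSubalgebra ℂ D} {a b : D} (h : a ∈ S) (hb : b ∈ S) : Om a b ∈ S :=
  add_mem (pr_mem h _) (mul_mem (pr_mem h _) hb)

lemma dC_mem : dC ∈ ST :=
  mul_mem (mul_mem (Om_mem (leg1_mem _) (leg2_mem _)) (leg_mem _ _))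
    (Om_mem (leg1_mem _) (leg2_mem _))

lemma continuous_starHom {D E : Type*} [CStarAlgebra D] [CStarAlgebra E] (φ : D →⋆ₐ[ℂ] E) :
    Continuous φ := by
  refine AddMonoidHomClass.continuous_of_bound φ 1 fun x => ?_
  rw [one_mul]
  exact NonUnitalStarAlgHom.norm_apply_le φ x

lemma Del0_mem (x : AA) : Del0 (x : PP) ∈ ST := by
  have h : SA ≤ ST.comap Del0 := by
    apply SA_le
    · exact (StarSubalgebra.isClosed_topologicalClosure _).preimage (continuous_starHom Del0)
    · show Del0 gA ∈ ST
      rw [Del0_gA]; exact leg_mem _ _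
    · show Del0 gB ∈ ST
      rw [Del0_gB]; exact leg_mem _ _
    · show Del0 gC ∈ ST
      rw [Del0_gC]; exact dC_mem
  exact h x.2

/-- comultiplication of the example -/
def Del : AA →⋆ₐ[ℂ] TT := (Del0.comp SA.subtype).codRestrict ST Del0_mem

lemma Del_coe (x : AA) : ((Del x : TT) : PP2) = Del0 (x : PP) := rfl

lemma Del_um (x y : Bool × Bool) :
    Del (um xa xb xc x y) = ∑ z, iota (um xa xb xc x z ⊗ₜ[ℂ] um xa xb xc z y) := by
  apply Subtype.ext
  rw [AddSubmonoidClass.coe_finsetSum]
  have e1 : ((Del (um xa xb xc x y) : TT) : PP2) = um (Del0 gA) (Del0 gB) (Del0 gC) x y := by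
    rw [Del_coe]
    have h1 := map_um (Del0.toAlgHom.comp SA.subtype.toAlgHom) xa xb xc x y
    exact h1
  rw [e1, Del0_gA, Del0_gB, Del0_gC, dC, um_comul two_leg]
  refine Finset.sum_congr rfl fun z _ => ?_
  rw [iota_coe, iota0_tmul]
  have h1 := map_um leg1.toAlgHom xa xb xc x z
  have h2 := map_um leg2.toAlgHom xa xb xc z y
  exact (congrArg₂ (· * ·) h1 h2).symm

/-- counit -/
lemma exists_counit : ∃ φ : PP →⋆ₐ[ℂ] ℂ, φ gA = 1 ∧ φ gB = 1 ∧ φ gC = 1 := by
  obtain ⟨φ, h1, h2, h3⟩ := exists_ev (X := Unit) (a := 1) (b := 1) (c := 1)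
    ⟨by simp, by simp, by simp, by simp⟩ (by simp) (by simp) (by simp)
  let ψ : Matrix Unit Unit ℂ →⋆ₐ[ℂ] ℂ :=
    { toFun := fun M => M () ()
      map_one' := by simp
      map_mul' := fun M N => by simp [Matrix.mul_apply]
      map_zero' := rfl
      map_add' := fun M N => rfl
      commutes' := fun r => by simp [Algebra.algebraMap_eq_smul_one]
      map_star' := fun M => rfl }
  refine ⟨ψ.comp φ, ?_, ?_, ?_⟩
  · show ψ (φ gA) = 1
    rw [h1, map_one]
  · show ψ (φ gB) = 1
    rw [h2, map_one]
  · show ψ (φ gC) = 1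
    rw [h3, map_one]

/-- counit of the example -/
def eps : AA →⋆ₐ[ℂ] ℂ := exists_counit.choose.comp SA.subtype

lemma eps_um (x y : Bool × Bool) : eps (um xa xb xc x y) = if x = y then 1 else 0 := by
  have h1 := map_um eps.toAlgHom xa xb xc x y
  have ha : eps.toAlgHom xa = 1 := exists_counit.choose_spec.1
  have hb : eps.toAlgHom xb = 1 := exists_counit.choose_spec.2.1
  have hc : eps.toAlgHom xc = 1 := exists_counit.choose_spec.2.2
  rw [ha, hb, hc] at h1
  refine h1.trans ?_
  rcases x with ⟨x1, x2⟩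
  rcases y with ⟨y1, y2⟩
  cases x1 <;> cases x2 <;> cases y1 <;> cases y2 <;> norm_num [um, Lm, Mm, pr]

/-- transposition -/
def trHom {X : Type} [Fintype X] [DecidableEq X] :
    Matrix X X ℂ →⋆ₐ[ℂ] (Matrix X X ℂ)ᵐᵒᵖ where
  toFun M := MulOpposite.op Mᵀ
  map_one' := by rw [Matrix.transpose_one]; rfl
  map_mul' M N := by rw [Matrix.transpose_mul]; rfl
  map_zero' := rfl
  map_add' M N := rfl
  commutes' r := by
    apply MulOpposite.unop_injective
    change (algebraMap ℂ (Matrix X X ℂ) r)ᵀ = algebraMap ℂ (Matrix X X ℂ) r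
    rw [Algebra.algebraMap_eq_smul_one, Matrix.transpose_smul, Matrix.transpose_one]
  map_star' M := rfl

lemma norm_transpose_le {X : Type} [Fintype X] [DecidableEq X] (M : Matrix X X ℂ) :
    ‖Mᵀ‖ ≤ ‖M‖ := NonUnitalStarAlgHom.norm_apply_le (trHom (X := X)) M

/-- the transposed family -/
def trLp (φ : ∀ i : Idx, PP →⋆ₐ[ℂ] Blk i) : PP →⋆ₐ[ℂ] PPᵐᵒᵖ where
  toFun x := MulOpposite.op ⟨fun i => (φ i x)ᵀ, memℓp_infty ⟨‖x‖, by
    rintro _ ⟨j, rfl⟩
    exact (norm_transpose_le _).trans (NonUnitalStarAlgHom.norm_apply_le (φ j) x)⟩⟩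
  map_one' := by
    apply MulOpposite.unop_injective
    ext1; funext i
    exact (congrArg Matrix.transpose (map_one (φ i))).trans Matrix.transpose_one
  map_mul' x y := by
    apply MulOpposite.unop_injective
    ext1; funext i
    exact (congrArg Matrix.transpose (map_mul (φ i) x y)).trans (Matrix.transpose_mul _ _)
  map_zero' := by
    apply MulOpposite.unop_injective
    ext1; funext i
    exact (congrArg Matrix.transpose (map_zero (φ i))).trans Matrix.transpose_zero
  map_add' x y := by
    apply MulOpposite.unop_injective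
    ext1; funext i
    exact (congrArg Matrix.transpose (map_add (φ i) x y)).trans (Matrix.transpose_add _ _)
  commutes' r := by
    apply MulOpposite.unop_injective
    ext1; funext i
    change (φ i (algebraMap ℂ PP r))ᵀ = (algebraMap ℂ PP r) i
    rw [Algebra.algebraMap_eq_smul_one, map_smul, map_one, Matrix.transpose_smul,
      Matrix.transpose_one]
    rfl
  map_star' x := by
    apply MulOpposite.unop_injective
    ext1; funext i
    exact congrArg Matrix.transpose (map_star (φ i) x)

lemma trLp_apply (φ : ∀ i : Idx, PP →⋆ₐ[ℂ] Blk i) (x : PP) (i : Idx) :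
    (MulOpposite.unop (trLp φ x) : PP) i = (φ i x)ᵀ := rfl

/-- `v c v` -/
def vcv : PP := Om gA gB * gC * Om gA gB

lemma vcv_trip : Trip gA gB vcv where
  aa := gTrip.aa
  bb := gTrip.bb
  ab := gTrip.ab
  cc := by
    have h1 := Om_sq gTrip.aa gTrip.bb gTrip.ab
    calc vcv * vcv = Om gA gB * (gC * ((Om gA gB * Om gA gB) * (gC * Om gA gB))) := by
          simp only [vcv, mul_assoc]
      _ = Om gA gB * ((gC * gC) * Om gA gB) := by
          rw [h1, one_mul]; simp only [mul_assoc]
      _ = 1 := by rw [gTrip.cc, one_mul, h1]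

lemma star_vcv : star vcv = vcv := by
  have h := star_Om star_gA star_gB gTrip.ab
  simp only [vcv, star_mul, h, star_gC, mul_assoc]

lemma trip_transpose {X : Type} [Fintype X] [DecidableEq X] {a b c : Matrix X X ℂ}
    (t : Trip a b c) : Trip aᵀ bᵀ cᵀ where
  aa := by rw [← Matrix.transpose_mul, t.aa, Matrix.transpose_one]
  bb := by rw [← Matrix.transpose_mul, t.bb, Matrix.transpose_one]
  cc := by rw [← Matrix.transpose_mul, t.cc, Matrix.transpose_one]
  ab := by rw [← Matrix.transpose_mul, ← Matrix.transpose_mul, t.ab]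

lemma star_transpose {X : Type} [Fintype X] [DecidableEq X] {a : Matrix X X ℂ}
    (h : star a = a) : star aᵀ = aᵀ := congrArg Matrix.transpose h

lemma exists_antipode : ∃ φ : PP →⋆ₐ[ℂ] PPᵐᵒᵖ, φ gA = MulOpposite.op gA ∧
    φ gB = MulOpposite.op gB ∧ φ gC = MulOpposite.op vcv := by
  have h : ∀ i : Idx, ∃ φ : PP →⋆ₐ[ℂ] Blk i, φ gA = (evLp i gA)ᵀ ∧
      φ gB = (evLp i gB)ᵀ ∧ φ gC = (evLp i vcv)ᵀ := by
    intro i
    have t := vcv_trip.map (evLp (B := Blk) i).toAlgHom
    apply exists_ev (trip_transpose t)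
    · exact star_transpose ((map_star (evLp (B := Blk) i) gA).symm.trans (by rw [star_gA]; rfl))
    · exact star_transpose ((map_star (evLp (B := Blk) i) gB).symm.trans (by rw [star_gB]; rfl))
    · exact star_transpose ((map_star (evLp (B := Blk) i) vcv).symm.trans (by rw [star_vcv]; rfl))
  choose φ h1 h2 h3 using h
  refine ⟨trLp φ, ?_, ?_, ?_⟩
  · apply MulOpposite.unop_injective
    ext1; funext i
    rw [trLp_apply, h1 i, Matrix.transpose_transpose]
    rfl
  · apply MulOpposite.unop_injective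
    ext1; funext i
    rw [trLp_apply, h2 i, Matrix.transpose_transpose]
    rfl
  · apply MulOpposite.unop_injective
    ext1; funext i
    rw [trLp_apply, h3 i, Matrix.transpose_transpose]
    rfl

/-- antipode on the big product -/
def Ant0 : PP →⋆ₐ[ℂ] PPᵐᵒᵖ := exists_antipode.choose

lemma Ant0_gA : Ant0 gA = MulOpposite.op gA := exists_antipode.choose_spec.1
lemma Ant0_gB : Ant0 gB = MulOpposite.op gB := exists_antipode.choose_spec.2.1
lemma Ant0_gC : Ant0 gC = MulOpposite.op vcv := exists_antipode.choose_spec.2.2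

lemma vcv_mem : vcv ∈ SA := mul_mem (mul_mem (Om_mem gA_mem gB_mem) gC_mem) (Om_mem gA_mem gB_mem)

lemma Ant0_mem (x : AA) : MulOpposite.unop (Ant0 (x : PP)) ∈ SA := by
  have h : SA ≤ (StarSubalgebra.mk (Subalgebra.mk (Subsemiring.mk (Submonoid.mk (Subsemigroup.mk
      {x : PP | MulOpposite.unop (Ant0 x) ∈ SA} (by
        intro a b ha hb
        change MulOpposite.unop (Ant0 (a * b)) ∈ SA
        rw [map_mul, MulOpposite.unop_mul]
        exact mul_mem hb ha)) (by
        change MulOpposite.unop (Ant0 1) ∈ SA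
        rw [map_one, MulOpposite.unop_one]
        exact one_mem _)) (by
        intro a b ha hb
        change MulOpposite.unop (Ant0 (a + b)) ∈ SA
        rw [map_add, MulOpposite.unop_add]
        exact add_mem ha hb) (by
        change MulOpposite.unop (Ant0 0) ∈ SA
        rw [map_zero, MulOpposite.unop_zero]
        exact zero_mem _)) (by
        intro r
        change MulOpposite.unop (Ant0 (algebraMap ℂ PP r)) ∈ SA
        rw [Algebra.algebraMap_eq_smul_one, map_smul, map_one, MulOpposite.unop_smul,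
          MulOpposite.unop_one]
        exact SMulMemClass.smul_mem r (one_mem _))) (by
        intro a ha
        change MulOpposite.unop (Ant0 (star a)) ∈ SA
        rw [map_star, MulOpposite.unop_star]
        exact star_mem ha) : StarSubalgebra ℂ PP) := by
    apply SA_le
    · exact (StarSubalgebra.isClosed_topologicalClosure _).preimage
        (MulOpposite.continuous_unop.comp (continuous_starHom Ant0))
    · change MulOpposite.unop (Ant0 gA) ∈ SA
      rw [Ant0_gA]; exact gA_mem
    · change MulOpposite.unop (Ant0 gB) ∈ SA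
      rw [Ant0_gB]; exact gB_mem
    · change MulOpposite.unop (Ant0 gC) ∈ SA
      rw [Ant0_gC]; exact vcv_mem
  exact h x.2

/-- antipode of the example -/
def Ant : AA →⋆ₐ[ℂ] AAᵐᵒᵖ where
  toFun x := MulOpposite.op ⟨MulOpposite.unop (Ant0 (x : PP)), Ant0_mem x⟩
  map_one' := by
    apply MulOpposite.unop_injective
    apply Subtype.ext
    exact congrArg MulOpposite.unop (map_one Ant0)
  map_mul' x y := by
    apply MulOpposite.unop_injective
    apply Subtype.ext
    exact congrArg MulOpposite.unop (map_mul Ant0 (x : PP) (y : PP))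
  map_zero' := by
    apply MulOpposite.unop_injective
    apply Subtype.ext
    exact congrArg MulOpposite.unop (map_zero Ant0)
  map_add' x y := by
    apply MulOpposite.unop_injective
    apply Subtype.ext
    exact congrArg MulOpposite.unop (map_add Ant0 (x : PP) (y : PP))
  commutes' r := by
    apply MulOpposite.unop_injective
    apply Subtype.ext
    exact congrArg MulOpposite.unop (Ant0.commutes' r)
  map_star' x := by
    apply MulOpposite.unop_injective
    apply Subtype.ext
    exact congrArg MulOpposite.unop (map_star Ant0 (x : PP))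

lemma Ant_xa : Ant xa = MulOpposite.op xa := by
  apply MulOpposite.unop_injective
  apply Subtype.ext
  exact congrArg MulOpposite.unop Ant0_gA

lemma Ant_xb : Ant xb = MulOpposite.op xb := by
  apply MulOpposite.unop_injective
  apply Subtype.ext
  exact congrArg MulOpposite.unop Ant0_gB

lemma Ant_xc : Ant xc = MulOpposite.op (Om xa xb * xc * Om xa xb) := by
  apply MulOpposite.unop_injective
  apply Subtype.ext
  refine (congrArg MulOpposite.unop Ant0_gC).trans ?_
  have h := map_Om SA.subtype.toAlgHom xa xb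
  change vcv = (Om xa xb : AA) * gC * (Om xa xb : AA)
  have h' : ((Om xa xb : AA) : PP) = Om gA gB := h
  rw [h']
  rfl

lemma Ant_pr (s : Bool) : Ant (pr xa s) = MulOpposite.op (pr xa s) := by
  have h : Ant xa = MulOpposite.op xa := Ant_xa
  cases s <;> simp only [pr, cond_true, cond_false, map_smul, map_add, map_one, map_neg, h] <;> rfl

lemma Ant_Lm (i k : Bool) : Ant (Lm xa xb i k) = MulOpposite.op (Lm xa xb i k) := by
  have h1 := pr_comm xTrip.ab false
  have h2 := pr_comm xTrip.ab true
  cases i <;> cases k <;> simp [Lm, Ant_pr, Ant_xb, ← MulOpposite.op_mul, h1, h2]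

lemma Ant_Mm (i k : Bool) : Ant (Mm xa xb i k) = MulOpposite.op (Mm xa xb i k) := by
  have h1 := pr_comm xTrip.ab false
  have h2 := pr_comm xTrip.ab true
  cases i <;> cases k <;> simp [Mm, Ant_pr, Ant_xb, ← MulOpposite.op_mul, h1, h2]

lemma Ant_um (x y : Bool × Bool) :
    Ant (um xa xb xc x y) = MulOpposite.op (star (um xa xb xc y x)) := by
  rw [star_um star_xa star_xb star_xc, um, um', map_mul, map_mul, Ant_Lm, Ant_Mm, Ant_xc,
    ← MulOpposite.op_mul, ← MulOpposite.op_mul]
  congr 1
  calc Mm xa xb y.2 x.2 * (Om xa xb * xc * Om xa xb * Lm xa xb x.1 y.1)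
      = (Mm xa xb y.2 x.2 * Om xa xb) * xc * (Om xa xb * Lm xa xb x.1 y.1) := by
        simp only [mul_assoc]
    _ = _ := by rw [Mm_Om xTrip, Om_Lm xTrip]

end Pool.Agent.Helper93.QG
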