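import Mathlib
import Pool.Agent.Helper93.QG.Defs
import Pool.Agent.Helper93.QG.Maps
import Pool.Agent.Helper93.QG.Alg2

/-! The example as a closed subgroup of `U_4^+`. -/

set_option linter.unusedSectionVars false
set_option linter.unusedVariables false
set_option linter.unusedSimpArgs false

open scoped Matrix.Norms.L2Operator ENNReal TensorProduct
open Matrix

noncomputable section

namespace Pool.Agent.Helper93.QG

/-- the fundamental matrix -/
def uu : Matrix (Fin 4) (Fin 4) AA := Um xa xb xc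

lemma uu_unitary : IsUnitaryMat uu := by
  constructor
  · ext i j
    rw [Matrix.mul_apply]
    have h1 : ∀ k, uuᴴ i k * uu k j = um' xa xb xc (e4 i) (e4 k) * um xa xb xc (e4 k) (e4 j) := by
      intro k
      rw [Matrix.conjTranspose_apply]
      show star (um xa xb xc (e4 k) (e4 i)) * um xa xb xc (e4 k) (e4 j) = _
      rw [star_um star_xa star_xb star_xc]
    rw [Finset.sum_congr rfl fun k _ => h1 k,
      sum_e4 (fun z => um' xa xb xc (e4 i) z * um xa xb xc z (e4 j)), um'_mul_um xTrip]
    simp [Matrix.one_apply]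
  · ext i j
    rw [Matrix.mul_apply]
    have h1 : ∀ k, uu i k * uuᴴ k j = um xa xb xc (e4 i) (e4 k) * um' xa xb xc (e4 k) (e4 j) := by
      intro k
      rw [Matrix.conjTranspose_apply]
      show um xa xb xc (e4 i) (e4 k) * star (um xa xb xc (e4 j) (e4 k)) = _
      rw [star_um star_xa star_xb star_xc]
    rw [Finset.sum_congr rfl fun k _ => h1 k,
      sum_e4 (fun z => um xa xb xc (e4 i) z * um' xa xb xc z (e4 j)), um_mul_um' xTrip]
    simp [Matrix.one_apply]

/-- entries of `u` -/
def entries : Set AA := {x | ∃ i j, x = uu i j}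

lemma um_mem_entries (x y : Bool × Bool) : um xa xb xc x y ∈ entries :=
  ⟨e4.symm x, e4.symm y, by simp [uu, Um]⟩

/-- the generated C*-algebra -/
def EE : StarSubalgebra ℂ AA := (StarAlgebra.adjoin ℂ entries).topologicalClosure

lemma Wsp_le_EE {w : AA} (hw : w ∈ Wsp xa xb xc) : w ∈ EE := by
  have h : Wsp xa xb xc ≤ Subalgebra.toSubmodule EE.toSubalgebra := by
    unfold Wsp
    rw [Submodule.span_le]
    rintro _ ⟨p, rfl⟩
    exact StarSubalgebra.le_topologicalClosure _
      (StarAlgebra.subset_adjoin ℂ _ (um_mem_entries _ _))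
  exact h hw

lemma xc_mem_EE : xc ∈ EE := Wsp_le_EE (c_mem_Wsp _ _ _)

lemma xa_mem_EE : xa ∈ EE := by
  have h1 : xa * xc ∈ EE := Wsp_le_EE (a_mul_Wsp xTrip (c_mem_Wsp _ _ _))
  have h2 := mul_mem h1 xc_mem_EE
  rwa [mul_assoc, xTrip.cc, mul_one] at h2

lemma xb_mem_EE : xb ∈ EE := by
  have h1 : xb * xc ∈ EE := Wsp_le_EE (b_mul_Wsp xTrip (c_mem_Wsp _ _ _))
  have h2 := mul_mem h1 xc_mem_EE
  rwa [mul_assoc, xTrip.cc, mul_one] at h2

lemma EE_eq_top : EE = ⊤ := by
  have hcl : IsClosed ((EE.map SA.subtype : StarSubalgebra ℂ PP) : Set PP) := by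
    have h1 : Topology.IsClosedEmbedding (Subtype.val : AA → PP) :=
      IsClosed.isClosedEmbedding_subtypeVal (StarSubalgebra.isClosed_topologicalClosure _)
    exact h1.isClosedMap _ (StarSubalgebra.isClosed_topologicalClosure _)
  have h : SA ≤ EE.map SA.subtype :=
    SA_le hcl ⟨xa, xa_mem_EE, rfl⟩ ⟨xb, xb_mem_EE, rfl⟩ ⟨xc, xc_mem_EE, rfl⟩
  rw [eq_top_iff]
  rintro x -
  obtain ⟨y, hy, hxy⟩ := h x.2
  have : y = x := Subtype.ext hxy
  rwa [← this]

lemma uu_generates : GeneratesCStar uu := by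
  intro x
  have h : x ∈ EE := by rw [EE_eq_top]; exact StarSubalgebra.mem_top
  exact h

/-- first leg -/
def leg1T : AA →⋆ₐ[ℂ] TT := leg1.codRestrict ST leg1_mem

/-- second leg -/
def leg2T : AA →⋆ₐ[ℂ] TT := leg2.codRestrict ST leg2_mem

lemma tensorMap_legs (z : AA ⊗[ℂ] AA) : tensorMap leg1T leg2T z = iota z := by
  induction z with
  | zero =>
    rw [map_zero]
    exact LinearMap.map_zero _
  | tmul x y =>
    apply Subtype.ext
    exact (iota0_tmul x y).symm
  | add x y hx hy =>
    rw [map_add, ← hx, ← hy]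
    exact LinearMap.map_add _ x y

/-- the C*-tensor square -/
def sqAA : CStarSquare AA where
  T := TT
  i₁ := leg1T
  i₂ := leg2T
  isTensor := by
    have h : tensorMap leg1T leg2T = iota := funext tensorMap_legs
    refine ⟨fun x y => Subtype.ext (leg_comm x y), ?_, ?_⟩
    · rw [h]; exact iota_injective
    · rw [h]; exact iota_denseRange

/-- the example -/
def GG : ClosedSubgroup 4 where
  A := AA
  sq := sqAA
  u := uu
  u_unitary := uu_unitary
  u_generates := uu_generates
  Δ := Del
  Δ_u i j := by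
    refine (Del_um (e4 i) (e4 j)).trans ?_
    rw [← sum_e4]
    refine Finset.sum_congr rfl fun k _ => ?_
    apply Subtype.ext
    exact iota0_tmul _ _
  ε := eps
  ε_u i j := by
    refine (eps_um (e4 i) (e4 j)).trans ?_
    simp
  S := Ant
  S_u i j := Ant_um (e4 i) (e4 j)

end Pool.Agent.Helper93.QG
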