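import Mathlib
import Pool.Agent.Helper93.QG.Example

/-! Linear independence of `2^k` words. -/

set_option linter.unusedSimpArgs false
set_option linter.unusedVariables false
set_option linter.unusedSectionVars false

open scoped Matrix.Norms.L2Operator ENNReal TensorProduct
open Matrix

namespace Pool.Agent.Helper93.QG

noncomputable section

section comb

variable (n : ℕ)

/-- action of `c` -/
def sC (x : ZMod n → Bool) : ZMod n → Bool := fun i => x (1 - i)
/-- action of `a` -/
def sA (x : ZMod n → Bool) : ZMod n → Bool := fun i => x (-i)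
/-- action of `b` -/
def sB (x : ZMod n → Bool) : ZMod n → Bool := fun i => xor (x (-i)) (decide (i = 0))

lemma sC_sC (x : ZMod n → Bool) : sC n (sC n x) = x := by
  funext i; simp [sC]

lemma sA_sA (x : ZMod n → Bool) : sA n (sA n x) = x := by
  funext i; simp [sA]

lemma sB_sB (x : ZMod n → Bool) : sB n (sB n x) = x := by
  funext i; simp [sB]

lemma sA_sB (x : ZMod n → Bool) : sA n (sB n x) = sB n (sA n x) := by
  funext i; simp [sA, sB]

/-- the step -/
def step (s : Bool) (x : ZMod n → Bool) : ZMod n → Bool := cond s (sB n) (sA n) (sC n x)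

lemma step_apply (s : Bool) (x : ZMod n → Bool) (i : ZMod n) :
    step n s x i = xor (x (1 + i)) (s && decide (i = 0)) := by
  cases s <;> simp [step, sA, sB, sC]

/-- the position after applying a word to the zero string -/
def pos : List Bool → (ZMod n → Bool)
  | [] => fun _ => false
  | s :: l => step n s (pos l)

lemma pos_true (l : List Bool) : ∀ i : ZMod n, pos n l i = true → ∃ t : ℕ, t < l.length ∧ i = -t := by
  induction l with
  | nil => intro i h; simp [pos] at h
  | cons s l ih =>
    intro i h
    rw [pos, step_apply] at h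
    by_cases h0 : i = 0
    · exact ⟨0, by simp, by simp [h0]⟩
    · have h1 : pos n l (1 + i) = true := by simpa [h0] using h
      obtain ⟨t, ht, h2⟩ := ih _ h1
      refine ⟨t + 1, by simpa using ht, ?_⟩
      have : i = (1 + i) - 1 := by ring
      rw [this, h2]
      push_cast
      ring

lemma pos_inj : ∀ (l l' : List Bool), l.length = l'.length → l.length ≤ n →
    pos n l = pos n l' → l = l' := by
  intro l
  induction l with
  | nil => intro l' h _ _; exact (List.length_eq_zero_iff.1 (by simpa using h.symm)).symm
  | cons s l ih =>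
    intro l' hlen hle hpos
    cases l' with
    | nil => simp at hlen
    | cons s' l' =>
      have hlen' : l.length = l'.length := by simpa using hlen
      have hle' : l.length + 1 ≤ n := by simpa using hle
      have aux : ∀ m : List Bool, m.length + 1 ≤ n → pos n m 1 = false := by
        intro m hm
        by_contra hcon
        have h1 : pos n m 1 = true := by simpa using hcon
        obtain ⟨t, ht, h2⟩ := pos_true n m 1 h1
        have h3 : ((t + 1 : ℕ) : ZMod n) = 0 := by
          push_cast
          rw [show (t : ZMod n) = -1 by rw [h2]; simp]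
          ring
        rw [ZMod.natCast_eq_zero_iff] at h3
        have := Nat.le_of_dvd (by omega) h3
        omega
      have h0 := congrFun hpos 0
      rw [pos, pos, step_apply, step_apply, add_zero, aux l hle', aux l' (by omega)] at h0
      have hs : s = s' := by simpa using h0
      have htail : pos n l = pos n l' := by
        funext i
        have h1 := congrFun hpos (i - 1)
        rw [pos, pos, step_apply, step_apply, hs] at h1
        have e : 1 + (i - 1) = i := by ring
        rw [e] at h1
        exact Bool.xor_left_inj.1 h1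
      rw [hs, ih l' hlen' (by omega) htail]

end comb

/-- matrix of a self-map -/
def PM {X : Type} [Fintype X] [DecidableEq X] (f : X → X) : Matrix X X ℂ :=
  fun x y => if x = f y then 1 else 0

lemma PM_mul {X : Type} [Fintype X] [DecidableEq X] (f g : X → X) :
    PM f * PM g = PM (f ∘ g) := by
  ext x y
  rw [Matrix.mul_apply, Finset.sum_eq_single (g y)]
  · simp [PM]
  · intro z _ hz; simp [PM, hz]
  · simp

lemma PM_one {X : Type} [Fintype X] [DecidableEq X] {f : X → X} (h : ∀ x, f x = x) :
    PM f = 1 := by
  ext x y
  simp [PM, Matrix.one_apply, h]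

lemma PM_star {X : Type} [Fintype X] [DecidableEq X] {f : X → X} (h : ∀ x, f (f x) = x) :
    star (PM f) = PM f := by
  ext x y
  rw [Matrix.star_apply]
  have : (y = f x) ↔ (x = f y) := by
    constructor
    · intro e; rw [e, h]
    · intro e; rw [e, h]
  by_cases hxy : x = f y
  · have h2 : y = f x := this.2 hxy
    rw [PM, PM, if_pos h2, if_pos hxy, star_one]
  · have h2 : ¬ y = f x := fun e => hxy (this.1 e)
    rw [PM, PM, if_neg h2, if_neg hxy, star_zero]

lemma exists_rep (n : ℕ) [NeZero n] : ∃ φ : PP →⋆ₐ[ℂ] Matrix (ZMod n → Bool) (ZMod n → Bool) ℂ,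
    φ gA = PM (sA n) ∧ φ gB = PM (sB n) ∧ φ gC = PM (sC n) := by
  apply exists_ev
  · exact ⟨(PM_mul _ _).trans (PM_one (sA_sA n)), (PM_mul _ _).trans (PM_one (sB_sB n)),
      (PM_mul _ _).trans (PM_one (sC_sC n)),
      by rw [PM_mul, PM_mul]; exact congrArg PM (funext fun x => sA_sB n x)⟩
  · exact PM_star (sA_sA n)
  · exact PM_star (sB_sB n)
  · exact PM_star (sC_sC n)

/-- the letters -/
def zz (s : Bool) : AA := cond s xb xa * xc

/-- the words -/
def wordz (l : List Bool) : AA := (l.map zz).prod

lemma rep_word (n : ℕ) [NeZero n] {φ : PP →⋆ₐ[ℂ] Matrix (ZMod n → Bool) (ZMod n → Bool) ℂ}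
    (h1 : φ gA = PM (sA n)) (h2 : φ gB = PM (sB n)) (h3 : φ gC = PM (sC n)) (l : List Bool)
    (p : ZMod n → Bool) :
    φ ((wordz l : AA) : PP) p (fun _ => false) = if p = pos n l then 1 else 0 := by
  have key : ∃ f : (ZMod n → Bool) → (ZMod n → Bool), φ ((wordz l : AA) : PP) = PM f ∧
      f (fun _ => false) = pos n l := by
    induction l with
    | nil =>
      refine ⟨id, ?_, rfl⟩
      have : ((wordz [] : AA) : PP) = 1 := rfl
      rw [this, map_one]
      exact (PM_one (f := id) (fun x => rfl)).symm
    | cons s l ih =>
      obtain ⟨f, hf, hp⟩ := ih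
      refine ⟨step n s ∘ f, ?_, ?_⟩
      · have e : ((wordz (s :: l) : AA) : PP) = (cond s gB gA * gC) * ((wordz l : AA) : PP) := by
          cases s <;> rfl
        rw [e, map_mul, hf, map_mul, h3]
        cases s
        · rw [cond_false, h1, PM_mul, PM_mul]; rfl
        · rw [cond_true, h2, PM_mul, PM_mul]; rfl
      · rw [Function.comp_apply, hp]; rfl
  obtain ⟨f, hf, hp⟩ := key
  rw [hf, PM, hp]

lemma words_indep (k : ℕ) : LinearIndependent ℂ (fun e : Fin k → Bool => wordz (List.ofFn e)) := by
  obtain ⟨φ, h1, h2, h3⟩ := exists_rep (k + 1)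
  let L : AA →ₗ[ℂ] ((ZMod (k + 1) → Bool) → ℂ) :=
    { toFun := fun x p => φ (x : PP) p (fun _ => false)
      map_add' := fun x y => by
        funext p
        show φ ((x : PP) + (y : PP)) p _ = _
        rw [map_add]; rfl
      map_smul' := fun c x => by
        funext p
        show φ (c • (x : PP)) p _ = _
        rw [map_smul]; rfl }
  refine LinearIndependent.of_comp L ?_
  have hL : (L ∘ fun e : Fin k → Bool => wordz (List.ofFn e)) =
      (fun q => Pi.basisFun ℂ (ZMod (k + 1) → Bool) q) ∘
        (fun e : Fin k → Bool => pos (k + 1) (List.ofFn e)) := by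
    funext e p
    show φ ((wordz (List.ofFn e) : AA) : PP) p (fun _ => false) = _
    rw [rep_word (k + 1) h1 h2 h3]
    simp [Pi.basisFun_apply, Pi.single_apply]
  rw [hL]
  refine (Pi.basisFun ℂ (ZMod (k + 1) → Bool)).linearIndependent.comp _ ?_
  intro e e' h
  have := pos_inj (k + 1) _ _ (by simp) (by simp) h
  exact List.ofFn_injective this

end

end Pool.Agent.Helper93.QG
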