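import Mathlib
import Pool.Agent.Helper93.QG.Words
import Pool.Agent.Helper93.QG.Lower

/-! The dual of the example has exponential growth. -/

set_option linter.unusedSimpArgs false
set_option linter.unusedVariables false
set_option linter.unusedSectionVars false

open scoped Matrix.Norms.L2Operator ENNReal TensorProduct
open Matrix

namespace Pool.Agent.Helper93.QG

noncomputable section

/-- the letters in `C(G)` -/
def zG (s : Bool) : GG.A := zz s

/-- the words in `C(G)` -/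
def wG (l : List Bool) : GG.A := (l.map zG).prod

lemma zG_mem (s : Bool) : zG s ∈ Submodule.span ℂ (Set.range fun p :
    (Unit ⊕ (Fin 4 ⊕ Fin 4)) × (Unit ⊕ (Fin 4 ⊕ Fin 4)) => GG.oneUU p.1 p.2) := by
  have h1 : zz s ∈ Wsp xa xb xc := by
    cases s
    · exact a_mul_Wsp xTrip (c_mem_Wsp _ _ _)
    · exact b_mul_Wsp xTrip (c_mem_Wsp _ _ _)
  have h2 : @Wsp GG.A _ _ xa xb xc ≤ Submodule.span ℂ (Set.range fun p :
    (Unit ⊕ (Fin 4 ⊕ Fin 4)) × (Unit ⊕ (Fin 4 ⊕ Fin 4)) => GG.oneUU p.1 p.2) := by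
    unfold Wsp
    rw [Submodule.span_le]
    rintro _ ⟨⟨x, y⟩, rfl⟩
    refine Submodule.subset_span
      ⟨(Sum.inr (Sum.inl (e4.symm x)), Sum.inr (Sum.inl (e4.symm y))), ?_⟩
    show uu (e4.symm x) (e4.symm y) = um xa xb xc x y
    simp [uu, Um]
  exact h2 h1

lemma wG_mem (k : ℕ) : ∀ e : Fin k → Bool, wG (List.ofFn e) ∈ Submodule.span ℂ
    (Set.range fun p : (Fin k → Unit ⊕ (Fin 4 ⊕ Fin 4)) × (Fin k → Unit ⊕ (Fin 4 ⊕ Fin 4)) =>
      GG.tensorPow GG.oneUU k p.1 p.2) := by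
  induction k with
  | zero =>
    intro e
    refine Submodule.subset_span ⟨(Fin.elim0, Fin.elim0), ?_⟩
    simp [ClosedSubgroup.tensorPow, wG]
  | succ k ih =>
    intro e
    have h1 : wG (List.ofFn e) = zG (e 0) * wG (List.ofFn fun i => e i.succ) := by
      rw [List.ofFn_succ, wG, List.map_cons, List.prod_cons, wG]
    rw [h1]
    have h2 := Submodule.mul_mem_mul (zG_mem (e 0)) (ih fun i => e i.succ)
    rw [Submodule.span_mul_span] at h2
    refine (Submodule.span_le.2 ?_) h2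
    rintro _ ⟨_, ⟨p, rfl⟩, _, ⟨q, rfl⟩, rfl⟩
    refine Submodule.subset_span ⟨(Fin.cons p.1 q.1, Fin.cons p.2 q.2), ?_⟩
    simp [ClosedSubgroup.tensorPow, List.ofFn_succ]

theorem two_pow_le_b (k : ℕ) : (2 : ℝ≥0∞) ^ k ≤ GG.b k := by
  have h := ClosedSubgroup.card_le_b (G := GG) (v := fun e : Fin k → Bool => wG (List.ofFn e)) k
    (words_indep k) (wG_mem k)
  rw [Fintype.card_fun, Fintype.card_bool, Fintype.card_fin] at h
  exact_mod_cast h

theorem not_dual_growth : ¬ GG.DualPolynomialGrowth := by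
  rintro ⟨C, d, h⟩
  have h1 : ∀ k : ℕ, 1 ≤ k → 2 ^ k ≤ C * k ^ d := by
    intro k hk
    have := (two_pow_le_b k).trans (h k hk)
    exact_mod_cast this
  have h2 := tendsto_pow_const_div_const_pow_of_one_lt d (one_lt_two (α := ℝ))
  have hC : (0 : ℝ) < 1 / (C + 1) := by positivity
  obtain ⟨k, hk⟩ := ((h2.eventually (gt_mem_nhds hC)).and (Filter.eventually_ge_atTop 1)).exists
  obtain ⟨hk1, hk2⟩ := hk
  have h3 := h1 k hk2
  have h4 : (2 : ℝ) ^ k ≤ C * (k : ℝ) ^ d := by exact_mod_cast h3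
  have hpos : (0 : ℝ) < 2 ^ k := by positivity
  have hC1 : (0 : ℝ) < (C : ℝ) + 1 := by positivity
  rw [div_lt_div_iff₀ hpos hC1, one_mul] at hk1
  have h5 : (0 : ℝ) ≤ (k : ℝ) ^ d := by positivity
  nlinarith

end

end Pool.Agent.Helper93.QG
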