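import Mathlib
import Pool.Agent.Helper93.QG.Alg2

/-! Group-like elements and the universal quotient in which `v = Q u Q*` is diagonal. -/

set_option linter.unusedSimpArgs false
set_option linter.unusedVariables false
set_option linter.unusedSectionVars false

open scoped TensorProduct
open Submodule

namespace Pool.Agent.Helper93.QG

/-- group-like elements for a linear map `δ : V → V ⊗ V` are linearly independent -/
lemma grouplike_indep {V : Type*} [AddCommGroup V] [Module ℂ V] (δ : V →ₗ[ℂ] V ⊗[ℂ] V) :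
    LinearIndepOn ℂ id {x : V | δ x = x ⊗ₜ x ∧ x ≠ 0} := by
  classical
  rw [linearIndepOn_iff_linearIndepOn_finset]
  rintro s hs
  induction s using Finset.cons_induction with
  | empty => simp
  | cons a s has ih =>
  simp only [Finset.cons_eq_insert, Finset.coe_insert, Set.subset_def, Set.mem_insert_iff,
    Finset.mem_coe, Set.mem_ofPred_eq, forall_eq_or_imp] at hs
  obtain ⟨ha, hs⟩ := hs
  specialize ih hs
  rw [Finset.coe_cons]
  refine ih.id_insert' ?_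
  simp only [mem_span_finset, forall_exists_index, and_imp]
  rintro d c - hc
  replace ih := ih.tmul_of_isDomain ih
  simp_rw [← Finset.coe_product, linearIndepOn_finset_iffₛ, id] at ih
  have key := calc
        ∑ x ∈ s, ∑ y ∈ s, (if x = y then d * c x else 0) • x ⊗ₜ[ℂ] y
    _ = d • ∑ x ∈ s, c x • x ⊗ₜ[ℂ] x := by simp [Finset.smul_sum, mul_smul]
    _ = d • δ (d • a) := by rw [← hc]; simp +contextual [(hs _ _).1]
    _ = (d • a) ⊗ₜ (d • a) := by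
      simp [ha.1, TensorProduct.smul_tmul, TensorProduct.tmul_smul, -neg_smul]
    _ = ∑ x ∈ s, ∑ y ∈ s, (c x * c y) • x ⊗ₜ[ℂ] y := by
      simp_rw [← hc, TensorProduct.sum_tmul, TensorProduct.smul_tmul, Finset.smul_sum,
        TensorProduct.tmul_sum, TensorProduct.tmul_smul, mul_smul]
  simp_rw [← Finset.sum_product'] at key
  apply ih at key
  replace key x (hx : x ∈ s) : c x = 0 := by
    by_contra! hcx
    have hcy (y) (hys : y ∈ s) (hyx : y ≠ x) : c y = 0 := by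
      simpa [*] using (key (y, x) (by simp [*])).symm
    rw [Finset.sum_eq_single x (by simp +contextual [hcy]) (by simp [hx])] at hc
    have hcxa : d = c x := mul_left_injective₀ hcx (by simpa using (key (x, x) (by simp [*])))
    obtain rfl : x = a := by rwa [hcxa, smul_right_inj hcx] at hc
    contradiction
  simp_all [ha.2, eq_comm]

lemma grouplike_mem {V : Type*} [AddCommGroup V] [Module ℂ V] (δ : V →ₗ[ℂ] V ⊗[ℂ] V)
    {F : Set V} (hF : ∀ x ∈ F, δ x = x ⊗ₜ x ∧ x ≠ 0) {y : V} (hy : δ y = y ⊗ₜ y ∧ y ≠ 0)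
    (h : y ∈ span ℂ F) : y ∈ F := by
  by_contra hn
  have h1 : LinearIndepOn ℂ id (insert y F) := by
    refine (grouplike_indep δ).mono ?_
    rintro x (rfl | hx)
    · exact hy
    · exact hF x hx
  rw [linearIndepOn_id_insert hn] at h1
  exact h1.2 h

section quot

open Matrix

variable {R : Type*} [Ring R] [Algebra ℂ R]

/-- the inverse of the matrix `u` over `Fin 4` -/
noncomputable def Um' (a b c : R) : Matrix (Fin 4) (Fin 4) R := fun i j => um' a b c (e4 i) (e4 j)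

lemma Um_mul_Um' {a b c : R} (h : Trip a b c) : Um a b c * Um' a b c = 1 := by
  ext i j
  rw [Matrix.mul_apply]
  refine (sum_e4 (fun z => um a b c (e4 i) z * um' a b c z (e4 j))).trans ?_
  rw [um_mul_um' h]
  simp [Matrix.one_apply]

lemma Um'_mul_Um {a b c : R} (h : Trip a b c) : Um' a b c * Um a b c = 1 := by
  ext i j
  rw [Matrix.mul_apply]
  refine (sum_e4 (fun z => um' a b c (e4 i) z * um a b c z (e4 j))).trans ?_
  rw [um'_mul_um h]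
  simp [Matrix.one_apply]

/-- scalar matrices -/
def sc (R : Type*) [Ring R] [Algebra ℂ R] (X : Matrix (Fin 4) (Fin 4) ℂ) : Matrix (Fin 4) (Fin 4) R :=
  X.map (algebraMap ℂ R)

lemma sc_mul (X Y : Matrix (Fin 4) (Fin 4) ℂ) : sc R (X * Y) = sc R X * sc R Y := by
  simp [sc, Matrix.map_mul]

lemma sc_one : sc R (1 : Matrix (Fin 4) (Fin 4) ℂ) = 1 := by simp [sc]

/-- `v = Q u Q*` -/
noncomputable def Vm (Q : Matrix (Fin 4) (Fin 4) ℂ) (a b c : R) : Matrix (Fin 4) (Fin 4) R :=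
  sc R Q * Um a b c * sc R Qᴴ

/-- `v⁻¹` -/
noncomputable def Vm' (Q : Matrix (Fin 4) (Fin 4) ℂ) (a b c : R) : Matrix (Fin 4) (Fin 4) R :=
  sc R Q * Um' a b c * sc R Qᴴ

variable {Q : Matrix (Fin 4) (Fin 4) ℂ}

lemma Vm_mul_Vm' (hQ : Qᴴ * Q = 1) (hQ' : Q * Qᴴ = 1) {a b c : R} (h : Trip a b c) :
    Vm Q a b c * Vm' Q a b c = 1 := by
  have h1 : sc R Qᴴ * sc R Q = 1 := by rw [← sc_mul, hQ, sc_one]
  have h2 : sc R Q * sc R Qᴴ = 1 := by rw [← sc_mul, hQ', sc_one]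
  calc Vm Q a b c * Vm' Q a b c
      = sc R Q * (Um a b c * ((sc R Qᴴ * sc R Q) * Um' a b c)) * sc R Qᴴ := by
        simp only [Vm, Vm', Matrix.mul_assoc]
    _ = 1 := by rw [h1, Matrix.one_mul, Um_mul_Um' h, Matrix.mul_one, h2]

lemma Vm'_mul_Vm (hQ : Qᴴ * Q = 1) (hQ' : Q * Qᴴ = 1) {a b c : R} (h : Trip a b c) :
    Vm' Q a b c * Vm Q a b c = 1 := by
  have h1 : sc R Qᴴ * sc R Q = 1 := by rw [← sc_mul, hQ, sc_one]
  have h2 : sc R Q * sc R Qᴴ = 1 := by rw [← sc_mul, hQ', sc_one]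
  calc Vm' Q a b c * Vm Q a b c
      = sc R Q * (Um' a b c * ((sc R Qᴴ * sc R Q) * Um a b c)) * sc R Qᴴ := by
        simp only [Vm, Vm', Matrix.mul_assoc]
    _ = 1 := by rw [h1, Matrix.one_mul, Um'_mul_Um h, Matrix.mul_one, h2]

/-- `a, b, c` is a triple for which `v = Q u Q*` is diagonal -/
structure GoodQ (Q : Matrix (Fin 4) (Fin 4) ℂ) (a b c : R) : Prop extends Trip a b c where
  off : ∀ i j, i ≠ j → Vm Q a b c i j = 0

lemma map_Vm {R' : Type*} [Ring R'] [Algebra ℂ R'] (φ : R →ₐ[ℂ] R') (a b c : R) :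
    (Vm Q a b c).map φ = Vm Q (φ a) (φ b) (φ c) := by
  have h1 : ∀ X : Matrix (Fin 4) (Fin 4) ℂ, (sc R X).map φ = sc R' X := by
    intro X; ext i j; simp [sc]
  have h2 : (Um a b c).map φ = Um (φ a) (φ b) (φ c) := by
    ext i j; exact map_um φ a b c _ _
  unfold Vm
  rw [Matrix.map_mul, Matrix.map_mul, h1, h1, h2]

lemma GoodQ.map {R' : Type*} [Ring R'] [Algebra ℂ R'] (φ : R →ₐ[ℂ] R') {a b c : R}
    (h : GoodQ Q a b c) : GoodQ Q (φ a) (φ b) (φ c) where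
  toTrip := h.toTrip.map φ
  off i j hij := by
    have h1 := congrFun (congrFun (map_Vm (Q := Q) φ a b c) i) j
    rw [← h1, Matrix.map_apply, h.off i j hij, map_zero]

lemma Um_comul {a1 b1 c1 a2 b2 c2 : R} (h : Two a1 b1 c1 a2 b2 c2) :
    Um (a1 * a2) (b1 * b2) (Om a1 b2 * (c1 * c2) * Om a1 b2) = Um a1 b1 c1 * Um a2 b2 c2 := by
  ext i j
  rw [Matrix.mul_apply]
  refine (um_comul h (e4 i) (e4 j)).trans ?_
  rw [← sum_e4]
  rfl

lemma Vm_comul (hQ : Qᴴ * Q = 1) {a1 b1 c1 a2 b2 c2 : R} (h : Two a1 b1 c1 a2 b2 c2) :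
    Vm Q (a1 * a2) (b1 * b2) (Om a1 b2 * (c1 * c2) * Om a1 b2) =
      Vm Q a1 b1 c1 * Vm Q a2 b2 c2 := by
  have h1 : sc R Qᴴ * sc R Q = 1 := by rw [← sc_mul, hQ, sc_one]
  symm
  calc Vm Q a1 b1 c1 * Vm Q a2 b2 c2
      = sc R Q * (Um a1 b1 c1 * ((sc R Qᴴ * sc R Q) * Um a2 b2 c2)) * sc R Qᴴ := by
        simp only [Vm, Matrix.mul_assoc]
    _ = _ := by rw [h1, Matrix.one_mul, ← Um_comul h, Vm]

lemma GoodQ.comul (hQ : Qᴴ * Q = 1) {a1 b1 c1 a2 b2 c2 : R} (h : Two a1 b1 c1 a2 b2 c2)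
    (g1 : GoodQ Q a1 b1 c1) (g2 : GoodQ Q a2 b2 c2) :
    GoodQ Q (a1 * a2) (b1 * b2) (Om a1 b2 * (c1 * c2) * Om a1 b2) where
  toTrip := h.trip
  off i j hij := by
    rw [Vm_comul hQ h, Matrix.mul_apply]
    refine Finset.sum_eq_zero fun k _ => ?_
    by_cases hk : i = k
    · subst hk
      rw [g2.off i j hij, mul_zero]
    · rw [g1.off i k hk, zero_mul]

/-- the defining relations -/
inductive Rel (Q : Matrix (Fin 4) (Fin 4) ℂ) :
    FreeAlgebra ℂ (Fin 3) → FreeAlgebra ℂ (Fin 3) → Prop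
  | aa : Rel Q (FreeAlgebra.ι ℂ 0 * FreeAlgebra.ι ℂ 0) 1
  | bb : Rel Q (FreeAlgebra.ι ℂ 1 * FreeAlgebra.ι ℂ 1) 1
  | cc : Rel Q (FreeAlgebra.ι ℂ 2 * FreeAlgebra.ι ℂ 2) 1
  | ab : Rel Q (FreeAlgebra.ι ℂ 0 * FreeAlgebra.ι ℂ 1) (FreeAlgebra.ι ℂ 1 * FreeAlgebra.ι ℂ 0)
  | off (i j : Fin 4) (h : i ≠ j) :
      Rel Q (Vm Q (FreeAlgebra.ι ℂ 0) (FreeAlgebra.ι ℂ 1) (FreeAlgebra.ι ℂ 2) i j) 0

/-- the universal algebra -/
def BQ (Q : Matrix (Fin 4) (Fin 4) ℂ) : Type := RingQuot (Rel Q)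

noncomputable instance (Q : Matrix (Fin 4) (Fin 4) ℂ) : Ring (BQ Q) :=
  inferInstanceAs (Ring (RingQuot (Rel Q)))

noncomputable instance (Q : Matrix (Fin 4) (Fin 4) ℂ) : Algebra ℂ (BQ Q) :=
  inferInstanceAs (Algebra ℂ (RingQuot (Rel Q)))

/-- the quotient map -/
noncomputable def mkBQ (Q : Matrix (Fin 4) (Fin 4) ℂ) : FreeAlgebra ℂ (Fin 3) →ₐ[ℂ] BQ Q :=
  RingQuot.mkAlgHom ℂ (Rel Q)

lemma mkBQ_rel {Q : Matrix (Fin 4) (Fin 4) ℂ} {x y : FreeAlgebra ℂ (Fin 3)} (h : Rel Q x y) :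
    mkBQ Q x = mkBQ Q y := RingQuot.mkAlgHom_rel ℂ h

/-- generators -/
noncomputable def bg (Q : Matrix (Fin 4) (Fin 4) ℂ) (i : Fin 3) : BQ Q :=
  mkBQ Q (FreeAlgebra.ι ℂ i)

lemma bg_good (Q : Matrix (Fin 4) (Fin 4) ℂ) : GoodQ Q (bg Q 0) (bg Q 1) (bg Q 2) where
  aa := by
    rw [bg, ← map_mul, mkBQ_rel Rel.aa, map_one]
  bb := by
    rw [bg, ← map_mul, mkBQ_rel Rel.bb, map_one]
  cc := by
    rw [bg, ← map_mul, mkBQ_rel Rel.cc, map_one]
  ab := by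
    rw [bg, bg, ← map_mul, mkBQ_rel Rel.ab, map_mul]
  off i j h := by
    have h1 := congrFun (congrFun (map_Vm (Q := Q) (mkBQ Q)
      (FreeAlgebra.ι ℂ 0) (FreeAlgebra.ι ℂ 1) (FreeAlgebra.ι ℂ 2)) i) j
    refine h1.symm.trans ?_
    rw [Matrix.map_apply, mkBQ_rel (Rel.off i j h), map_zero]

lemma exists_lift {a b c : R} (h : GoodQ Q a b c) :
    ∃ φ : BQ Q →ₐ[ℂ] R, φ (bg Q 0) = a ∧ φ (bg Q 1) = b ∧ φ (bg Q 2) = c := by
  let ψ : FreeAlgebra ℂ (Fin 3) →ₐ[ℂ] R := FreeAlgebra.lift ℂ ![a, b, c]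
  have e0 : ψ (FreeAlgebra.ι ℂ 0) = a := by simp [ψ]
  have e1 : ψ (FreeAlgebra.ι ℂ 1) = b := by simp [ψ]
  have e2 : ψ (FreeAlgebra.ι ℂ 2) = c := by simp [ψ]
  have hrel : ∀ ⦃x y : FreeAlgebra ℂ (Fin 3)⦄, Rel Q x y → ψ x = ψ y := by
    rintro x y (_ | _ | _ | _ | ⟨i, j, hij⟩)
    · rw [map_mul, e0, h.aa, map_one]
    · rw [map_mul, e1, h.bb, map_one]
    · rw [map_mul, e2, h.cc, map_one]
    · rw [map_mul, map_mul, e0, e1, h.ab]
    · have h1 := congrFun (congrFun (map_Vm (Q := Q) ψ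
        (FreeAlgebra.ι ℂ 0) (FreeAlgebra.ι ℂ 1) (FreeAlgebra.ι ℂ 2)) i) j
      rw [Matrix.map_apply, e0, e1, e2, h.off i j hij] at h1
      rw [h1, map_zero]
  refine ⟨RingQuot.liftAlgHom ℂ ⟨ψ, hrel⟩, ?_, ?_, ?_⟩
  · exact (RingQuot.liftAlgHom_mkAlgHom_apply ℂ ψ hrel _).trans e0
  · exact (RingQuot.liftAlgHom_mkAlgHom_apply ℂ ψ hrel _).trans e1
  · exact (RingQuot.liftAlgHom_mkAlgHom_apply ℂ ψ hrel _).trans e2

end quot

end Pool.Agent.Helper93.QG
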