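import Mathlib
import Pool.Agent.Helper93.QG.GroupLike

/-! Structure of the universal quotient in which `v = Q u Q*` is diagonal. -/

set_option linter.unusedSimpArgs false
set_option linter.unusedVariables false
set_option linter.unusedSectionVars false

open scoped TensorProduct
open Submodule Matrix

namespace Pool.Agent.Helper93.QG

noncomputable section

section general

variable {R : Type*} [Ring R] [Algebra ℂ R]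

lemma two_tensor {a b c : R} (h : Trip a b c) :
    Two (a ⊗ₜ[ℂ] (1 : R)) (b ⊗ₜ[ℂ] (1 : R)) (c ⊗ₜ[ℂ] (1 : R))
      ((1 : R) ⊗ₜ[ℂ] a) ((1 : R) ⊗ₜ[ℂ] b) ((1 : R) ⊗ₜ[ℂ] c) where
  t1 := h.map (Algebra.TensorProduct.includeLeft (R := ℂ) (S := ℂ) (A := R) (B := R))
  t2 := h.map (Algebra.TensorProduct.includeRight (R := ℂ) (A := R) (B := R))
  aa := by simp
  ab := by simp
  ac := by simp
  ba := by simp
  bb := by simp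
  bc := by simp
  ca := by simp
  cb := by simp
  cc := by simp

end general

section BQ

variable {Q : Matrix (Fin 4) (Fin 4) ℂ}

lemma exists_delta (hQ : Qᴴ * Q = 1) : ∃ δ : BQ Q →ₐ[ℂ] BQ Q ⊗[ℂ] BQ Q,
    δ (bg Q 0) = bg Q 0 ⊗ₜ bg Q 0 ∧ δ (bg Q 1) = bg Q 1 ⊗ₜ bg Q 1 ∧
    δ (bg Q 2) = Om (bg Q 0 ⊗ₜ 1) (1 ⊗ₜ bg Q 1) * (bg Q 2 ⊗ₜ bg Q 2) *
      Om (bg Q 0 ⊗ₜ 1) (1 ⊗ₜ bg Q 1) := by
  have h := GoodQ.comul hQ (two_tensor (bg_good Q).toTrip)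
    ((bg_good Q).map (Algebra.TensorProduct.includeLeft (R := ℂ) (S := ℂ) (A := BQ Q) (B := BQ Q)))
    ((bg_good Q).map (Algebra.TensorProduct.includeRight (R := ℂ) (A := BQ Q) (B := BQ Q)))
  obtain ⟨δ, h0, h1, h2⟩ := exists_lift h
  refine ⟨δ, h0.trans (by simp), h1.trans (by simp), h2.trans (by simp)⟩

lemma delta_Vm (hQ : Qᴴ * Q = 1) {δ : BQ Q →ₐ[ℂ] BQ Q ⊗[ℂ] BQ Q}
    (h0 : δ (bg Q 0) = bg Q 0 ⊗ₜ bg Q 0) (h1 : δ (bg Q 1) = bg Q 1 ⊗ₜ bg Q 1)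
    (h2 : δ (bg Q 2) = Om (bg Q 0 ⊗ₜ 1) (1 ⊗ₜ bg Q 1) * (bg Q 2 ⊗ₜ bg Q 2) *
      Om (bg Q 0 ⊗ₜ 1) (1 ⊗ₜ bg Q 1)) (i : Fin 4) :
    δ (Vm Q (bg Q 0) (bg Q 1) (bg Q 2) i i) =
      Vm Q (bg Q 0) (bg Q 1) (bg Q 2) i i ⊗ₜ Vm Q (bg Q 0) (bg Q 1) (bg Q 2) i i := by
  have e1 := congrFun (congrFun (map_Vm (Q := Q) δ (bg Q 0) (bg Q 1) (bg Q 2)) i) i
  rw [Matrix.map_apply] at e1
  rw [e1]
  have e2 := Vm_comul hQ (two_tensor (bg_good Q).toTrip)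
  have e3 : δ (bg Q 0) = bg Q 0 ⊗ₜ 1 * 1 ⊗ₜ bg Q 0 := h0.trans (by simp)
  have e4 : δ (bg Q 1) = bg Q 1 ⊗ₜ 1 * 1 ⊗ₜ bg Q 1 := h1.trans (by simp)
  have e5 : δ (bg Q 2) = Om (bg Q 0 ⊗ₜ 1) (1 ⊗ₜ bg Q 1) * (bg Q 2 ⊗ₜ 1 * 1 ⊗ₜ bg Q 2) *
      Om (bg Q 0 ⊗ₜ 1) (1 ⊗ₜ bg Q 1) := h2.trans (by simp)
  rw [e3, e4, e5, e2, Matrix.mul_apply]
  have f1 := map_Vm (Q := Q) (Algebra.TensorProduct.includeLeft (R := ℂ) (S := ℂ)
    (A := BQ Q) (B := BQ Q)) (bg Q 0) (bg Q 1) (bg Q 2)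
  have f2 := map_Vm (Q := Q) (Algebra.TensorProduct.includeRight (R := ℂ)
    (A := BQ Q) (B := BQ Q)) (bg Q 0) (bg Q 1) (bg Q 2)
  simp only [Algebra.TensorProduct.includeLeft_apply, Algebra.TensorProduct.includeRight_apply]
    at f1 f2
  rw [← f1, ← f2, Finset.sum_eq_single i]
  · simp
  · intro k _ hk
    rw [Matrix.map_apply, Matrix.map_apply, (bg_good Q).off i k hk.symm]
    simp
  · simp

lemma exists_eps (hQ' : Q * Qᴴ = 1) : ∃ ε : BQ Q →ₐ[ℂ] ℂ,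
    ε (bg Q 0) = 1 ∧ ε (bg Q 1) = 1 ∧ ε (bg Q 2) = 1 ∧
    ∀ i, ε (Vm Q (bg Q 0) (bg Q 1) (bg Q 2) i i) = 1 := by
  have hU : Um (1 : ℂ) 1 1 = 1 := by
    ext i j
    have h : ∀ x y : Bool × Bool, um (1 : ℂ) 1 1 x y = if x = y then 1 else 0 := by
      rintro ⟨x1, x2⟩ ⟨y1, y2⟩
      cases x1 <;> cases x2 <;> cases y1 <;> cases y2 <;> norm_num [um, Lm, Mm, pr]
    rw [Um, h, Matrix.one_apply]
    simp
  have hV : Vm Q (1 : ℂ) 1 1 = 1 := by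
    rw [Vm, hU, Matrix.mul_one, ← sc_mul, hQ', sc_one]
  have hg : GoodQ Q (1 : ℂ) 1 1 :=
    { aa := by simp
      bb := by simp
      cc := by simp
      ab := by simp
      off := fun i j hij => by rw [hV, Matrix.one_apply_ne hij] }
  obtain ⟨ε, h0, h1, h2⟩ := exists_lift hg
  refine ⟨ε, h0, h1, h2, fun i => ?_⟩
  have e1 := congrFun (congrFun (map_Vm (Q := Q) ε (bg Q 0) (bg Q 1) (bg Q 2)) i) i
  rw [Matrix.map_apply, h0, h1, h2, hV] at e1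
  rw [e1, Matrix.one_apply_eq]

lemma Wsp_le_span (hQ : Qᴴ * Q = 1) :
    Wsp (bg Q 0) (bg Q 1) (bg Q 2) ≤
      span ℂ (Set.range fun i => Vm Q (bg Q 0) (bg Q 1) (bg Q 2) i i) := by
  have h1 : sc (BQ Q) Qᴴ * sc (BQ Q) Q = 1 := by rw [← sc_mul, hQ, sc_one]
  have h2 : Um (bg Q 0) (bg Q 1) (bg Q 2) =
      sc (BQ Q) Qᴴ * Vm Q (bg Q 0) (bg Q 1) (bg Q 2) * sc (BQ Q) Q := by
    symm
    calc sc (BQ Q) Qᴴ * Vm Q (bg Q 0) (bg Q 1) (bg Q 2) * sc (BQ Q) Q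
        = (sc (BQ Q) Qᴴ * sc (BQ Q) Q) * (Um (bg Q 0) (bg Q 1) (bg Q 2) *
          (sc (BQ Q) Qᴴ * sc (BQ Q) Q)) := by
          simp only [Vm, Matrix.mul_assoc]
      _ = _ := by rw [h1, Matrix.one_mul, Matrix.mul_one]
  unfold Wsp
  rw [span_le]
  rintro _ ⟨⟨x, y⟩, rfl⟩
  have h3 : um (bg Q 0) (bg Q 1) (bg Q 2) x y =
      Um (bg Q 0) (bg Q 1) (bg Q 2) (e4.symm x) (e4.symm y) := by simp [Um]
  show um (bg Q 0) (bg Q 1) (bg Q 2) x y ∈ _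
  rw [h3, h2, Matrix.mul_apply]
  refine Submodule.sum_mem _ fun k _ => ?_
  rw [Matrix.mul_apply, Finset.sum_mul]
  refine Submodule.sum_mem _ fun l _ => ?_
  by_cases hkl : l = k
  · subst hkl
    have h4 : sc (BQ Q) Qᴴ (e4.symm x) l * Vm Q (bg Q 0) (bg Q 1) (bg Q 2) l l *
        sc (BQ Q) Q l (e4.symm y) =
        (Qᴴ (e4.symm x) l * Q l (e4.symm y)) • Vm Q (bg Q 0) (bg Q 1) (bg Q 2) l l := by
      simp only [sc, Matrix.map_apply]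
      rw [← Algebra.commutes, ← mul_assoc, ← map_mul, ← Algebra.smul_def, mul_comm (Q l _)]
    rw [h4]
    exact Submodule.smul_mem _ _ (subset_span ⟨l, rfl⟩)
  · rw [(bg_good Q).off l k hkl, mul_zero, zero_mul]
    exact Submodule.zero_mem _

lemma Vm_mem_Wsp (i : Fin 4) :
    Vm Q (bg Q 0) (bg Q 1) (bg Q 2) i i ∈ Wsp (bg Q 0) (bg Q 1) (bg Q 2) := by
  rw [Vm, Matrix.mul_apply]
  refine Submodule.sum_mem _ fun k _ => ?_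
  rw [Matrix.mul_apply, Finset.sum_mul]
  refine Submodule.sum_mem _ fun l _ => ?_
  have h4 : sc (BQ Q) Q i l * Um (bg Q 0) (bg Q 1) (bg Q 2) l k * sc (BQ Q) Qᴴ k i =
      (Q i l * Qᴴ k i) • Um (bg Q 0) (bg Q 1) (bg Q 2) l k := by
    simp only [sc, Matrix.map_apply]
    rw [← Algebra.commutes, ← mul_assoc, ← map_mul, ← Algebra.smul_def, mul_comm (Qᴴ k i)]
  rw [h4]
  exact Submodule.smul_mem _ _ (um_mem_Wsp _ _ _ _ _)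

/-- `g` is group-like for `δ` -/
def Grp {V : Type*} [Ring V] [Algebra ℂ V] (δ : V →ₐ[ℂ] V ⊗[ℂ] V) (x : V) : Prop :=
  δ x = x ⊗ₜ x ∧ x ≠ 0

lemma Grp.mul_unit {V : Type*} [Ring V] [Algebra ℂ V] {δ : V →ₐ[ℂ] V ⊗[ℂ] V} {x y : V}
    (hx : Grp δ x) (hy : Grp δ y) (hu : IsUnit x) : Grp δ (x * y) :=
  ⟨by rw [map_mul, hx.1, hy.1, Algebra.TensorProduct.tmul_mul_tmul],
    fun h => hy.2 ((hu.mul_right_eq_zero).1 h)⟩

lemma Grp.unit_mul {V : Type*} [Ring V] [Algebra ℂ V] {δ : V →ₐ[ℂ] V ⊗[ℂ] V} {x y : V}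
    (hx : Grp δ x) (hy : Grp δ y) (hu : IsUnit y) : Grp δ (x * y) :=
  ⟨by rw [map_mul, hx.1, hy.1, Algebra.TensorProduct.tmul_mul_tmul],
    fun h => hx.2 ((hu.mul_left_eq_zero).1 h)⟩

end BQ

end

end Pool.Agent.Helper93.QG
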