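import Mathlib
import Pool.Agent.Helper93.QG.Torus

/-! Structure of the universal quotient: the dichotomy. -/

set_option linter.unusedSimpArgs false
set_option linter.unusedVariables false
set_option linter.unusedSectionVars false

open scoped TensorProduct
open Submodule Matrix

namespace Pool.Agent.Helper93.QG

noncomputable section

section alg

variable {R : Type*} [Ring R] [Algebra ℂ R]

/-- `w` -/
def ww (a : R) : R := pr a false + Complex.I • pr a true
/-- `w⁻¹` -/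
def ww' (a : R) : R := pr a false - Complex.I • pr a true

lemma ww_mul_ww' {a : R} (h : a * a = 1) : ww a * ww' a = 1 := by
  have h1 := pr_idem h false
  have h2 := pr_idem h true
  have h3 := pr_orth1 h
  have h4 := pr_orth2 h
  have h5 := pr_add a
  simp only [ww, ww', add_mul, mul_sub, smul_mul_assoc, mul_smul_comm, h1, h2, h3, h4, smul_zero,
    smul_smul, Complex.I_mul_I]
  rw [← h5]
  match_scalars <;> first | ring1 | linear_combination Complex.I_sq | linear_combination - Complex.I_sq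

lemma ww'_mul_ww {a : R} (h : a * a = 1) : ww' a * ww a = 1 := by
  have h1 := pr_idem h false
  have h2 := pr_idem h true
  have h3 := pr_orth1 h
  have h4 := pr_orth2 h
  have h5 := pr_add a
  simp only [ww, ww', sub_mul, mul_add, smul_mul_assoc, mul_smul_comm, h1, h2, h3, h4, smul_zero,
    smul_smul, Complex.I_mul_I]
  rw [← h5]
  match_scalars <;> first | ring1 | linear_combination Complex.I_sq | linear_combination - Complex.I_sq

lemma ww_Om {a1 a2 : R} (h1 : a1 * a1 = 1) (h2 : a2 * a2 = 1) (h : a2 * a1 = a1 * a2) :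
    ww (a1 * a2) * Om a1 a2 = ww a1 * ww a2 := by
  have p1 := pr_idem h1 false
  have p2 := pr_idem h1 true
  have p3 := pr_orth1 h1
  have p4 := pr_orth2 h1
  have q1 := pr_idem h2 false
  have q2 := pr_idem h2 true
  have q3 := pr_orth1 h2
  have q4 := pr_orth2 h2
  have u1 := pr_comm2 h false false
  have u2 := pr_comm2 h false true
  have u3 := pr_comm2 h true false
  have u4 := pr_comm2 h true true
  have e : Om a1 a2 = pr a1 false + pr a1 true * (pr a2 false - pr a2 true) := by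
    rw [pr_sub]; rfl
  have e2 : (pr a1 false + pr a1 true) = 1 := pr_add a1
  have e3 : pr a1 false = pr a1 false * (pr a2 false + pr a2 true) := by rw [pr_add, mul_one]
  rw [e, ww, ww, ww, pr_prod h1 h2 h.symm, pr_prod h1 h2 h.symm]
  simp only [Bool.not_false, Bool.not_true, add_mul, mul_add, mul_sub, smul_mul_assoc,
    mul_smul_comm, mul_assoc,
      p1, p2, p3, p4, q1, q2, q3, q4, u1, u2, u3, u4,
      tr p1, tr p2, tr p3, tr p4, tr q1, tr q2, tr q3, tr q4,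
      tr u1, tr u2, tr u3, tr u4, zero_mul, mul_zero, smul_zero, smul_smul, Complex.I_mul_I]
  match_scalars <;> first | ring1 | linear_combination Complex.I_sq | linear_combination - Complex.I_sq

lemma Om_ww' {a1 a2 : R} (h1 : a1 * a1 = 1) (h2 : a2 * a2 = 1) (h : a2 * a1 = a1 * a2) :
    Om a1 a2 * ww' (a1 * a2) = ww' a1 * ww' a2 := by
  have p1 := pr_idem h1 false
  have p2 := pr_idem h1 true
  have p3 := pr_orth1 h1
  have p4 := pr_orth2 h1
  have q1 := pr_idem h2 false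
  have q2 := pr_idem h2 true
  have q3 := pr_orth1 h2
  have q4 := pr_orth2 h2
  have u1 := pr_comm2 h false false
  have u2 := pr_comm2 h false true
  have u3 := pr_comm2 h true false
  have u4 := pr_comm2 h true true
  have e : Om a1 a2 = pr a1 false + pr a1 true * (pr a2 false - pr a2 true) := by
    rw [pr_sub]; rfl
  rw [e, ww', ww', ww', pr_prod h1 h2 h.symm, pr_prod h1 h2 h.symm]
  simp only [Bool.not_false, Bool.not_true, add_mul, mul_add, mul_sub, sub_mul, smul_mul_assoc,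
    mul_smul_comm, mul_assoc,
      p1, p2, p3, p4, q1, q2, q3, q4, u1, u2, u3, u4,
      tr p1, tr p2, tr p3, tr p4, tr q1, tr q2, tr q3, tr q4,
      tr u1, tr u2, tr u3, tr u4, zero_mul, mul_zero, smul_zero, smul_smul, Complex.I_mul_I]
  match_scalars <;> first | ring1 | linear_combination Complex.I_sq | linear_combination - Complex.I_sq

/-- span of `1, t` -/
def DD (t : R) : Submodule ℂ R := span ℂ {1, t}

lemma one_mem_DD (t : R) : (1 : R) ∈ DD t := subset_span (by simp)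
lemma self_mem_DD (t : R) : t ∈ DD t := subset_span (by simp)

lemma DD_mul {t : R} (ht : t * t = 1) {p q : R} (hp : p ∈ DD t) (hq : q ∈ DD t) :
    p * q ∈ DD t := by
  rw [DD, mem_span_pair] at hp hq
  obtain ⟨a, b, rfl⟩ := hp
  obtain ⟨c, d, rfl⟩ := hq
  have : (a • (1 : R) + b • t) * (c • (1 : R) + d • t) = (a * c + b * d) • (1 : R) +
      (a * d + b * c) • t := by
    simp only [add_mul, mul_add, smul_mul_assoc, mul_smul_comm, one_mul, mul_one, ht, smul_smul]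
    module
  rw [this]
  exact add_mem (smul_mem _ _ (one_mem_DD t)) (smul_mem _ _ (self_mem_DD t))

/-- the four words -/
def FF (t x : R) : Set R := {x, t * x, x * t, t * x * t}

lemma DxD {t x p q : R} (hp : p ∈ DD t) (hq : q ∈ DD t) : p * x * q ∈ span ℂ (FF t x) := by
  rw [DD, mem_span_pair] at hp hq
  obtain ⟨a, b, rfl⟩ := hp
  obtain ⟨c, d, rfl⟩ := hq
  have : (a • (1 : R) + b • t) * x * (c • (1 : R) + d • t) = (a * c) • x + (b * c) • (t * x) +
      (a * d) • (x * t) + (b * d) • (t * x * t) := by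
    simp only [add_mul, mul_add, smul_mul_assoc, mul_smul_comm, one_mul, mul_one, smul_smul]
    module
  rw [this]
  have h1 : x ∈ span ℂ (FF t x) := subset_span (by simp [FF])
  have h2 : t * x ∈ span ℂ (FF t x) := subset_span (by simp [FF])
  have h3 : x * t ∈ span ℂ (FF t x) := subset_span (by simp [FF])
  have h4 : t * x * t ∈ span ℂ (FF t x) := subset_span (by simp [FF])
  exact add_mem (add_mem (add_mem (smul_mem _ _ h1) (smul_mem _ _ h2)) (smul_mem _ _ h3))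
    (smul_mem _ _ h4)

lemma pr_mem_DD {t a : R} (ha : a ∈ DD t) (s : Bool) : pr a s ∈ DD t := by
  unfold pr
  refine smul_mem _ _ (add_mem (one_mem_DD t) ?_)
  cases s
  · exact ha
  · exact neg_mem ha

lemma Lm_mem_DD {t a b : R} (ht : t * t = 1) (ha : a ∈ DD t) (hb : b ∈ DD t) (i k : Bool) :
    Lm a b i k ∈ DD t := by
  refine DD_mul ht ?_ (pr_mem_DD ha _)
  cases i
  · exact one_mem_DD t
  · exact hb

lemma Mm_mem_DD {t a b : R} (ht : t * t = 1) (ha : a ∈ DD t) (hb : b ∈ DD t) (i k : Bool) :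
    Mm a b i k ∈ DD t := by
  refine DD_mul ht (pr_mem_DD ha _) ?_
  cases k
  · exact one_mem_DD t
  · exact hb

lemma Wsp_le_FF {t a b c w w' : R} (ht : t * t = 1) (ha : a ∈ DD t) (hb : b ∈ DD t)
    (hw : w ∈ DD t) (hw' : w' ∈ DD t) (h : w' * w = 1) :
    Wsp a b c ≤ span ℂ (FF t (w * c * w')) := by
  unfold Wsp
  rw [span_le]
  rintro _ ⟨⟨x, y⟩, rfl⟩
  have e : um a b c x y = (Lm a b x.1 y.1 * w') * (w * c * w') * (w * Mm a b y.2 x.2) := by
    calc um a b c x y = Lm a b x.1 y.1 * (1 * c * 1) * Mm a b y.2 x.2 := by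
          rw [one_mul, mul_one]; rfl
      _ = Lm a b x.1 y.1 * ((w' * w) * c * (w' * w)) * Mm a b y.2 x.2 := by rw [h]
      _ = _ := by simp only [mul_assoc]
  show um a b c x y ∈ _
  rw [e]
  exact DxD (DD_mul ht (Lm_mem_DD ht ha hb _ _) hw') (DD_mul ht hw (Mm_mem_DD ht ha hb _ _))

end alg

section dich

/-- the four elements of the Klein group -/
def hh {R : Type*} [Ring R] (a b : R) (y : Bool × Bool) : R := cond y.1 a 1 * cond y.2 b 1

lemma isUnit_of_sq {R : Type*} [Ring R] {a : R} (h : a * a = 1) : IsUnit a :=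
  ⟨⟨a, a, h, h⟩, rfl⟩

lemma hh_unit {R : Type*} [Ring R] {a b : R} (ha : a * a = 1) (hb : b * b = 1) (y : Bool × Bool) :
    IsUnit (hh a b y) := by
  rcases y with ⟨y1, y2⟩
  refine IsUnit.mul ?_ ?_
  · cases y1
    · exact isUnit_one
    · exact isUnit_of_sq ha
  · cases y2
    · exact isUnit_one
    · exact isUnit_of_sq hb

/-- a counting argument -/
lemma range_eq_of_card {V : Type*} (f : Bool × Bool → V) (g : Fin 4 → V)
    (hf : Function.Injective f) (h : ∀ y, f y ∈ Set.range g) : ∀ i, ∃ y, g i = f y := by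
  classical
  have h1 : Finset.univ.image f ⊆ Finset.univ.image g := by
    intro x hx
    rw [Finset.mem_image] at hx ⊢
    obtain ⟨y, -, rfl⟩ := hx
    obtain ⟨i, hi⟩ := h y
    exact ⟨i, Finset.mem_univ _, hi⟩
  have h2 : (Finset.univ.image f).card = 4 := by
    rw [Finset.card_image_of_injective _ hf]; rfl
  have h3 : (Finset.univ.image g).card ≤ 4 := Finset.card_image_le
  have h4 := Finset.eq_of_subset_of_card_le h1 (h3.trans h2.ge)
  intro i
  have h5 : g i ∈ Finset.univ.image f := by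
    rw [h4]; exact Finset.mem_image_of_mem _ (Finset.mem_univ _)
  rw [Finset.mem_image] at h5
  obtain ⟨y, -, hy⟩ := h5
  exact ⟨y, hy.symm⟩

variable {Q : Matrix (Fin 4) (Fin 4) ℂ}

/-- the diagonal entries -/
def gg (Q : Matrix (Fin 4) (Fin 4) ℂ) (i : Fin 4) : BQ Q := Vm Q (bg Q 0) (bg Q 1) (bg Q 2) i i

lemma gg_unit (hQ : Qᴴ * Q = 1) (hQ' : Q * Qᴴ = 1) (i : Fin 4) : IsUnit (gg Q i) := by
  have h1 := congrFun (congrFun (Vm_mul_Vm' hQ hQ' (bg_good Q).toTrip) i) i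
  have h2 := congrFun (congrFun (Vm'_mul_Vm hQ hQ' (bg_good Q).toTrip) i) i
  rw [Matrix.mul_apply, Matrix.one_apply_eq, Finset.sum_eq_single i] at h1 h2
  · exact ⟨⟨_, _, h1, h2⟩, rfl⟩
  · intro k _ hk
    rw [(bg_good Q).off k i hk, mul_zero]
  · simp
  · intro k _ hk
    rw [(bg_good Q).off i k hk.symm, zero_mul]
  · simp

theorem dichotomy (hQ : Qᴴ * Q = 1) (hQ' : Q * Qᴴ = 1) :
    ((∀ i, ∃ y, gg Q i = hh (bg Q 0) (bg Q 1) y * gg Q 0) ∧
      (∀ y, ∃ x, gg Q 0 * hh (bg Q 0) (bg Q 1) y = hh (bg Q 0) (bg Q 1) x * gg Q 0) ∧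
      (∀ y, ∃ x, hh (bg Q 0) (bg Q 1) y * gg Q 0 = gg Q 0 * hh (bg Q 0) (bg Q 1) x)) ∨
    (∃ t x : BQ Q, t * t = 1 ∧ x * x = 1 ∧ ∀ i, gg Q i ∈ FF t x) := by
  obtain ⟨δ, d0, d1, d2⟩ := exists_delta (Q := Q) hQ
  obtain ⟨ε, e0, e1, e2, e3⟩ := exists_eps (Q := Q) hQ'
  have T := (bg_good Q).toTrip
  have ne_of_eps : ∀ x : BQ Q, ε x ≠ 0 → x ≠ 0 := by
    rintro x hx rfl; exact hx (map_zero ε)
  have G0 : Grp δ (bg Q 0) := ⟨d0, ne_of_eps _ (by rw [e0]; exact one_ne_zero)⟩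
  have G1 : Grp δ (bg Q 1) := ⟨d1, ne_of_eps _ (by rw [e1]; exact one_ne_zero)⟩
  have Gone : Grp δ (1 : BQ Q) := ⟨by rw [map_one]; rfl, ne_of_eps _ (by
    rw [map_one]; exact one_ne_zero)⟩
  have Gg : ∀ i, Grp δ (gg Q i) := fun i =>
    ⟨delta_Vm hQ d0 d1 d2 i, ne_of_eps _ (by rw [gg, e3]; exact one_ne_zero)⟩
  have mem_of : ∀ {F : Set (BQ Q)}, (∀ x ∈ F, Grp δ x) → ∀ {y}, Grp δ y → y ∈ span ℂ F → y ∈ F :=
    fun hF _ hy h => grouplike_mem δ.toLinearMap hF hy h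
  have hsub := Wsp_le_span (Q := Q) hQ
  by_cases hinj : Function.Injective (hh (bg Q 0) (bg Q 1))
  · left
    have Gh : ∀ y, Grp δ (hh (bg Q 0) (bg Q 1) y) := by
      rintro ⟨y1, y2⟩
      refine Grp.mul_unit ?_ ?_ ?_
      · cases y1
        · exact Gone
        · exact G0
      · cases y2
        · exact Gone
        · exact G1
      · cases y1
        · exact isUnit_one
        · exact isUnit_of_sq T.aa
    have hl : ∀ y, hh (bg Q 0) (bg Q 1) y * gg Q 0 ∈ Set.range (gg Q) := by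
      intro y
      refine mem_of (by rintro _ ⟨i, rfl⟩; exact Gg i)
        ((Gh y).mul_unit (Gg 0) (hh_unit T.aa T.bb y)) (hsub ?_)
      rcases y with ⟨y1, y2⟩
      rw [hh, mul_assoc]
      have h1 : (cond y2 (bg Q 1) 1) * gg Q 0 ∈ Wsp (bg Q 0) (bg Q 1) (bg Q 2) := by
        cases y2
        · rw [cond_false, one_mul]; exact Vm_mem_Wsp 0
        · exact b_mul_Wsp T (Vm_mem_Wsp 0)
      cases y1
      · rw [cond_false, one_mul]; exact h1
      · exact a_mul_Wsp T h1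
    have hr : ∀ y, gg Q 0 * hh (bg Q 0) (bg Q 1) y ∈ Set.range (gg Q) := by
      intro y
      refine mem_of (by rintro _ ⟨i, rfl⟩; exact Gg i)
        ((Gg 0).unit_mul (Gh y) (hh_unit T.aa T.bb y)) (hsub ?_)
      rcases y with ⟨y1, y2⟩
      rw [hh, ← mul_assoc]
      have h1 : gg Q 0 * (cond y1 (bg Q 0) 1) ∈ Wsp (bg Q 0) (bg Q 1) (bg Q 2) := by
        cases y1
        · rw [cond_false, mul_one]; exact Vm_mem_Wsp 0
        · exact Wsp_mul_a T (Vm_mem_Wsp 0)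
      cases y2
      · rw [cond_false, mul_one]; exact h1
      · exact Wsp_mul_b T h1
    have il : Function.Injective (fun y => hh (bg Q 0) (bg Q 1) y * gg Q 0) := by
      intro x y hxy
      exact hinj ((gg_unit hQ hQ' 0).mul_left_injective hxy)
    have ir : Function.Injective (fun y => gg Q 0 * hh (bg Q 0) (bg Q 1) y) := by
      intro x y hxy
      exact hinj ((gg_unit hQ hQ' 0).mul_right_injective hxy)
    have cl := range_eq_of_card _ _ il hl
    have cr := range_eq_of_card _ _ ir hr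
    refine ⟨cl, ?_, ?_⟩
    · intro y
      obtain ⟨i, hi⟩ := hr y
      rw [← hi]
      exact cl i
    · intro y
      obtain ⟨i, hi⟩ := hl y
      rw [← hi]
      exact cr i
  · right
    have Gff : ∀ {t x : BQ Q}, t * t = 1 → x * x = 1 → Grp δ t → Grp δ x →
        ∀ z ∈ FF t x, Grp δ z := by
      intro t x ht hx Gt Gx z hz
      rcases hz with rfl | rfl | rfl | rfl
      · exact Gx
      · exact Gt.mul_unit Gx (isUnit_of_sq ht)
      · exact Gx.mul_unit Gt (isUnit_of_sq hx)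
      · exact (Gt.mul_unit Gx (isUnit_of_sq ht)).unit_mul Gt (isUnit_of_sq ht)
    have fin : ∀ {t w w' : BQ Q}, t * t = 1 → Grp δ t → bg Q 0 ∈ DD t → bg Q 1 ∈ DD t →
        w ∈ DD t → w' ∈ DD t → w * w' = 1 → w' * w = 1 →
        δ (w * bg Q 2 * w') = (w * bg Q 2 * w') ⊗ₜ (w * bg Q 2 * w') →
        ∃ t x : BQ Q, t * t = 1 ∧ x * x = 1 ∧ ∀ i, gg Q i ∈ FF t x := by
      intro t w w' ht Gt ha hb hw hw' h1 h2 hd
      have hx : (w * bg Q 2 * w') * (w * bg Q 2 * w') = 1 := by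
        calc (w * bg Q 2 * w') * (w * bg Q 2 * w')
            = w * (bg Q 2 * ((w' * w) * bg Q 2)) * w' := by simp only [mul_assoc]
          _ = 1 := by rw [h2, one_mul, T.cc, mul_one, h1]
      refine ⟨t, w * bg Q 2 * w', ht, hx, fun i => ?_⟩
      have Gx : Grp δ (w * bg Q 2 * w') := by
        refine ⟨hd, fun h0 => ?_⟩
        rw [h0, zero_mul] at hx
        exact Gone.2 hx.symm
      refine mem_of (Gff ht hx Gt Gx) (Gg i) ?_
      exact (Wsp_le_FF ht ha hb hw hw' h2) (Vm_mem_Wsp i)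
    have fin1 : ∀ {t : BQ Q}, t * t = 1 → Grp δ t → bg Q 0 ∈ DD t → bg Q 1 ∈ DD t →
        δ (bg Q 2) = bg Q 2 ⊗ₜ bg Q 2 →
        ∃ t x : BQ Q, t * t = 1 ∧ x * x = 1 ∧ ∀ i, gg Q i ∈ FF t x := by
      intro t ht Gt ha hb hd
      refine fin (w := 1) (w' := 1) ht Gt ha hb (one_mem_DD t) (one_mem_DD t) (by simp) (by simp) ?_
      simpa using hd
    have cases3 : bg Q 0 = 1 ∨ bg Q 1 = 1 ∨ bg Q 0 = bg Q 1 := by
      by_contra hcon
      push Not at hcon
      obtain ⟨n0, n1, n2⟩ := hcon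
      apply hinj
      have n3 : bg Q 0 * bg Q 1 ≠ 1 := by
        intro h
        apply n2
        calc bg Q 0 = bg Q 0 * (bg Q 1 * bg Q 1) := by rw [T.bb, mul_one]
          _ = bg Q 1 := by rw [← mul_assoc, h, one_mul]
      have n4 : bg Q 0 * bg Q 1 ≠ bg Q 1 := by
        intro h
        apply n0
        calc bg Q 0 = bg Q 0 * (bg Q 1 * bg Q 1) := by rw [T.bb, mul_one]
          _ = 1 := by rw [← mul_assoc, h, T.bb]
      have n5 : bg Q 0 * bg Q 1 ≠ bg Q 0 := by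
        intro h
        apply n1
        calc bg Q 1 = (bg Q 0 * bg Q 0) * bg Q 1 := by rw [T.aa, one_mul]
          _ = 1 := by rw [mul_assoc, h, T.aa]
      rintro ⟨x1, x2⟩ ⟨y1, y2⟩ hxy
      cases x1 <;> cases x2 <;> cases y1 <;> cases y2 <;>
        simp [hh, n0, n1, n2, n3, n4, n5, n0.symm, n1.symm, n2.symm, n3.symm, n4.symm,
          n5.symm] at hxy ⊢
    rcases cases3 with h0 | h1 | h2
    · refine fin1 (t := bg Q 1) T.bb G1 ?_ (self_mem_DD _) ?_
      · rw [h0]; exact one_mem_DD _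
      · have hOm : Om ((1 : BQ Q) ⊗ₜ[ℂ] (1 : BQ Q)) ((1 : BQ Q) ⊗ₜ[ℂ] bg Q 1) = 1 := by
          rw [← Algebra.TensorProduct.one_def]
          simp only [Om, pr, cond_false, cond_true]
          rw [add_neg_cancel, smul_zero, zero_mul, add_zero]
          module
        rw [d2, h0, hOm, one_mul, mul_one]
    · refine fin1 (t := bg Q 0) T.aa G0 (self_mem_DD _) ?_ ?_
      · rw [h1]; exact one_mem_DD _
      · have hOm : Om (bg Q 0 ⊗ₜ[ℂ] (1 : BQ Q)) ((1 : BQ Q) ⊗ₜ[ℂ] (1 : BQ Q)) = 1 := by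
          rw [← Algebra.TensorProduct.one_def, Om, mul_one, pr_add]
        rw [d2, h1, hOm, one_mul, mul_one]
    · have T1 : (bg Q 0 ⊗ₜ[ℂ] (1 : BQ Q)) * (bg Q 0 ⊗ₜ[ℂ] (1 : BQ Q)) = 1 :=
        (two_tensor T).t1.aa
      have T2 : ((1 : BQ Q) ⊗ₜ[ℂ] bg Q 0) * ((1 : BQ Q) ⊗ₜ[ℂ] bg Q 0) = 1 :=
        (two_tensor T).t2.aa
      have T3 := (two_tensor T).aa
      have dpr : ∀ s, δ (pr (bg Q 0) s) = pr (bg Q 0 ⊗ₜ[ℂ] 1 * 1 ⊗ₜ[ℂ] bg Q 0) s := by
        intro s
        rw [map_pr, d0]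
        simp
      have dw : δ (ww (bg Q 0)) = ww (bg Q 0 ⊗ₜ[ℂ] 1 * 1 ⊗ₜ[ℂ] bg Q 0) := by
        rw [ww, map_add, map_smul, dpr, dpr, ww]
      have dw' : δ (ww' (bg Q 0)) = ww' (bg Q 0 ⊗ₜ[ℂ] 1 * 1 ⊗ₜ[ℂ] bg Q 0) := by
        rw [ww', map_sub, map_smul, dpr, dpr, ww']
      have prl : ∀ s, pr (bg Q 0 ⊗ₜ[ℂ] (1 : BQ Q)) s = pr (bg Q 0) s ⊗ₜ 1 := fun s =>
        (map_pr (Algebra.TensorProduct.includeLeft (R := ℂ) (S := ℂ) (A := BQ Q) (B := BQ Q))
          (bg Q 0) s).symm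
      have prr : ∀ s, pr ((1 : BQ Q) ⊗ₜ[ℂ] bg Q 0) s = 1 ⊗ₜ pr (bg Q 0) s := fun s =>
        (map_pr (Algebra.TensorProduct.includeRight (R := ℂ) (A := BQ Q) (B := BQ Q))
          (bg Q 0) s).symm
      have wl : ww (bg Q 0 ⊗ₜ[ℂ] (1 : BQ Q)) = ww (bg Q 0) ⊗ₜ 1 := by
        rw [ww, prl, prl, ww, TensorProduct.add_tmul, TensorProduct.smul_tmul']
      have wr : ww ((1 : BQ Q) ⊗ₜ[ℂ] bg Q 0) = 1 ⊗ₜ ww (bg Q 0) := by
        rw [ww, prr, prr, ww, TensorProduct.tmul_add, TensorProduct.tmul_smul]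
      have wl' : ww' (bg Q 0 ⊗ₜ[ℂ] (1 : BQ Q)) = ww' (bg Q 0) ⊗ₜ 1 := by
        rw [ww', prl, prl, ww', TensorProduct.sub_tmul, TensorProduct.smul_tmul']
      have wr' : ww' ((1 : BQ Q) ⊗ₜ[ℂ] bg Q 0) = 1 ⊗ₜ ww' (bg Q 0) := by
        rw [ww', prr, prr, ww', TensorProduct.tmul_sub, TensorProduct.tmul_smul]
      have hpd : ∀ s, pr (bg Q 0) s ∈ DD (bg Q 0) := fun s => pr_mem_DD (self_mem_DD _) s
      refine fin (t := bg Q 0) (w := ww (bg Q 0)) (w' := ww' (bg Q 0)) T.aa G0 (self_mem_DD _) ?_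
        (add_mem (hpd _) (smul_mem _ _ (hpd _))) (sub_mem (hpd _) (smul_mem _ _ (hpd _)))
        (ww_mul_ww' T.aa) (ww'_mul_ww T.aa) ?_
      · rw [← h2]; exact self_mem_DD _
      · rw [map_mul, map_mul, dw, dw', d2, ← h2]
        calc _ = (ww (bg Q 0 ⊗ₜ[ℂ] 1 * 1 ⊗ₜ[ℂ] bg Q 0) * Om (bg Q 0 ⊗ₜ[ℂ] 1) (1 ⊗ₜ[ℂ] bg Q 0)) *
              (bg Q 2 ⊗ₜ bg Q 2) * (Om (bg Q 0 ⊗ₜ[ℂ] 1) (1 ⊗ₜ[ℂ] bg Q 0) *
              ww' (bg Q 0 ⊗ₜ[ℂ] 1 * 1 ⊗ₜ[ℂ] bg Q 0)) := by simp only [mul_assoc]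
          _ = _ := by
            rw [ww_Om T1 T2 T3, Om_ww' T1 T2 T3, wl, wr, wl', wr']
            simp [Algebra.TensorProduct.tmul_mul_tmul]

end dich

end

end Pool.Agent.Helper93.QG
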