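import Mathlib
import Pool.Agent.Helper93.QG.Defs
import Pool.Agent.Helper93.QG.Torus2

/-! Counting: the diagonal tori have linear growth. -/

set_option linter.unusedSimpArgs false
set_option linter.unusedVariables false
set_option linter.unusedSectionVars false

namespace Pool.Agent.Helper93.QG

noncomputable section

lemma ball_subset {Γ : Type} [Group Γ] {N : ℕ} (g : Fin N → Γ) (K : Finset Γ) (y0 : Γ)
    (h1 : 1 ∈ K)
    (h : ∀ i, ∀ k ∈ K, ∀ j : ℤ,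
      (∃ k' ∈ K, ∃ j' : ℤ, |j'| ≤ |j| + 1 ∧ g i * (k * y0 ^ j) = k' * y0 ^ j') ∧
      (∃ k' ∈ K, ∃ j' : ℤ, |j'| ≤ |j| + 1 ∧ (g i)⁻¹ * (k * y0 ^ j) = k' * y0 ^ j')) (n : ℕ) :
    ∀ l : List Γ, l.length ≤ n → (∀ y ∈ l, ∃ i, y = g i ∨ y = (g i)⁻¹) →
      ∃ k ∈ K, ∃ j : ℤ, |j| ≤ n ∧ l.prod = k * y0 ^ j := by
  induction n with
  | zero =>
    intro l hl _
    have : l = [] := List.length_eq_zero_iff.1 (Nat.le_zero.1 hl)
    subst this
    exact ⟨1, h1, 0, by simp, by simp⟩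
  | succ n ih =>
    intro l hl hy
    cases l with
    | nil => exact ⟨1, h1, 0, by simp; positivity, by simp⟩
    | cons a l =>
      have hl' : l.length ≤ n := by simpa using hl
      obtain ⟨k, hk, j, hj, hp⟩ := ih l hl' (fun y hyl => hy y (List.mem_cons_of_mem _ hyl))
      obtain ⟨i, hi⟩ := hy a (by simp)
      rw [List.prod_cons, hp]
      rcases hi with rfl | rfl
      · obtain ⟨k', hk', j', hj', e⟩ := (h i k hk j).1
        exact ⟨k', hk', j', by push_cast; omega, e⟩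
      · obtain ⟨k', hk', j', hj', e⟩ := (h i k hk j).2
        exact ⟨k', hk', j', by push_cast; omega, e⟩

lemma ball_growth {Γ : Type} [Group Γ] {N : ℕ} (g : Fin N → Γ) (K : Finset Γ) (y0 : Γ)
    (h1 : 1 ∈ K)
    (h : ∀ i, ∀ k ∈ K, ∀ j : ℤ,
      (∃ k' ∈ K, ∃ j' : ℤ, |j'| ≤ |j| + 1 ∧ g i * (k * y0 ^ j) = k' * y0 ^ j') ∧
      (∃ k' ∈ K, ∃ j' : ℤ, |j'| ≤ |j| + 1 ∧ (g i)⁻¹ * (k * y0 ^ j) = k' * y0 ^ j')) (n : ℕ) :
    (ball g n).encard ≤ (K.card * (2 * n + 1) : ℕ) := by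
  classical
  have hsub : ball g n ⊆ ((K ×ˢ Finset.Icc (-(n : ℤ)) n).image fun p => p.1 * y0 ^ p.2 : Finset Γ) := by
    rintro x ⟨l, hl, hy, rfl⟩
    obtain ⟨k, hk, j, hj, hp⟩ := ball_subset g K y0 h1 h n l hl hy
    rw [Finset.coe_image]
    refine ⟨(k, j), ?_, hp.symm⟩
    rw [Finset.mem_coe, Finset.mem_product, Finset.mem_Icc]
    exact ⟨hk, (abs_le.1 hj)⟩
  refine (Set.encard_le_encard hsub).trans ?_
  rw [Set.encard_coe_eq_coe_finsetCard]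
  have h2 : ((K ×ˢ Finset.Icc (-(n : ℤ)) n).image fun p => p.1 * y0 ^ p.2).card ≤
      K.card * (2 * n + 1) := by
    refine Finset.card_image_le.trans ?_
    rw [Finset.card_product, Int.card_Icc]
    apply Nat.mul_le_mul_left
    omega
  exact_mod_cast h2

lemma growth_of_structure {Γ : Type} [Group Γ] {N : ℕ} (g : Fin N → Γ) (K : Finset Γ) (y0 : Γ)
    (h1 : 1 ∈ K)
    (h : ∀ i, ∀ k ∈ K, ∀ j : ℤ,
      (∃ k' ∈ K, ∃ j' : ℤ, |j'| ≤ |j| + 1 ∧ g i * (k * y0 ^ j) = k' * y0 ^ j') ∧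
      (∃ k' ∈ K, ∃ j' : ℤ, |j'| ≤ |j| + 1 ∧ (g i)⁻¹ * (k * y0 ^ j) = k' * y0 ^ j')) :
    GroupPolynomialGrowth g := by
  refine ⟨3 * K.card, 1, fun n hn => (ball_growth g K y0 h1 h n).trans ?_⟩
  rw [pow_one]
  have : K.card * (2 * n + 1) ≤ 3 * K.card * n := by nlinarith
  exact_mod_cast this

/-- first case -/
lemma growth_case1 {Γ : Type} [Group Γ] (g : Fin 4 → Γ) (K : Subgroup Γ) [Finite K]
    (hg : ∀ i, ∃ k ∈ K, g i = k * g 0)
    (hn : ∀ k ∈ K, g 0 * k * (g 0)⁻¹ ∈ K) (hn' : ∀ k ∈ K, (g 0)⁻¹ * k * g 0 ∈ K) :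
    GroupPolynomialGrowth g := by
  classical
  have hfin : (K : Set Γ).Finite := Set.toFinite _
  refine growth_of_structure g hfin.toFinset (g 0) (by simp [K.one_mem]) ?_
  intro i k hk j
  rw [Set.Finite.mem_toFinset] at hk
  obtain ⟨m, hm, hi⟩ := hg i
  constructor
  · refine ⟨m * (g 0 * k * (g 0)⁻¹), ?_, j + 1, ?_, ?_⟩
    · rw [Set.Finite.mem_toFinset]; exact K.mul_mem hm (hn k hk)
    · exact (abs_add_le j 1).trans (by simp)
    · rw [hi, add_comm j 1, zpow_add, zpow_one]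
      group
  · refine ⟨(g 0)⁻¹ * (m⁻¹ * k) * g 0, ?_, j - 1, ?_, ?_⟩
    · rw [Set.Finite.mem_toFinset]; exact hn' _ (K.mul_mem (K.inv_mem hm) hk)
    · exact (abs_sub j 1).trans (by simp)
    · rw [hi, sub_eq_neg_add, zpow_add, zpow_neg, zpow_one]
      group

/-- second case -/
lemma growth_case2 {Γ : Type} [Group Γ] (g : Fin 4 → Γ) (t x : Γ) (ht : t * t = 1)
    (hx : x * x = 1) (hg : ∀ i, g i = x ∨ g i = t * x ∨ g i = x * t ∨ g i = t * x * t) :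
    GroupPolynomialGrowth g := by
  classical
  have hti : t⁻¹ = t := inv_eq_of_mul_eq_one_right ht
  have hxi : x⁻¹ = x := inv_eq_of_mul_eq_one_right hx
  have hc : ∀ j : ℤ, (t * x) ^ j * t = t * (t * x) ^ (-j) := by
    intro j
    have h1 : t * (t * x) * t⁻¹ = (t * x)⁻¹ := by
      rw [mul_inv_rev, hti, hxi, ← mul_assoc, ht, one_mul]
    have h2 : t * (t * x) ^ (-j) * t⁻¹ = (t * x) ^ j := by
      rw [← conj_zpow, h1, inv_zpow, zpow_neg, inv_inv]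
    rw [← h2, hti, mul_assoc, ht, mul_one]
  set y := t * x with hy
  have key : ∀ s : Γ, (∃ e, (e = 1 ∨ e = t) ∧ ∃ m : ℤ, |m| ≤ 1 ∧ s = e * y ^ m) →
      ∀ k, (k = 1 ∨ k = t) → ∀ j : ℤ, ∃ k', (k' = 1 ∨ k' = t) ∧ ∃ j' : ℤ, |j'| ≤ |j| + 1 ∧
        s * (k * y ^ j) = k' * y ^ j' := by
    rintro s ⟨e, he, m, hm, rfl⟩ k hk j
    rcases hk with rfl | rfl
    · refine ⟨e, he, m + j, ?_, ?_⟩
      · exact (abs_add_le m j).trans (by omega)
      · rw [one_mul, mul_assoc, zpow_add]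
    · rcases he with rfl | rfl
      · refine ⟨k, Or.inr rfl, -m + j, ?_, ?_⟩
        · refine (abs_add_le (-m) j).trans ?_
          rw [abs_neg]; omega
        · rw [one_mul, ← mul_assoc, hc, mul_assoc, zpow_add]
      · refine ⟨1, Or.inl rfl, -m + j, ?_, ?_⟩
        · refine (abs_add_le (-m) j).trans ?_
          rw [abs_neg]; omega
        · rw [one_mul, mul_assoc, ← mul_assoc (y ^ m), hc, mul_assoc, ← mul_assoc, ht, one_mul,
            zpow_add]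
  have hform : ∀ i, (∃ e, (e = 1 ∨ e = t) ∧ ∃ m : ℤ, |m| ≤ 1 ∧ g i = e * y ^ m) := by
    intro i
    have hyi : y⁻¹ = x * t := by rw [hy, mul_inv_rev, hti, hxi]
    rcases hg i with h | h | h | h
    · refine ⟨t, Or.inr rfl, 1, by simp, ?_⟩
      rw [h, zpow_one, hy, ← mul_assoc, ht, one_mul]
    · exact ⟨1, Or.inl rfl, 1, by simp, by rw [h, zpow_one, one_mul]⟩
    · exact ⟨1, Or.inl rfl, -1, by simp, by rw [h, zpow_neg_one, one_mul, hyi]⟩
    · exact ⟨t, Or.inr rfl, -1, by simp, by rw [h, zpow_neg_one, hyi, mul_assoc]⟩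
  have hinv : ∀ s : Γ, (∃ e, (e = 1 ∨ e = t) ∧ ∃ m : ℤ, |m| ≤ 1 ∧ s = e * y ^ m) →
      (∃ e, (e = 1 ∨ e = t) ∧ ∃ m : ℤ, |m| ≤ 1 ∧ s⁻¹ = e * y ^ m) := by
    rintro s ⟨e, he, m, hm, rfl⟩
    rcases he with rfl | rfl
    · exact ⟨1, Or.inl rfl, -m, by rwa [abs_neg], by rw [one_mul, one_mul, zpow_neg]⟩
    · refine ⟨e, Or.inr rfl, m, hm, ?_⟩
      rw [mul_inv_rev, hti, ← zpow_neg, hc, neg_neg]
  refine growth_of_structure g {1, t} y (by simp) ?_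
  intro i k hk j
  have hk' : k = 1 ∨ k = t := by simpa using hk
  constructor
  · obtain ⟨k', h1, j', h2, h3⟩ := key _ (hform i) k hk' j
    exact ⟨k', by simpa using h1, j', h2, h3⟩
  · obtain ⟨k', h1, j', h2, h3⟩ := key _ (hinv _ (hform i)) k hk' j
    exact ⟨k', by simpa using h1, j', h2, h3⟩

end

end Pool.Agent.Helper93.QG
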