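import Mathlib
import Pool.Agent.Helper93.QG.Growth
import Pool.Agent.Helper93.QG.Example

/-! The diagonal tori of the example have polynomial growth. -/

set_option linter.unusedSimpArgs false
set_option linter.unusedVariables false
set_option linter.unusedSectionVars false

open Matrix

namespace Pool.Agent.Helper93.QG

noncomputable section

lemma growth_subgroup {Γ : Type} [Group Γ] (H : Subgroup Γ) {N : ℕ} (g : Fin N → H)
    (h : GroupPolynomialGrowth (fun i => (g i : Γ))) : GroupPolynomialGrowth g := by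
  obtain ⟨C, d, h⟩ := h
  refine ⟨C, d, fun k hk => le_trans ?_ (h k hk)⟩
  rw [← (Subtype.val_injective (p := fun x => x ∈ H)).encard_image]
  apply Set.encard_le_encard
  rintro _ ⟨x, ⟨l, hl, hy, rfl⟩, rfl⟩
  refine ⟨l.map Subtype.val, by simpa using hl, ?_, ?_⟩
  · intro y hy'
    rw [List.mem_map] at hy'
    obtain ⟨z, hz, rfl⟩ := hy'
    obtain ⟨i, hi⟩ := hy z hz
    refine ⟨i, ?_⟩
    rcases hi with rfl | rfl
    · left; rfl
    · right; rfl
  · exact (map_list_prod H.subtype l).symm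

lemma hh_mul {R : Type*} [Ring R] [Algebra ℂ R] {a b : R} (ha : a * a = 1) (hb : b * b = 1) (hab : a * b = b * a)
    (x y : Bool × Bool) : hh a b x * hh a b y = hh a b (xor x.1 y.1, xor x.2 y.2) := by
  rcases x with ⟨x1, x2⟩
  rcases y with ⟨y1, y2⟩
  cases x1 <;> cases x2 <;> cases y1 <;> cases y2 <;>
    simp [hh, ha, hb, ← hab, mul_assoc, tr ha, tr hb, tr hab.symm]

/-- the Klein subgroup of the unit group -/
def kleinSub {R : Type*} [Ring R] [Algebra ℂ R] {a b : R} (ha : a * a = 1) (hb : b * b = 1)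
    (hab : a * b = b * a) : Subgroup Rˣ where
  carrier := {u | ∃ y, (u : R) = hh a b y}
  one_mem' := ⟨(false, false), by simp [hh]⟩
  mul_mem' := by
    rintro u v ⟨x, hx⟩ ⟨y, hy⟩
    exact ⟨_, by rw [Units.val_mul, hx, hy, hh_mul ha hb hab]⟩
  inv_mem' := by
    rintro u ⟨x, hx⟩
    refine ⟨x, ?_⟩
    have h1 : u * u = 1 := by
      apply Units.ext
      rw [Units.val_mul, hx, hh_mul ha hb hab]
      simp [hh]
    rw [inv_eq_of_mul_eq_one_right h1, hx]

instance {R : Type*} [Ring R] [Algebra ℂ R] {a b : R} (ha : a * a = 1) (hb : b * b = 1)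
    (hab : a * b = b * a) : Finite (kleinSub ha hb hab) := by
  have h : Function.Injective (fun u : kleinSub ha hb hab =>
      (⟨((u : Rˣ) : R), u.2.imp fun y hy => hy.symm⟩ : Set.range (hh a b))) := by
    intro u v huv
    apply Subtype.ext
    apply Units.ext
    exact congrArg Subtype.val huv
  exact Finite.of_injective _ h

instance torusAlgAlgebra {N : ℕ} (G : ClosedSubgroup N) (Q : unitaryGroup (Fin N) ℂ) :
    Algebra ℂ (G.TorusAlg Q) :=
  RingCon.instAlgebraQuotient (G.torusIdeal Q).ringCon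

/-- the quotient map as an algebra homomorphism -/
def piQ {N : ℕ} (G : ClosedSubgroup N) (Q : unitaryGroup (Fin N) ℂ) : G.A →ₐ[ℂ] G.TorusAlg Q :=
  { G.toTorusAlg Q with commutes' := fun r => rfl }

theorem torus_growth (Q : unitaryGroup (Fin 4) ℂ) : GG.TorusPolynomialGrowth Q := by
  apply growth_subgroup
  show GroupPolynomialGrowth (GG.torusGen Q)
  have hQ : (Q : Matrix (Fin 4) (Fin 4) ℂ)ᴴ * (Q : Matrix (Fin 4) (Fin 4) ℂ) = 1 := Q.2.1
  have hQ' : (Q : Matrix (Fin 4) (Fin 4) ℂ) * (Q : Matrix (Fin 4) (Fin 4) ℂ)ᴴ = 1 := Q.2.2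
  have hconj : ∀ i j, GG.toTorusAlg Q (GG.conj Q i j) =
      Vm (Q : Matrix (Fin 4) (Fin 4) ℂ) (piQ GG Q xa) (piQ GG Q xb) (piQ GG Q xc) i j := by
    intro i j
    exact congrFun (congrFun (map_Vm (Q := (Q : Matrix (Fin 4) (Fin 4) ℂ)) (piQ GG Q) xa xb xc) i) j
  have good : GoodQ (Q : Matrix (Fin 4) (Fin 4) ℂ) (piQ GG Q xa) (piQ GG Q xb) (piQ GG Q xc) :=
    { toTrip := xTrip.map (piQ GG Q)
      off := fun i j hij => by
        rw [← hconj, GG.toTorusAlg_eq_zero (GG.conj_mem hij)] }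
  obtain ⟨φ, h0, h1, h2⟩ := exists_lift good
  have hgg : ∀ i, φ (gg (Q : Matrix (Fin 4) (Fin 4) ℂ) i) = (GG.torusGen Q i : GG.TorusAlg Q) := by
    intro i
    have e1 := congrFun (congrFun (map_Vm (Q := (Q : Matrix (Fin 4) (Fin 4) ℂ)) φ
      (bg _ 0) (bg _ 1) (bg _ 2)) i) i
    rw [Matrix.map_apply, h0, h1, h2, ← hconj] at e1
    exact e1
  have hhh : ∀ y, φ (hh (bg _ 0) (bg _ 1) y) = hh (piQ GG Q xa) (piQ GG Q xb) y := by
    rintro ⟨y1, y2⟩
    cases y1 <;> cases y2 <;> simp [hh, h0, h1]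
  rcases dichotomy hQ hQ' with ⟨c1, c2, c3⟩ | ⟨t, x, ht, hx, hc⟩
  · have T := good.toTrip
    refine growth_case1 _ (kleinSub T.aa T.bb T.ab) ?_ ?_ ?_
    · intro i
      obtain ⟨y, hy⟩ := c1 i
      refine ⟨GG.torusGen Q i * (GG.torusGen Q 0)⁻¹, ⟨y, ?_⟩, by simp⟩
      have e := congrArg φ hy
      rw [map_mul, hgg, hgg, hhh] at e
      rw [Units.val_mul, e, Units.mul_inv_cancel_right]
    · rintro k ⟨y, hy⟩
      obtain ⟨x, hx⟩ := c2 y
      refine ⟨x, ?_⟩
      have e := congrArg φ hx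
      rw [map_mul, map_mul, hgg, hhh, hhh] at e
      rw [Units.val_mul, Units.val_mul, hy, e, Units.mul_inv_cancel_right]
    · rintro k ⟨y, hy⟩
      obtain ⟨x, hx⟩ := c3 y
      refine ⟨x, ?_⟩
      have e := congrArg φ hx
      rw [map_mul, map_mul, hgg, hhh, hhh] at e
      rw [Units.val_mul, Units.val_mul, hy, mul_assoc, e, Units.inv_mul_cancel_left]
  · have ht' : φ t * φ t = 1 := by rw [← map_mul, ht, map_one]
    have hx' : φ x * φ x = 1 := by rw [← map_mul, hx, map_one]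
    refine growth_case2 _ ⟨φ t, φ t, ht', ht'⟩ ⟨φ x, φ x, hx', hx'⟩ (Units.ext ht') (Units.ext hx') ?_
    intro i
    have e : ((GG.torusGen Q i : (GG.TorusAlg Q)ˣ) : GG.TorusAlg Q) = φ (gg _ i) := (hgg i).symm
    rcases hc i with h | h | h | h
    · left
      apply Units.ext
      rw [e, h]
    · right; left
      apply Units.ext
      rw [e, h, map_mul]
      rfl
    · right; right; left
      apply Units.ext
      rw [e, h, map_mul]
      rfl
    · right; right; right
      apply Units.ext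
      rw [e, h, map_mul, map_mul]
      rfl

end

end Pool.Agent.Helper93.QG
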